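import Pool.Agent.MP_56ff7a_an.H29.Lift

/-!
Strongly convergent bounded sequences of operators.
-/

namespace Pool.Agent.MP_56ff7a_an.H29

open Finset Filter Topology H20
open scoped InnerProductSpace

theorem exists_res {A : Type} [CStarAlgebra A] {x : A} (hx : IsSelfAdjoint x) :
    ∃ r, r * (x + Complex.I • 1) = 1 ∧ (x + Complex.I • 1) * r = 1 ∧ ‖r‖ ≤ 1 := by
  have h1 : IsUnit (x + Complex.I • 1) := by
    have h2 : -Complex.I ∉ spectrum ℂ x := fun h => by simpa using hx.im_eq_zero_of_mem_spectrum h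
    rw [spectrum.notMem_iff, Algebra.algebraMap_eq_smul_one] at h2
    simpa [add_comm] using h2.neg
  obtain ⟨r, h2, h3⟩ := isUnit_iff_exists.1 h1
  refine ⟨r, h3, h2, ?_⟩
  have h4 : (x - Complex.I • 1) * star r = 1 := by
    simpa [hx.star_eq, sub_eq_add_neg] using congrArg star h3
  have h5 : star r - r = (2 * Complex.I) • (r * star r) := by
    calc _ = r * (x + Complex.I • 1) * star r - r * ((x - Complex.I • 1) * star r) := by
          rw [h3, h4, one_mul, mul_one]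
      _ = _ := by
          simp only [mul_add, sub_mul, add_mul, mul_sub, mul_smul_comm, smul_mul_assoc, mul_one,
            one_mul, mul_assoc]
          module
  have h6 := norm_sub_le (star r) r
  rw [h5, norm_smul, CStarRing.norm_self_mul_star, norm_star] at h6
  simp only [norm_mul, Complex.norm_ofNat, Complex.norm_I, mul_one] at h6
  nlinarith [norm_nonneg r]

theorem exists_root {A : Type} [CStarAlgebra A] {x : A} (hx : IsSelfAdjoint x) (h : ‖x‖ ≤ 1) :
    ∃ y, IsSelfAdjoint y ∧ (∀ r, r * (y + Complex.I • 1) = 1 → (y + Complex.I • 1) * r = 1 →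
      x = r + star r) ∧ ∀ z, Commute x z → Commute y z := by
  rcases subsingleton_or_nontrivial A with h0 | h0
  · exact ⟨x, hx, fun _ _ _ => Subsingleton.elim _ _, fun _ h => h⟩
  let g : ℝ → ℝ := fun s => s / (1 + √(1 - s ^ 2))
  have hg : Continuous g := Continuous.div continuous_id (by fun_prop) fun s => by positivity
  have hy : IsSelfAdjoint (cfc g x) := cfc_predicate _ _
  refine ⟨cfc g x, hy, fun r h1 h2 => ?_, fun z hz => hx.commute_cfc hz g⟩
  have h3 : x * (1 + cfc g x * cfc g x) = cfc g x + cfc g x := by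
    nth_rewrite 1 [← cfc_id' ℝ x]
    rw [← cfc_mul _ _ _, ← cfc_const_one ℝ x, ← cfc_add _ _ _, ← cfc_mul _ _ _, ← cfc_add _ _ _]
    refine cfc_congr fun s hs => ?_
    have h4 := abs_le.1 ((spectrum.norm_le_norm_of_mem hs).trans h)
    have h5 := Real.sq_sqrt (show 0 ≤ 1 - s ^ 2 by nlinarith [h4.1, h4.2])
    have h6 : 0 < 1 + √(1 - s ^ 2) := by positivity
    simp only [g]
    field_simp
    linear_combination s * h5
  have h4 : Commute (cfc g x) x := hx.commute_cfc (Commute.refl x) g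
  generalize cfc g x = y at *
  have h5 : (y - Complex.I • 1) * star r = 1 := by
    simpa [hy.star_eq, sub_eq_add_neg] using congrArg star h1
  have h6 : star r * (y - Complex.I • 1) = 1 := by
    simpa [hy.star_eq, sub_eq_add_neg] using congrArg star h2
  have h7 : (y + Complex.I • 1) * x * (y - Complex.I • 1) =
      (y + Complex.I • 1) * (r + star r) * (y - Complex.I • 1) := by
    rw [mul_add _ r, h2, add_mul 1, mul_assoc _ (star r), h6, add_mul y, h4.eq, smul_mul_assoc,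
      one_mul, one_mul, mul_one, sub_add_add_cancel, ← h3]
    simp only [mul_add, add_mul, mul_sub, mul_smul_comm, smul_mul_assoc, mul_one, mul_assoc,
      smul_add, smul_smul, Complex.I_mul_I]
    module
  have h8 := congrArg (fun z => r * z * star r) h7
  simpa only [← mul_assoc r, h1, one_mul, mul_assoc _ _ (star r), h5, mul_one] using h8

theorem exists_diag (a : ℕ → ℕ → ℝ) (h : ∀ n, Tendsto (a n) atTop (𝓝 0)) :
    ∃ m : ℕ → ℕ, Tendsto m atTop atTop ∧ Tendsto (fun k => a (m k) k) atTop (𝓝 0) := by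
  classical
  choose N hN using fun n => Metric.tendsto_atTop.1 (h n) _ (Nat.one_div_pos_of_nat (n := n))
  have h1 : Tendsto (fun k => Nat.findGreatest (fun n => N n ≤ k) k) atTop atTop :=
    tendsto_atTop.2 fun n => by
      filter_upwards [eventually_ge_atTop n, eventually_ge_atTop (N n)] with k h1 h2
      exact Nat.le_findGreatest h1 h2
  refine ⟨_, h1, squeeze_zero_norm' ?_ (tendsto_one_div_add_atTop_nhds_zero_nat.comp h1)⟩
  filter_upwards [eventually_ge_atTop (N 0)] with k hk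
  simpa using (hN _ k (Nat.findGreatest_spec (P := fun n => N n ≤ k) k.zero_le hk)).le

noncomputable instance {B : Type} [CStarAlgebra B] [Nontrivial B] : CStarAlgebra (Sq B) where

/-- Bounded operators. -/
abbrev Bd (H : Type) [NormedAddCommGroup H] [InnerProductSpace ℂ H] : Type := H →L[ℂ] H

variable {H H' : Type} [NormedAddCommGroup H] [InnerProductSpace ℂ H] [CompleteSpace H]
  [NormedAddCommGroup H'] [InnerProductSpace ℂ H'] [CompleteSpace H']

variable (H H') in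
/-- A sequence of isometries and a set of operators. -/
structure Mo where
  /-- The isometries. -/
  io : ℕ → H →L[ℂ] H'
  norm_io : ∀ k ξ, ‖io k ξ‖ = ‖ξ‖
  /-- The operators. -/
  s : Set (Bd H')
  star_s : ∀ x ∈ s, star x ∈ s

namespace Mo

variable (D : Mo H H')

/-- Strong convergence along the isometries. -/
def Cv (S : ℕ → Bd H') (T : Bd H) : Prop :=
  ∀ ξ, Tendsto (fun k => S k (D.io k ξ) - D.io k (T ξ)) atTop (𝓝 0)

variable {D} {S S' : ℕ → Bd H'} {T T' : Bd H}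

theorem Cv.add (h : D.Cv S T) (h' : D.Cv S' T') : D.Cv (fun k => S k + S' k) (T + T') :=
  fun ξ => by
    have := (h ξ).add (h' ξ)
    rw [add_zero] at this
    exact this.congr fun k => by simp only [add_apply, map_add]; abel

theorem Cv.smul (h : D.Cv S T) (c : ℂ) : D.Cv (fun k => c • S k) (c • T) := fun ξ => by
  simpa [smul_sub] using (h ξ).const_smul c

theorem Cv.sum {I : Type} (s : Finset I) {S : I → ℕ → Bd H'} {T : I → Bd H}
    (h : ∀ i, D.Cv (S i) (T i)) : D.Cv (fun k => ∑ i ∈ s, S i k) (∑ i ∈ s, T i) := fun ξ => by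
  simpa using tendsto_finsetSum s fun i _ => h i ξ

theorem Cv.mul (h : D.Cv S T) (h' : D.Cv S' T') {C : ℝ} (hC : ∀ k, ‖S k‖ ≤ C) :
    D.Cv (fun k => S k * S' k) (T * T') := fun ξ => by
  have h1 : Tendsto (fun k => S k (S' k (D.io k ξ) - D.io k (T' ξ))) atTop (𝓝 0) :=
    squeeze_zero_norm (fun k => (S k).le_of_opNorm_le (hC k) _)
      (by simpa using (h' ξ).norm.const_mul C)
  simpa using h1.add (h (T' ξ))

theorem Cv.nonneg (h : D.Cv S T) (h' : ∀ k ξ, 0 ≤ (⟪ξ, S k ξ⟫_ℂ).re) (ξ : H) :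
    0 ≤ (⟪ξ, T ξ⟫_ℂ).re := by
  have h1 : Tendsto (fun k => ‖ξ‖ * ‖S k (D.io k ξ) - D.io k (T ξ)‖ + (⟪ξ, T ξ⟫_ℂ).re) atTop
      (𝓝 (⟪ξ, T ξ⟫_ℂ).re) := by simpa using ((h ξ).norm.const_mul ‖ξ‖).add_const _
  refine ge_of_tendsto' h1 fun k => (h' k (D.io k ξ)).trans ?_
  have h2 := re_inner_le_norm (𝕜 := ℂ) (D.io k ξ) (S k (D.io k ξ) - D.io k (T ξ))
  have h3 : ⟪D.io k ξ, D.io k (T ξ)⟫_ℂ = ⟪ξ, T ξ⟫_ℂ := by
    rw [← ContinuousLinearMap.adjoint_inner_right, adj_iso (D.norm_io k)]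
  rw [inner_sub_right, D.norm_io, h3, map_sub] at h2
  exact sub_le_iff_le_add.1 h2

theorem cv_of_dense {C : ℝ} (hC : ∀ k, ‖S k‖ ≤ C) :
    IsClosed {ξ | Tendsto (fun k => S k (D.io k ξ) - D.io k (T ξ)) atTop (𝓝 0)} :=
  nulS_closed (fun k => S k ∘L D.io k - D.io k ∘L T) (C := C + ‖T‖) fun k =>
    ContinuousLinearMap.opNorm_le_bound _ (add_nonneg ((norm_nonneg _).trans (hC k))
      (norm_nonneg _)) fun ξ => (norm_sub_le _ _).trans (by
        have h1 := (S k).le_of_opNorm_le (hC k) (D.io k ξ)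
        have h2 := T.le_opNorm ξ
        rw [D.norm_io] at h1
        rw [← D.norm_io k] at h2
        rw [add_mul]
        exact add_le_add h1 h2)

variable (D) [Nontrivial H']

/-- Convergent sequences commuting with the given operators. -/
noncomputable def B0 : StarSubalgebra ℂ (Sq (Bd H') × Bd H) where
  carrier := {b | D.Cv b.1 b.2 ∧ D.Cv (star b).1 (star b).2 ∧ ∀ k, ∀ x ∈ D.s, Commute (b.1 k) x}
  mul_mem' := fun {a b} ha hb => ⟨ha.1.mul hb.1 (Sq.le _), by
    rw [star_mul]; exact hb.2.1.mul ha.2.1 (Sq.le _),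
    fun k σ h => (ha.2.2 k σ h).mul_left (hb.2.2 k σ h)⟩
  add_mem' := fun {a b} ha hb => ⟨ha.1.add hb.1, by rw [star_add]; exact ha.2.1.add hb.2.1,
    fun k σ h => (ha.2.2 k σ h).add_left (hb.2.2 k σ h)⟩
  algebraMap_mem' c := by
    have h : ∀ c : ℂ, D.Cv (algebraMap ℂ (Sq (Bd H') × Bd H) c).1
        (algebraMap ℂ (Sq (Bd H') × Bd H) c).2 := fun c ξ =>
      tendsto_const_nhds.congr fun k => by
        change 0 = c • D.io k ξ - D.io k (c • ξ)
        simp
    exact ⟨h c, by rw [← algebraMap_star_comm]; exact h _,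
      fun k σ _ => Algebra.commutes (A := Bd H') c _⟩
  star_mem' := fun {a} ha => ⟨ha.2.1, by rw [star_star]; exact ha.1, fun k σ h => by
    have := (ha.2.2 k _ (D.star_s σ h)).star_star
    rwa [star_star] at this⟩

theorem cont_ev (k : ℕ) : Continuous fun b : Sq (Bd H') × Bd H => b.1 k :=
  (lp.evalCLM ℂ (fun _ : ℕ => Bd H') ⊤ k).continuous.comp continuous_fst

instance : IsClosed (D.B0 : Set (Sq (Bd H') × Bd H)) := by
  have h : IsClosed {b : Sq (Bd H') × Bd H | D.Cv b.1 b.2} := by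
    simp only [Cv, Set.ofPred_forall]
    refine isClosed_iInter fun ξ => (LipschitzWith.uniformEquicontinuous
      (fun k (b : Sq (Bd H') × Bd H) => b.1 k (D.io k ξ) - D.io k (b.2 ξ)) (‖ξ‖₊ + ‖ξ‖₊) fun k =>
        LipschitzWith.of_dist_le_mul fun a b => ?_).equicontinuous.isClosed_setOfPred_tendsto
          continuous_const
    have h1 := ((a - b).1 k).le_of_opNorm_le ((Sq.le _ k).trans (norm_fst_le (a - b)))
      (D.io k ξ)
    have h2 := (a - b).2.le_of_opNorm_le (norm_snd_le (a - b)) ξ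
    rw [D.norm_io] at h1
    rw [← D.norm_io k] at h2
    rw [dist_eq_norm, dist_eq_norm, sub_sub_sub_comm, ← map_sub]
    refine (norm_sub_le _ _).trans ((add_le_add h1 h2).trans_eq ?_)
    push_cast
    ring
  have h' : IsClosed {b : Sq (Bd H') × Bd H | ∀ k, ∀ x ∈ D.s, Commute (b.1 k) x} := by
    simp only [Set.ofPred_forall]
    exact isClosed_iInter fun k => isClosed_iInter fun σ => isClosed_iInter fun _ =>
      isClosed_eq ((cont_ev k).mul continuous_const) (continuous_const.mul (cont_ev k))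
  exact h.inter ((h.preimage continuous_star).inter h')

/-- The limit. -/
noncomputable def q0 : D.B0 →⋆ₐ[ℂ] Bd H := (StarAlgHom.snd ℂ _ _).comp D.B0.subtype

/-- The terms. -/
noncomputable def qk (k : ℕ) : D.B0 →⋆ₐ[ℂ] Bd H' where
  toFun b := b.1.1 k
  map_one' := rfl
  map_mul' _ _ := rfl
  map_zero' := rfl
  map_add' _ _ := rfl
  commutes' _ := rfl
  map_star' _ := rfl

theorem cv_q (b : D.B0) : D.Cv (fun k => D.qk k b) (D.q0 b) := b.2.1

theorem comm_q (b : D.B0) (k : ℕ) {x : Bd H'} (h : x ∈ D.s) : Commute (D.qk k b) x :=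
  b.2.2.2 k x h

theorem norm_le_q (b : D.B0) {C : ℝ} (h : ‖D.q0 b‖ ≤ C) (h' : ∀ k, ‖D.qk k b‖ ≤ C) : ‖b‖ ≤ C :=
  norm_prod_le_iff.2 ⟨lp.norm_le_of_forall_le ((norm_nonneg _).trans h) h', h⟩

theorem ext_q {b c : D.B0} (h : D.q0 b = D.q0 c) (h' : ∀ k, D.qk k b = D.qk k c) : b = c :=
  Subtype.ext (Prod.ext (lp.ext (funext h')) h)

theorem mk_mem {C : ℝ} (hC : ∀ k, ‖S k‖ ≤ C) (h1 : D.Cv S T)
    (h2 : D.Cv (fun k => star (S k)) (star T)) (h3 : ∀ k, ∀ x ∈ D.s, Commute (S k) x) :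
    ∃ b : D.B0, D.q0 b = T ∧ ∀ k, D.qk k b = S k :=
  ⟨⟨(⟨S, memℓp_infty ⟨C, by rintro _ ⟨k, rfl⟩; exact hC k⟩⟩, T), ⟨h1, h2, h3⟩⟩, rfl, fun _ => rfl⟩

variable [TopologicalSpace.SeparableSpace H]

theorem lift_lim (b : ℕ → D.B0) (h1 : ∀ n, ‖b n‖ ≤ 1) (R : Bd H)
    (h2 : ∀ ξ, Tendsto (fun n => D.q0 (b n) ξ) atTop (𝓝 (R ξ)))
    (h3 : ∀ ξ, Tendsto (fun n => D.q0 (star (b n)) ξ) atTop (𝓝 (star R ξ))) :
    ∃ c : D.B0, D.q0 c = R := by
  obtain ⟨d, hd⟩ := TopologicalSpace.exists_dense_seq H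
  obtain ⟨e, he⟩ : ∃ e : D.B0 → ℕ → ℕ → ℝ, ∀ c k i,
      e c k i = ‖D.qk k c (D.io k (d i)) - D.io k (D.q0 c (d i))‖ := ⟨_, fun _ _ _ => rfl⟩
  have h0 : ∀ c k i, 0 ≤ e c k i := fun c k i => he c k i ▸ norm_nonneg _
  obtain ⟨m, m1, m2⟩ := exists_diag
    (fun n k => ∑ i ∈ range n, (e (b n) k i + e (star (b n)) k i)) fun n => by
      simpa [he] using tendsto_finsetSum (range n) fun i _ =>
        (D.cv_q (b n) (d i)).norm.add (D.cv_q (star (b n)) (d i)).norm
  have h5 : ∀ k (c : D.B0), ‖D.qk k c‖ ≤ ‖c‖ := fun k =>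
    NonUnitalStarAlgHom.norm_apply_le (D.qk k)
  have h4 : ∀ (c : ℕ → D.B0) (R : Bd H), (∀ n, ‖c n‖ ≤ 1) →
      (∀ ξ, Tendsto (fun n => D.q0 (c n) ξ) atTop (𝓝 (R ξ))) →
      (∀ n k i, e (c n) k i ≤ e (b n) k i + e (star (b n)) k i) →
      D.Cv (fun k => D.qk k (c (m k))) R := fun c R c1 c2 c3 ξ => by
    refine hd.induction_on ξ (cv_of_dense fun k => (h5 _ _).trans (c1 _)) fun i => ?_
    have h5 := m2.add (tendsto_iff_norm_sub_tendsto_zero.1 ((c2 (d i)).comp m1))
    rw [add_zero] at h5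
    refine squeeze_zero_norm' ?_ h5
    filter_upwards [m1.eventually_gt_atTop i] with k hk
    refine (norm_sub_le_norm_sub_add_norm_sub _ (D.io k (D.q0 (c (m k)) (d i))) _).trans ?_
    rw [← map_sub, D.norm_io, ← he]
    exact add_le_add_left ((c3 _ _ _).trans (single_le_sum
      (f := fun i => e (b (m k)) k i + e (star (b (m k))) k i)
      (fun _ _ => add_nonneg (h0 _ _ _) (h0 _ _ _)) (mem_range.2 hk))) _
  exact (D.mk_mem (fun k => (h5 _ _).trans (h1 _)) (h4 b R h1 h2 fun _ _ _ =>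
    le_add_of_nonneg_right (h0 _ _ _)) (by
      simpa only [map_star] using h4 (fun n => star (b n)) (star R)
        (fun n => (norm_star (b n)).trans_le (h1 n)) h3 fun _ _ _ => le_add_of_nonneg_left (h0 _ _ _))
    fun k _ => D.comm_q _ k).imp fun _ h => h.1

theorem res_lim {s : Set H}
    (hs : ∀ P : Submodule ℂ H, IsClosed (P : Set H) → (∀ v ∈ s, v ∈ P) → ∀ ξ, ξ ∈ P)
    {x r : ℕ → Bd H} {T R : Bd H} {c : ℂ} (h1 : ∀ n, ‖r n‖ ≤ 1)
    (h2 : ∀ n, r n * (x n + c • 1) = 1) (h3 : (T + c • 1) * R = 1)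
    (h4 : ∀ v ∈ s, Tendsto (fun n => x n v) atTop (𝓝 (T v))) (ξ : H) :
    Tendsto (fun n => r n ξ) atTop (𝓝 (R ξ)) := by
  have h5 := hs (nulS fun n => r n * (T + c • 1) - 1) (nulS_closed _ (C := ‖T + c • 1‖ + 1)
    fun n => (norm_sub_le _ _).trans (add_le_add ((norm_mul_le _ _).trans
      (mul_le_of_le_one_left (norm_nonneg _) (h1 n))) norm_one_le')) (fun v hv => by
    refine squeeze_zero_norm (fun n => ?_) (tendsto_iff_norm_sub_tendsto_zero.1 (h4 v hv))
    have h6 : r n * (T + c • 1) - 1 = r n * (T - x n) := by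
      rw [← add_sub_add_right_eq_sub T (x n) (c • 1), mul_sub, h2]
    beta_reduce
    rw [norm_sub_rev, h6]
    exact ((r n).le_of_opNorm_le (h1 n) _).trans_eq (one_mul _)) (R ξ)
  rw [← tendsto_sub_nhds_zero_iff]
  refine Tendsto.congr (fun n => ?_) h5
  rw [sub_apply, ← mul_apply_eq_comp, mul_assoc, h3, mul_one]
  rfl

theorem lift_all {s : Set H}
    (hs : ∀ P : Submodule ℂ H, IsClosed (P : Set H) → (∀ v ∈ s, v ∈ P) → ∀ ξ, ξ ∈ P)
    {Λ : Type} [Group Λ] (L : Λ → Bd H) (hL : ∀ γ, star (L γ) = L γ⁻¹)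
    (ht : ∀ T, IsSelfAdjoint T → (∀ γ, Commute T (L γ)) → ∃ x : ℕ → D.B0,
      (∀ n, IsSelfAdjoint (x n)) ∧ ∀ v ∈ s, Tendsto (fun n => D.q0 (x n) v) atTop (𝓝 (T v)))
    (T : Bd H) (h : ∀ γ, Commute T (L γ)) : ∃ c, D.q0 c = T := by
  have h0 : ∀ T R, IsSelfAdjoint T → (∀ γ, Commute T (L γ)) → R * (T + Complex.I • 1) = 1 →
      (T + Complex.I • 1) * R = 1 → ∃ c, D.q0 c = R := fun T R hT h h1 h2 => by
    obtain ⟨x, hx, h6⟩ := ht T hT h
    choose r r1 r2 r3 using fun n => exists_res (hx n)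
    have h7 : ∀ b, ‖D.q0 b‖ ≤ ‖b‖ := NonUnitalStarAlgHom.norm_apply_le D.q0
    refine D.lift_lim r r3 R (res_lim hs (fun n => (h7 _).trans (r3 n)) (fun n => ?_) h2 h6)
      (res_lim hs (c := -Complex.I) (fun n => (h7 _).trans ((norm_star _).trans_le (r3 n)))
        (fun n => ?_) ?_ h6)
    · rw [← map_one D.q0, ← map_smul, ← map_add, ← map_mul, r1]
    · have := congrArg (fun z => D.q0 (star z)) (r2 n)
      simpa only [star_mul, star_add, (hx n).star_eq, star_smul, star_one, map_mul, map_add,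
        map_smul, map_one, Complex.star_def, Complex.conj_I] using this
    · simpa [hT.star_eq] using congrArg star h1
  let P := D.q0.range
  have h1 : ∀ T : Bd H, IsSelfAdjoint T → (∀ γ, Commute T (L γ)) → T ∈ P := by
    intro T hT h
    have h2 : (0 : ℝ) < ‖T‖ + 1 := by positivity
    have h3 : IsSelfAdjoint ((((‖T‖ + 1)⁻¹ : ℝ) : ℂ) • T) :=
      IsSelfAdjoint.smul (Complex.conj_ofReal _) hT
    obtain ⟨y, y1, y2, y3⟩ := exists_root h3 (by
      rw [norm_smul, Complex.norm_real, Real.norm_of_nonneg (by positivity), inv_mul_le_iff₀ h2]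
      linarith)
    obtain ⟨r, r1, r2, -⟩ := exists_res y1
    have h4 : r ∈ P := h0 _ _ y1 (fun γ => y3 _ ((h γ).smul_left _)) r1 r2
    have h5 := SMulMemClass.smul_mem ((‖T‖ + 1 : ℝ) : ℂ) (add_mem h4 (star_mem h4))
    rwa [← y2 r r1 r2, smul_smul, ← Complex.ofReal_mul, mul_inv_cancel₀ h2.ne', Complex.ofReal_one,
      one_smul] at h5
  have h2 : ∀ γ, Commute (star T) (L γ) := fun γ => by
    simpa [hL] using (h γ⁻¹).star_star
  have h3 := add_mem (h1 _ (IsSelfAdjoint.add_star_self T) fun γ => (h γ).add_left (h2 γ))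
    (SMulMemClass.smul_mem (-Complex.I) (h1 (Complex.I • (T - star T)) (by
      simp [IsSelfAdjoint, smul_sub, neg_add_eq_sub]) fun γ =>
        ((h γ).sub_left (h2 γ)).smul_left _))
  have h4 := SMulMemClass.smul_mem (2⁻¹ : ℂ) h3
  rwa [smul_smul, neg_mul, Complex.I_mul_I, neg_neg, one_smul, add_add_sub_cancel, ← two_smul ℂ,
    smul_smul, inv_mul_cancel₀ two_ne_zero, one_smul] at h4

end Mo

end Pool.Agent.MP_56ff7a_an.H29
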