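import Pool.Agent.MP_56ff7a_an.H20.Defs

/-!
Semiprojectivity.
-/

namespace Pool.Agent.MP_56ff7a_an

/-- `q` is a quotient map by `N`: it is onto, and its kernel is `N`. -/
def IsQuotientBy {X Y : Type} [NonUnitalRing X] [Module ℂ X] [Star X]
    [NonUnitalRing Y] [Module ℂ Y] [Star Y] (q : X →⋆ₙₐ[ℂ] Y) (N : Set X) : Prop :=
  Function.Surjective q ∧ ∀ x, q x = 0 ↔ x ∈ N

/-- `h` is the composition of `f` and `g`. -/
def IsComp {X Y Z : Type} [NonUnitalRing X] [Module ℂ X] [Star X]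
    [NonUnitalRing Y] [Module ℂ Y] [Star Y] [NonUnitalRing Z] [Module ℂ Z] [Star Z]
    (g : Y →⋆ₙₐ[ℂ] Z) (f : X →⋆ₙₐ[ℂ] Y) (h : X →⋆ₙₐ[ℂ] Z) : Prop :=
  ∀ x, g (f x) = h x

/-- Let `p k : B → P k` be the quotient map by `J k`, let `q : B → Q` be the quotient map by `N`,
and let `π k : P k → Q` be the induced maps. Then every star homomorphism `A → Q` factors through
some `π n`. -/
def LiftsPartially (A B : Type) [NonUnitalRing A] [Module ℂ A] [Star A]
    [NonUnitalRing B] [Module ℂ B] [Star B] (J : ℕ → Set B) (N : Set B) : Prop :=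
  ∀ (P : ℕ → Type) [∀ k, NonUnitalRing (P k)] [∀ k, Module ℂ (P k)] [∀ k, Star (P k)]
    (p : ∀ k, B →⋆ₙₐ[ℂ] P k), (∀ k, IsQuotientBy (p k) (J k)) →
    ∀ (Q : Type) [NonUnitalRing Q] [Module ℂ Q] [Star Q] (q : B →⋆ₙₐ[ℂ] Q), IsQuotientBy q N →
    ∀ π : ∀ k, P k →⋆ₙₐ[ℂ] Q, (∀ k, IsComp (π k) (p k) q) →
    ∀ φ : A →⋆ₙₐ[ℂ] Q, ∃ (n : ℕ) (ψ : A →⋆ₙₐ[ℂ] P n), IsComp (π n) ψ φ

/-- Semiprojectivity of a subalgebra `A` of a C*-algebra: for every separable C*-algebra `B` and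
every increasing chain of closed ideals `J k`, star homomorphisms to the quotient by the closure of
the union of the `J k` lift to the quotient by some `J n`. -/
def IsSemiprojective {C : Type} [CStarAlgebra C] (A : StarSubalgebra ℂ C) : Prop :=
  ∀ (B : Type) [NonUnitalCStarAlgebra B] [TopologicalSpace.SeparableSpace B] (J : ℕ → Set B),
    (∀ k, IsClosed (J k)) → Monotone J → LiftsPartially A B J (closure (⋃ k, J k))

end Pool.Agent.MP_56ff7a_an
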