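import Pool.Agent.MP_56ff7a_an.H29.Conv

/-!
Finite models: operators commuting with the regular representation lift to bounded sequences, and
positivity passes to the far end of a homotopy.
-/

namespace Pool.Agent.MP_56ff7a_an.H29

open Finset Filter Topology H20
open scoped InnerProductSpace

theorem abs_hom'' {B D G : Type} [CStarAlgebra B] [CStarAlgebra D] [Nontrivial D] [Group G]
    [Countable G] (h : LiftsCor (Cr G)) (q : B →⋆ₐ[ℂ] D) (U : ℚ → G → B) {φ : ℚ → G → D}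
    (hφ : ∀ t g, q (U t g) = φ t g) (hm : ∀ t g h, φ t (g * h) = φ t g * φ t h)
    (hs : ∀ t g, star (φ t g) = φ t g⁻¹)
    (hm1 : ∀ g h, U 1 (g * h) = U 1 g * U 1 h) (hs1 : ∀ g, star (U 1 g) = U 1 g⁻¹) {K : ℝ}
    (hK : 0 ≤ K) (hU : ∀ s ∈ Set.Icc (0 : ℚ) 1, ∀ t ∈ Set.Icc (0 : ℚ) 1, ∀ g,
      ‖φ s g - φ t g‖ ≤ K * |(s : ℝ) - t|)
    (e1 : ∀ f : G →₀ ℂ, ‖f.sum fun g c => c • U 1 g‖ ≤ ‖f.sum fun g c => c • lam G g‖)
    (e2 : ∀ (f : G →₀ ℂ) t, ‖f.sum fun g c => c • φ t g‖ ≤ ‖f.sum fun g c => c • lam G g‖) :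
    ∃ ψ : ℕ → Cr G →⋆ₙₐ[ℂ] B, ∀ g, Tendsto (fun n => q (ψ n (lamr G g))) atTop (𝓝 (φ 0 g)) := by
  let f : ℚ × G × Bool → B := fun x => if x.2.2 then U x.1 x.2.1 else star (U x.1 x.2.1)
  let C := generatedCStar (Set.range f)
  have : TopologicalSpace.SeparableSpace C :=
    (((Set.countable_range _).isSeparable.span.closure).mono (gen_le f fun x =>
      ⟨(x.1, x.2.1, !x.2.2), by rcases x with ⟨_, _, _ | _⟩ <;> simp [f]⟩)).separableSpace
  have : Nontrivial C := ⟨0, 1, fun h => by simpa using congrArg (q.comp C.subtype) h⟩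
  let V : ℚ → G → C := fun t g => ⟨U t g, StarSubalgebra.le_topologicalClosure _
    (StarAlgebra.subset_adjoin _ _ ⟨(t, g, true), rfl⟩)⟩
  have h1 : ∀ t g, (q.comp C.subtype) (V t g) = φ t g := hφ
  obtain ⟨ψ, hψ⟩ := abs_hom' h (q.comp C.subtype) V (by simpa only [h1]) (by simpa only [h1])
    (fun g h => Subtype.ext (hm1 g h)) (fun g => Subtype.ext (hs1 g)) hK (by simpa only [h1])
    (fun f => by
      change ‖C.subtype _‖ ≤ _
      rw [map_finsuppSum]
      exact e1 f) (by simpa only [h1])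
  exact ⟨fun n => C.subtype.toNonUnitalStarAlgHom.comp (ψ n), fun g => h1 0 g ▸ hψ g⟩

theorem pos_map {H H' : Type} [NormedAddCommGroup H] [InnerProductSpace ℂ H] [CompleteSpace H]
    [NormedAddCommGroup H'] [InnerProductSpace ℂ H'] [CompleteSpace H']
    {C : StarSubalgebra ℂ (Bd H)} [hC : IsClosed (C : Set (Bd H))] (Φ : C →⋆ₙₐ[ℂ] Bd H') (x : C)
    (h : ∀ ξ, 0 ≤ (⟪ξ, x.1 ξ⟫_ℂ).re) (η : H') : 0 ≤ (⟪η, Φ x η⟫_ℂ).re := by
  have h1 : IsSelfAdjoint (x.1 + star x.1) := .add_star_self _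
  have h2 : 0 ≤ x.1 + star x.1 := (ContinuousLinearMap.nonneg_iff_isPositive _).2
    (ContinuousLinearMap.isPositive_def'.2 ⟨h1, fun ξ => by
      rw [ContinuousLinearMap.reApplyInnerSelf, add_apply, inner_add_left, map_add,
        ContinuousLinearMap.star_eq_adjoint, ContinuousLinearMap.adjoint_inner_left,
        inner_re_symm]
      exact add_nonneg (h ξ) (h ξ)⟩)
  let z : C := ⟨cfc Real.sqrt (x.1 + star x.1), cfc_mem (𝕜' := ℂ) _ (x + star x).2⟩
  have h3 : x + star x = star z * z := Subtype.ext (by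
    change _ = star (cfc _ _) * cfc _ _
    rw [(cfc_predicate Real.sqrt (x.1 + star x.1)).star_eq, ← cfc_mul _ _ _, cfc_congr (g := fun t => t) fun t ht =>
      Real.mul_self_sqrt (spectrum_nonneg_of_nonneg h2 ht), cfc_id' ℝ _]
    rfl)
  have h4 := congrArg (fun T : C => (⟪η, Φ T η⟫_ℂ).re) h3
  simp only [map_add, map_mul, map_star, add_apply, inner_add_right, mul_apply_eq_comp,
    ContinuousLinearMap.star_eq_adjoint, ContinuousLinearMap.adjoint_inner_right,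
    Complex.add_re] at h4
  have h5 : (⟪Φ x η, η⟫_ℂ).re = (⟪η, Φ x η⟫_ℂ).re := inner_re_symm (𝕜 := ℂ) _ _
  have h6 : 0 ≤ (⟪Φ z η, Φ z η⟫_ℂ).re := inner_self_nonneg (𝕜 := ℂ)
  linarith

section Reg

variable (Γ K : Type) [Group Γ] [NormedAddCommGroup K] [InnerProductSpace ℂ K]

/-- Left translations. -/
noncomputable def LL : Γ →* Bd (El Γ K) := (pm K).comp (MulAction.toPermHom Γ Γ)

/-- Right translations as permutations. -/
def rr : Γ →* Equiv.Perm Γ where
  toFun γ := ⟨(· * γ⁻¹), (· * γ), fun _ => by simp, fun _ => by simp⟩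
  map_one' := by ext; simp
  map_mul' _ _ := by ext; simp [mul_assoc]

/-- Right translations. -/
noncomputable def RR : Γ →* Bd (El Γ K) := (pm K).comp (rr Γ)

variable {Γ K}

@[simp] theorem LL_apply (γ β : Γ) (ξ : El Γ K) : LL Γ K γ ξ β = ξ (γ⁻¹ * β) := rfl

@[simp] theorem RR_apply (γ β : Γ) (ξ : El Γ K) : RR Γ K γ ξ β = ξ (β * γ) := rfl

theorem LL_sng (γ β : Γ) (v : K) : LL Γ K γ (sng β v) = sng (γ * β) v := pm_sng _ _ _

theorem RR_sng (γ β : Γ) (v : K) : RR Γ K γ (sng β v) = sng (β * γ⁻¹) v := pm_sng _ _ _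

theorem norm_LL (γ : Γ) : ‖LL Γ K γ‖ ≤ 1 := norm_pm _

theorem star_LL [CompleteSpace K] (γ : Γ) : star (LL Γ K γ) = LL Γ K γ⁻¹ :=
  star_rep (LL Γ K) norm_LL γ

theorem star_RR [CompleteSpace K] (γ : Γ) : star (RR Γ K γ) = RR Γ K γ⁻¹ :=
  star_rep (RR Γ K) (fun _ => norm_pm _) γ

theorem LL_amp [CompleteSpace K] (γ : Γ) (a : Bd K) : Commute (LL Γ K γ) (ampS Γ K a) := by
  ext1 ξ
  exact lp.ext (funext fun _ => rfl)

theorem RR_amp [CompleteSpace K] (γ : Γ) (a : Bd K) : Commute (RR Γ K γ) (ampS Γ K a) := by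
  ext1 ξ
  exact lp.ext (funext fun _ => rfl)

theorem LL_RR (γ β : Γ) : Commute (LL Γ K γ) (RR Γ K β) := by
  ext1 ξ
  exact lp.ext (funext fun x => congrArg ξ (mul_assoc γ⁻¹ x β))

end Reg

/-- Finite models of a group. -/
structure FM (Λ : Type) [Group Λ] where
  /-- The homomorphisms. -/
  p : ℕ → Λ →* Equiv.Perm Λ
  fin : ∀ k, Finite (p k).range
  ev : ∀ γ, ∀ᶠ k in atTop, p k γ 1 = γ

variable {Λ : Type} [Group Λ] (D : FM Λ) (K : Type) [NormedAddCommGroup K]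
  [InnerProductSpace ℂ K] [CompleteSpace K]

namespace FM

open Classical in
/-- Injective versions of the homomorphisms. -/
noncomputable def jj (k : ℕ) (γ : Λ) : Equiv.Perm Λ :=
  if D.p k γ 1 = γ then D.p k γ else Equiv.mulLeft γ

theorem jj_inj (k : ℕ) : Function.Injective (D.jj k) :=
  Function.LeftInverse.injective (g := fun σ => σ 1) fun γ => by
    rw [jj]; split_ifs with h <;> simp [h]

theorem jj_ev (γ : Λ) : ∀ᶠ k in atTop, D.jj k γ = D.p k γ := (D.ev γ).mono fun _ h => if_pos h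

/-- The isometries and the left translations. -/
noncomputable def mo : Mo (El Λ K) (El (Equiv.Perm Λ) K) where
  io k := push K (D.jj_inj k)
  norm_io _ := norm_push _
  s := Set.range (LL _ K)
  star_s := by rintro _ ⟨σ, rfl⟩; exact ⟨_, (star_LL σ).symm⟩

variable {K D} {S : ℕ → Bd (El (Equiv.Perm Λ) K)} {T : Bd (El Λ K)}

theorem cv_of_sng {C : ℝ} (hC : ∀ k, ‖S k‖ ≤ C) (h : ∀ β v, ∀ᶠ k in atTop,
    S k (sng (D.p k β) v) = push K (D.jj_inj k) (T (sng β v))) : (D.mo K).Cv S T :=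
  El_ind (nulS fun k => S k ∘L (D.mo K).io k - (D.mo K).io k ∘L T) (Mo.cv_of_dense hC) fun β v =>
    tendsto_const_nhds.congr' (by
      filter_upwards [h β v, D.jj_ev β] with k h1 h2
      change 0 = S k (push K _ _) - _
      rw [push_sng, h2, h1]
      exact (sub_self _).symm)

variable (D)

theorem cv_LL (γ : Λ) : (D.mo K).Cv (fun k => LL _ K (D.p k γ)) (LL Λ K γ) :=
  cv_of_sng (fun _ => norm_LL _) fun β v => by
    filter_upwards [D.jj_ev (γ * β)] with k h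
    rw [LL_sng, LL_sng, push_sng, h, map_mul]

theorem cv_op (a : Bd K) (γ : Λ) :
    (D.mo K).Cv (fun k => ampS _ K a * RR _ K (D.p k γ)) (ampS _ K a * RR Λ K γ) :=
  cv_of_sng (C := ‖a‖) (fun _ => (norm_mul_le _ _).trans ((mul_le_of_le_one_right (norm_nonneg _)
    (norm_pm _)).trans (norm_amp a))) fun β v => by
    filter_upwards [D.jj_ev (β * γ⁻¹)] with k h
    change amp _ a (RR _ K _ _) = push K _ (amp _ a (RR _ K _ _))
    rw [RR_sng, RR_sng, amp_sng, amp_sng, push_sng, h, map_mul, map_inv]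

theorem star_op (Γ : Type) [Group Γ] (a : Bd K) (γ : Γ) :
    star (ampS Γ K a * RR Γ K γ) = ampS Γ K (star a) * RR Γ K γ⁻¹ := by
  rw [star_mul, star_RR, ← map_star, (RR_amp _ _).eq]

theorem op_mem [Nontrivial K] (a : Bd K) (γ : Λ) : ∃ b, (D.mo K).q0 b = ampS Λ K a * RR Λ K γ ∧
    ∀ k, (D.mo K).qk k b = ampS _ K a * RR _ K (D.p k γ) :=
  (D.mo K).mk_mem (C := ‖a‖) (S := fun k => ampS _ K a * RR _ K (D.p k γ)) (fun k =>
    (norm_mul_le _ _).trans ((mul_le_of_le_one_right (norm_nonneg _)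
    (norm_pm _)).trans (norm_amp a))) (D.cv_op a γ)
    (by simpa only [star_op, ← map_inv] using D.cv_op (star a) γ⁻¹) fun k _ => by
    rintro ⟨σ, rfl⟩
    exact ((LL_amp _ _).mul_right (LL_RR _ _)).symm

/-- The kernel of an operator. -/
noncomputable def ker (T : Bd (El Λ K)) (γ : Λ) : Bd K := evl γ⁻¹ ∘L T ∘L sng 1

theorem star_ker {T : Bd (El Λ K)} (hT : IsSelfAdjoint T) (h : ∀ γ, Commute T (LL Λ K γ))
    (γ : Λ) : star (ker T γ) = ker T γ⁻¹ := by
  refine ((ContinuousLinearMap.eq_adjoint_iff _ _).2 fun v w => ?_).symm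
  change ⟪T (sng 1 v) γ⁻¹⁻¹, w⟫_ℂ = ⟪v, T (sng 1 w) γ⁻¹⟫_ℂ
  rw [← inner_sng_right, hT.isSymmetric.apply_clm, inv_inv, ← mul_one γ, ← LL_sng,
    ← mul_apply_eq_comp, (h γ).eq, mul_apply_eq_comp, inner_sng_left, LL_apply, mul_one, mul_one]

theorem hasSum_ker {T : Bd (El Λ K)} (h : ∀ γ, Commute T (LL Λ K γ)) (β : Λ) (v : K) :
    HasSum (fun γ => (ampS Λ K (ker T γ) * RR Λ K γ : Bd (El Λ K)) (sng β v)) (T (sng β v)) := by
  have h5 := (LL Λ K β).hasSum ((Equiv.inv Λ).hasSum_iff.2 (hasSum_sng (T (sng 1 v))))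
  rw [← mul_apply_eq_comp, ← (h β).eq, mul_apply_eq_comp, LL_sng, mul_one] at h5
  convert h5 using 2 with γ
  change amp _ (ker T γ) (RR Λ K γ _) = LL Λ K β (sng _ _)
  rw [RR_sng, amp_sng, LL_sng]
  rfl

theorem exists_trunc [Countable Λ] {B : Type} [CStarAlgebra B] (q : B →⋆ₐ[ℂ] Bd (El Λ K))
    (hq : ∀ a γ, ∃ b, q b = ampS Λ K a * RR Λ K γ) {T : Bd (El Λ K)} (hT : IsSelfAdjoint T)
    (h : ∀ γ, Commute T (LL Λ K γ)) : ∃ x : ℕ → B, (∀ n, IsSelfAdjoint (x n)) ∧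
      ∀ β v, Tendsto (fun n => q (x n) (sng β v)) atTop (𝓝 (T (sng β v))) := by
  classical
  choose b b2 using fun γ => hq (ker T γ) γ
  obtain ⟨E, hE⟩ := exists_seq_tendsto (atTop : Filter (Finset Λ))
  have h5 : ∀ n, q (∑ γ ∈ E n, b γ) = ∑ γ ∈ E n, ampS Λ K (ker T γ) * RR Λ K γ :=
    fun n => (map_sum _ _ _).trans (sum_congr rfl fun γ _ => b2 γ)
  refine ⟨fun n => (2⁻¹ : ℂ) • (∑ γ ∈ E n, b γ + star (∑ γ ∈ E n, b γ)), fun n =>
    IsSelfAdjoint.smul (by simp [IsSelfAdjoint]) (IsSelfAdjoint.add_star_self _), fun β v => ?_⟩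
  have h7 := (((hasSum_ker h β v).comp hE).add
    (((Equiv.inv Λ).hasSum_iff.2 (hasSum_ker h β v)).comp hE)).const_smul (2⁻¹ : ℂ)
  rw [← two_smul ℂ, smul_smul, inv_mul_cancel₀ two_ne_zero, one_smul] at h7
  refine h7.congr fun n => ?_
  rw [map_smul, map_add, map_star, h5, star_sum, smul_apply, add_apply, _root_.sum_apply,
    _root_.sum_apply]
  simp only [star_op, star_ker hT h]
  rfl

theorem lift_all [Nontrivial K] [Countable Λ] [TopologicalSpace.SeparableSpace K]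
    (T : Bd (El Λ K)) (h : ∀ γ, Commute T (LL Λ K γ)) : ∃ c, (D.mo K).q0 c = T :=
  (D.mo K).lift_all (s := {ξ | ∃ β v, sng β v = ξ})
    (fun P h1 h2 => El_ind P h1 fun β v => h2 _ ⟨β, v, rfl⟩) (LL Λ K) star_LL (fun T h1 h2 => by
      obtain ⟨x, x1, x2⟩ := exists_trunc (D.mo K).q0
        (fun a γ => (D.op_mem a γ).imp fun _ h => h.1) h1 h2
      exact ⟨x, x1, by rintro _ ⟨β, v, rfl⟩; exact x2 β v⟩) T h

end FM

/-- Evaluation of an element of the group algebra in a representation. -/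
noncomputable abbrev ev {A : Type} [Ring A] [Algebra ℂ A] (π : Λ →* A) :
    MonoidAlgebra ℂ Λ →ₐ[ℂ] A := MonoidAlgebra.lift ℂ A Λ π

variable {G I : Type} [Group G] [Fintype I]

/-- Positivity in all representations whose first part is a multiple of the regular one. -/
def Pos (g : I → G) (y : I → MonoidAlgebra ℂ Λ) : Prop :=
  ∀ (M : Type) [NormedAddCommGroup M] [InnerProductSpace ℂ M] [CompleteSpace M] (π : Λ →* Bd M),
    (∀ γ, star (π γ) = π γ⁻¹) → ∀ ξ : El G M,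
      0 ≤ (⟪ξ, (∑ i, LL G M (g i) * ampS G M (ev π (y i))) ξ⟫_ℂ).re

/-- The regular representation of a product. -/
noncomputable def lrep (G P : Type) [Group G] [Group P] : G × P →* Bd (El G (El P ℂ)) where
  toFun x := LL G (El P ℂ) x.1 * ampS G (El P ℂ) (LL P ℂ x.2)
  map_one' := by simp
  map_mul' x z := by
    simp only [Prod.fst_mul, Prod.snd_mul, map_mul]
    exact (LL_amp _ _).mul_mul_mul_comm _ _

theorem lrep_eq {P : Type} [Group P] (x : G × P) :
    lrep G P x = LL G (El P ℂ) x.1 * ampS G (El P ℂ) (LL P ℂ x.2) := rfl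

theorem lrep_apply {P : Type} [Group P] (x : G × P) (ξ : El G (El P ℂ)) (k : G) (β : P) :
    lrep G P x ξ k β = ξ (x.1⁻¹ * k) (x.2⁻¹ * β) := rfl

open Classical in
theorem slice {P : Type} [Group P] (f : G × P →₀ ℂ) (β : P) :
    ‖∑ x ∈ f.support, if x.2 = β then f x • lam G x.1 else 0‖ ≤
      ‖f.sum fun x c => c • lrep G P x‖ := by
  refine ContinuousLinearMap.opNorm_le_bound _ (norm_nonneg _) fun ξ => ?_
  have h2 := (f.sum fun x c => c • lrep G P x).le_opNorm (amp G (sng 1) ξ)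
  rw [amp_iso (norm_sng 1)] at h2
  refine le_trans ?_ h2
  refine (norm_le_of Function.injective_id zero_le_one _ _ fun k => ?_).trans_eq (one_mul _)
  refine le_trans (le_of_eq ?_) ((norm_ev_le _ β).trans_eq (one_mul _).symm)
  congr 1
  simp only [Finsupp.sum, _root_.sum_apply, lp.coeFn_sum, Finset.sum_apply, id, smul_apply,
    lp.coeFn_smul, Pi.smul_apply, lrep_apply, amp_apply, sng_apply, inv_mul_eq_one]
  refine sum_congr rfl fun x _ => ?_
  split_ifs <;> simp [lam_apply]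

theorem transfer {g : I → G} {y : I → MonoidAlgebra ℂ Λ} (h : Pos g y) {H P : Type}
    [NormedAddCommGroup H] [InnerProductSpace ℂ H] [CompleteSpace H] [Group P] [Finite P]
    (θ : Cr G →⋆ₙₐ[ℂ] Bd H) (p : Λ →* P) (R : P →* Bd H) (hR : ∀ β, star (R β) = R β⁻¹)
    (hc : ∀ x β, Commute (θ x) (R β)) (η : H) :
    0 ≤ (⟪η, (∑ i, θ (lamr G (g i)) * ev (R.comp p) (y i)) η⟫_ℂ).re := by
  classical
  have := Fintype.ofFinite P
  obtain ⟨Φ, hΦ⟩ := exists_ext' (lrep G P) (fun x => θ (lamr G x.1) * R x.2) (fun x => by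
      rw [lrep_eq, lrep_eq, star_mul, star_LL, ← map_star, star_LL, (LL_amp _ _).eq]; rfl)
    (fun x z => by
      simp only [Prod.fst_mul, Prod.snd_mul, map_mul]
      exact ((hc _ _).symm.mul_mul_mul_comm _ _).symm) (fun x => by
      have : star (lamr G x.1) = lamr G x.1⁻¹ := Subtype.ext (star_lam _)
      rw [star_mul, hR, ← map_star, this, ← (hc _ _).eq]; rfl) (K := Fintype.card P) fun f => by
    have h1 : (f.sum fun x c => c • (θ (lamr G x.1) * R x.2)) =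
        ∑ β, θ (∑ x ∈ f.support, if x.2 = β then f x • lamr G x.1 else 0) * R β := by
      simp only [map_sum, sum_mul, apply_ite θ, map_zero, ite_mul, zero_mul, map_smul]
      rw [sum_comm]
      exact sum_congr rfl fun x _ => by simp
    rw [h1, ← card_univ, ← nsmul_eq_mul]
    refine (norm_sum_le _ _).trans (sum_le_card_nsmul _ _ _ fun β _ => ?_)
    refine (norm_mul_le _ _).trans ((mul_le_of_le_one_right (norm_nonneg _)
      (norm_unit_le R hR β)).trans ((NonUnitalStarAlgHom.norm_apply_le θ _).trans ?_))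
    change ‖(Cr G).subtype _‖ ≤ _
    simp only [map_sum, apply_ite (Cr G).subtype, map_zero, map_smul]
    exact slice f β
  obtain ⟨lr, hlr⟩ : ∃ lr : G × P → generatedCStar (Set.range (lrep G P)),
      ∀ x, (generatedCStar (Set.range (lrep G P))).subtype (lr x) = lrep G P x :=
    ⟨fun x => ⟨_, StarSubalgebra.le_topologicalClosure _ (StarAlgebra.subset_adjoin _ _ ⟨x, rfl⟩)⟩,
      fun _ => rfl⟩
  have h2 : (generatedCStar (Set.range (lrep G P))).subtype
      (∑ i, (y i).coeff.sum fun γ c => c • lr (g i, p γ)) =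
      ∑ i, LL G (El P ℂ) (g i) * ampS G (El P ℂ) (ev ((LL P ℂ).comp p) (y i)) := by
    simp only [map_sum, Finsupp.sum, MonoidAlgebra.lift_apply, map_smul, mul_sum, mul_smul_comm,
      hlr, lrep_eq, MonoidHom.comp_apply]
  have h1 := pos_map Φ (∑ i, (y i).coeff.sum fun γ c => c • lr (g i, p γ)) (fun ξ => by
    have h3 := h _ ((LL P ℂ).comp p) (fun γ => by simp [star_LL]) ξ
    rw [← h2] at h3
    exact h3) η
  simpa only [map_sum, Finsupp.sum, MonoidAlgebra.lift_apply, map_smul, mul_sum, mul_smul_comm,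
    hΦ _ (lr _) (hlr _), MonoidHom.comp_apply] using h1

variable {K}

theorem aml [Countable G] [Countable Λ] [Nontrivial K] [TopologicalSpace.SeparableSpace K]
    (hL : LiftsCor (Cr G)) (D : FM Λ) (φ : ℚ → G → Bd (El Λ K))
    (hm : ∀ t g h, φ t (g * h) = φ t g * φ t h) (hs : ∀ t g, star (φ t g) = φ t g⁻¹)
    (hc : ∀ t g γ, Commute (φ t g) (LL Λ K γ)) {C : ℝ} (hC : 0 ≤ C)
    (hU : ∀ s ∈ Set.Icc (0 : ℚ) 1, ∀ t ∈ Set.Icc (0 : ℚ) 1, ∀ g,
      ‖φ s g - φ t g‖ ≤ C * |(s : ℝ) - t|)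
    (ht : ∀ (f : G →₀ ℂ) t, ‖f.sum fun g c => c • φ t g‖ ≤ ‖f.sum fun g c => c • lam G g‖)
    (a : G → Bd K) (ha : ∀ g, φ 1 g = ampS Λ K (a g)) (am : ∀ g h, a (g * h) = a g * a h)
    (as : ∀ g, star (a g) = a g⁻¹)
    (ta : ∀ f : G →₀ ℂ, ‖f.sum fun g c => c • a g‖ ≤ ‖f.sum fun g c => c • lam G g‖)
    {g : I → G} {y : I → MonoidAlgebra ℂ Λ} (h : Pos g y) (ζ : El Λ K) :
    0 ≤ (⟪ζ, (∑ i, φ 0 (g i) * ev (LL Λ K) (y i)) ζ⟫_ℂ).re := by
  classical
  choose u hu using fun x : ℚ × G => D.lift_all (φ x.1 x.2) (hc _ _)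
  choose v v1 v2 using fun g => D.op_mem (a g) 1
  simp only [map_one, mul_one] at v1 v2
  obtain ⟨ψ, hψ⟩ := abs_hom'' hL (D.mo K).q0 (fun t g => if t = 1 then v g else u (t, g))
    (φ := φ) (fun t g => by split_ifs with h <;> simp [h, v1, ha, hu]) hm hs
    (fun g h => by
      simp only [if_true]
      exact Mo.ext_q _ (by simp only [map_mul, v1, am]) fun k => by simp only [map_mul, v2, am])
    (fun g => by
      simp only [if_true]
      exact Mo.ext_q _ (by simp only [map_star, v1, ← as]) fun k => by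
        simp only [map_star, v2, ← as]) hC hU (fun f => by
      simp only [if_true]
      refine Mo.norm_le_q _ _ ?_ fun k => ?_
      · simp only [map_finsuppSum, map_smul, v1, ← ha, ht]
      · refine le_trans ?_ ((norm_amp (Z := Equiv.Perm Λ) _).trans (ta f))
        change _ ≤ ‖ampS _ K _‖
        simp only [map_finsuppSum, map_smul, v2, le_refl]) ht
  have h1 : Tendsto (fun n => (⟪ζ, (∑ i, (D.mo K).q0 (ψ n (lamr G (g i))) *
      ev (LL Λ K) (y i)) ζ⟫_ℂ).re) atTop (𝓝 (⟪ζ, (∑ i, φ 0 (g i) * ev (LL Λ K) (y i)) ζ⟫_ℂ).re) :=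
    (Continuous.tendsto (f := fun T : Bd (El Λ K) => (⟪ζ, T ζ⟫_ℂ).re) (by fun_prop) _).comp
      (tendsto_finsetSum _ fun i _ => (hψ _).mul_const _)
  refine ge_of_tendsto' h1 fun n => Mo.Cv.nonneg (D := D.mo K) (Mo.Cv.sum univ
    (S := fun i k => (D.mo K).qk k (ψ n (lamr G (g i))) * ev ((LL _ K).comp (D.p k)) (y i))
    fun i => ((D.mo K).cv_q _).mul ?_ fun k => NonUnitalStarAlgHom.norm_apply_le ((D.mo K).qk k) _)
    (fun k η => ?_) ζ
  · simp only [MonoidAlgebra.lift_apply, Finsupp.sum]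
    exact Mo.Cv.sum _ fun γ => (D.cv_LL γ).smul _
  · have := D.fin k
    exact transfer h (((D.mo K).qk k).toNonUnitalStarAlgHom.comp (ψ n)) (D.p k).rangeRestrict
      ((LL _ K).comp (D.p k).range.subtype) (fun β => star_LL _)
      (fun x β => (D.mo K).comm_q _ k ⟨_, rfl⟩) η

end Pool.Agent.MP_56ff7a_an.H29
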