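import Pool.Agent.MP_56ff7a_an.H29.Rot

/-!
The auxiliary group: a free product of finite abelian groups indexed by the edges of the Cayley
tree of a free group, extended by the free group.
-/

namespace Pool.Agent.MP_56ff7a_an.H29

open Finset Filter Topology Monoid SemidirectProduct

variable (ι A : Type) [AddCommGroup A]

/-- The free product. -/
abbrev P0 : Type := CoprodI fun _ : FreeGroup ι × ι => Multiplicative A

variable {ι}

/-- The edge groups. -/
def eg (ε : FreeGroup ι × ι) : Multiplicative A →* P0 ι A :=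
  CoprodI.of (M := fun _ : FreeGroup ι × ι => Multiplicative A) (i := ε)

/-- Translation of edges. -/
def shf (w : FreeGroup ι) : P0 ι A →* P0 ι A := CoprodI.lift fun ε => eg A (w * ε.1, ε.2)

variable {A}

theorem P0_ext {H : Type} [Monoid H] {f g : P0 ι A →* H} (h : ∀ ε x, f (eg A ε x) = g (eg A ε x)) :
    f = g := CoprodI.ext_hom _ _ fun ε => MonoidHom.ext (h ε)

@[simp] theorem shf_eg (w : FreeGroup ι) (ε : FreeGroup ι × ι) (x : Multiplicative A) :
    shf A w (eg A ε x) = eg A (w * ε.1, ε.2) x := CoprodI.lift_of _ _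

theorem shf_shf (v w : FreeGroup ι) (p : P0 ι A) : shf A v (shf A w p) = shf A (v * w) p :=
  DFunLike.congr_fun (P0_ext (f := (shf A v).comp (shf A w)) fun _ _ => by simp [mul_assoc]) p

theorem shf_one (p : P0 ι A) : shf A 1 p = p :=
  DFunLike.congr_fun (P0_ext (g := MonoidHom.id _) fun _ _ => by simp) p

variable (ι A)

/-- The action of the free group. -/
def act : FreeGroup ι →* MulAut (P0 ι A) where
  toFun w :=
    { toFun := shf A w
      invFun := shf A w⁻¹
      left_inv := fun p => by rw [shf_shf, inv_mul_cancel, shf_one]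
      right_inv := fun p => by rw [shf_shf, mul_inv_cancel, shf_one]
      map_mul' := map_mul _ }
  map_one' := MulEquiv.ext shf_one
  map_mul' v w := MulEquiv.ext fun p => (shf_shf v w p).symm

/-- The auxiliary group. -/
abbrev Lam : Type := P0 ι A ⋊[act ι A] FreeGroup ι

variable {ι}

/-- The edge groups in the auxiliary group. -/
def tt (ε : FreeGroup ι × ι) : Multiplicative A →* Lam ι A := inl.comp (eg A ε)

open Classical in
/-- The edge coordinates. -/
noncomputable def ab (ε : FreeGroup ι × ι) : P0 ι A →* Multiplicative A :=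
  CoprodI.lift fun δ => if δ = ε then MonoidHom.id _ else 1

variable {A}

open Classical in
theorem ab_eg (ε δ : FreeGroup ι × ι) (x : Multiplicative A) :
    ab A ε (eg A δ x) = if δ = ε then x else 1 := by
  refine (CoprodI.lift_of _ _).trans ?_
  split_ifs <;> rfl

theorem ab_shf (w : FreeGroup ι) (ε : FreeGroup ι × ι) (p : P0 ι A) :
    ab A ε (shf A w p) = ab A (w⁻¹ * ε.1, ε.2) p := by
  classical
  refine DFunLike.congr_fun (P0_ext (f := (ab A ε).comp (shf A w)) fun δ x => ?_) p
  simp [ab_eg, Prod.ext_iff, eq_inv_mul_iff_mul_eq]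

theorem inr_inl (w : FreeGroup ι) (p : P0 ι A) :
    (inr w * inl p : Lam ι A) = inl (shf A w p) * inr w := by
  rw [show shf A w p = act ι A w p from rfl, inl_aut, map_inv, inv_mul_cancel_right]

theorem inr_tt (w : FreeGroup ι) (ε : FreeGroup ι × ι) (x : Multiplicative A) :
    inr w * tt A ε x = tt A (w * ε.1, ε.2) x * inr w :=
  (inr_inl w _).trans (by rw [shf_eg]; rfl)

instance [Countable ι] : Countable (FreeGroup ι) := by
  classical
  exact FreeGroup.toWord_injective.countable

instance [Countable ι] [Countable A] : Countable (P0 ι A) := by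
  classical
  have : Countable (Multiplicative A) := ‹Countable A›
  exact (show Function.Injective fun p : P0 ι A => (CoprodI.Word.equiv p).toList from
    fun _ _ h => CoprodI.Word.equiv.injective (CoprodI.Word.ext h)).countable

instance [Countable ι] [Countable A] : Countable (Lam ι A) := equivProd.injective.countable

theorem exists_pp : ∃ S : FreeGroup ι × ι → Set (Lam ι A),
    (∀ ε δ, ε ≠ δ → Disjoint (S ε) (S δ)) ∧ ∀ ε, ∀ x ≠ 1, ∀ γ ∉ S ε, tt A ε x * γ ∈ S ε := by
  classical
  refine ⟨fun ε => {γ | (CoprodI.Word.equiv γ.left).fstIdx = some ε}, fun ε δ h =>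
    Set.disjoint_left.2 fun γ h1 h2 => h (Option.some.inj (h1.symm.trans h2)),
    fun ε x hx γ hγ => ?_⟩
  have h1 : (tt A ε x * γ).left = eg A ε x * γ.left := by simp [tt]
  have h2 : CoprodI.Word.equiv (eg A ε x * γ.left) = eg A ε x • CoprodI.Word.equiv γ.left :=
    mul_smul (eg A ε x) γ.left
      (CoprodI.Word.empty : CoprodI.Word fun _ : FreeGroup ι × ι => Multiplicative A)
  change (CoprodI.Word.equiv _).fstIdx = _
  rw [h1, h2, eg, ← CoprodI.Word.cons_eq_smul (h1 := hγ) (h2 := hx), CoprodI.Word.fstIdx_cons]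

theorem Lam_hom {H : Type} [Group H] (T : ι → Multiplicative A →* H) (U : FreeGroup ι →* H) :
    ∃ p : Lam ι A →* H, (∀ a x, p (tt A (1, a) x) = T a x) ∧ ∀ w, p (inr w) = U w := by
  let f : P0 ι A →* H := CoprodI.lift fun ε => (MulAut.conj (U ε.1)).toMonoidHom.comp (T ε.2)
  have hf : ∀ ε x, f (eg A ε x) = U ε.1 * T ε.2 x * (U ε.1)⁻¹ := fun ε x => CoprodI.lift_of _ _
  refine ⟨SemidirectProduct.lift f U fun w => P0_ext fun ε x => ?_, fun a x => ?_, fun w => by simp⟩
  · change f (shf A w (eg A ε x)) = U w * f (eg A ε x) * (U w)⁻¹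
    simp [hf, mul_assoc]
  · simp [tt, hf]

theorem Lam_gen (Q : Subgroup (Lam ι A)) (h1 : ∀ a x, tt A (1, a) x ∈ Q)
    (h2 : ∀ a, inr (FreeGroup.of a) ∈ Q) (γ : Lam ι A) : γ ∈ Q := by
  have h3 : ∀ w, inr w ∈ Q := fun w => by
    induction w using FreeGroup.induction_on with
    | C1 => simp
    | of a => exact h2 a
    | inv_of a h => rw [map_inv]; exact inv_mem h
    | mul v w hv hw => rw [map_mul]; exact mul_mem hv hw
  rw [← inl_left_mul_inr_right γ]
  refine mul_mem ?_ (h3 _)
  induction γ.left using CoprodI.induction_on with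
  | one => simp
  | of ε x =>
    have h4 := mul_mem (mul_mem (h3 ε.1) (h1 ε.2 x)) (inv_mem (h3 ε.1))
    rwa [inr_tt, mul_inv_cancel_right, mul_one] at h4
  | mul p q hp hq => rw [map_mul]; exact mul_mem hp hq

theorem exists_perm {Λ : Type} [Group Λ] (S : Finset Λ) (u : Λ) :
    ∃ σ : Equiv.Perm S, ∀ β h1 h2, σ ⟨β, h1⟩ = ⟨u * β, h2⟩ := by
  obtain ⟨σ, hσ⟩ := Equiv.Perm.exists_extending_pair (α := {β : S // u * β.1 ∈ S})
    (f := fun β => β.1) (g := fun β => (⟨u * β.1.1, β.2⟩ : S)) Subtype.val_injective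
    fun b c h => Subtype.ext (Subtype.ext (mul_left_cancel (Subtype.mk.inj h)))
  exact ⟨σ, fun β h1 h2 => hσ ⟨⟨β, h1⟩, h2⟩⟩

theorem exists_orb {Λ C : Type} [Group Λ] [Group C] (S : Finset Λ) (t : C →* Λ) :
    ∃ T : C →* Equiv.Perm S, ∀ x (β : S), (∀ y, t y * β ∈ S) → (T x β).1 = t x * β := by
  classical
  have h2 : ∀ x (β : Λ), (∀ y, t y * β ∈ S) → ∀ y, t y * (t x * β) ∈ S := fun x β h y => by
    simpa [mul_assoc] using h (y * x)
  let f : C → S → S := fun x β => if h : ∀ y, t y * β.1 ∈ S then ⟨_, h x⟩ else β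
  have f1 : ∀ x (β : S) (h : ∀ y, t y * β.1 ∈ S), f x β = ⟨_, h x⟩ := fun _ _ h => dif_pos h
  have f2 : ∀ x (β : S), (¬∀ y, t y * β.1 ∈ S) → f x β = β := fun _ _ h => dif_neg h
  refine ⟨MonoidHom.toHomPerm
    { toFun := f
      map_one' := funext fun β => ?_
      map_mul' := fun x y => funext fun β => ?_ }, fun x β h => congrArg Subtype.val (f1 x β h)⟩
  · change f 1 β = β
    by_cases h : ∀ y, t y * β.1 ∈ S
    · simp [f1 1 β h]
    · exact f2 1 β h
  · change f (x * y) β = f x (f y β)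
    by_cases h : ∀ y, t y * β.1 ∈ S
    · rw [f1 _ β h, f1 _ β h, f1 _ _ (h2 y β h)]
      simp [mul_assoc]
    · rw [f2 _ β h, f2 _ β h, f2 _ β h]

theorem exists_model (S : Finset (Lam ι A)) : ∃ p : Lam ι A →* Equiv.Perm (Lam ι A),
    Finite p.range ∧ (∀ a x β, (∀ y, tt A (1, a) y * β ∈ S) → p (tt A (1, a) x) β = tt A (1, a) x * β)
      ∧ ∀ a, ∀ β ∈ S, inr (.of a) * β ∈ S → p (inr (.of a)) β = inr (.of a) * β := by
  classical
  choose σ hσ using fun a : ι => exists_perm S (inr (.of a))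
  choose T hT using fun a : ι => exists_orb S (tt A (1, a))
  obtain ⟨p, p1, p2⟩ := Lam_hom T (FreeGroup.lift σ)
  refine ⟨Equiv.Perm.ofSubtype.comp p, ((Set.finite_range Equiv.Perm.ofSubtype).subset
    (by rintro _ ⟨h, rfl⟩; exact ⟨_, rfl⟩)).to_subtype, fun a x β h => ?_, fun a β h h' => ?_⟩
  · have h3 : β ∈ S := by simpa using h 1
    rw [MonoidHom.comp_apply, Equiv.Perm.ofSubtype_apply_of_mem (p := (· ∈ S)) _ h3, p1]
    exact hT a x ⟨β, h3⟩ h
  · rw [MonoidHom.comp_apply, Equiv.Perm.ofSubtype_apply_of_mem (p := (· ∈ S)) _ h, p2,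
      FreeGroup.lift_apply_of, hσ a β h h']

theorem exists_FM [Countable ι] [Finite A] : Nonempty (FM (Lam ι A)) := by
  obtain ⟨E, hE⟩ := exists_seq_tendsto (atTop : Filter (Finset (Lam ι A)))
  choose p p1 p2 p3 using fun k => exists_model (E k)
  have h1 : ∀ β, ∀ᶠ k in atTop, β ∈ E k := fun β =>
    (hE.eventually (eventually_ge_atTop {β})).mono fun _ h => singleton_subset_iff.1 h
  have : Finite (Multiplicative A) := ‹Finite A›
  refine ⟨p, p1, fun γ => ?_⟩
  simpa using Lam_gen
    { carrier := {γ | ∀ β, ∀ᶠ k in atTop, p k γ β = γ * β}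
      mul_mem' := fun {γ δ} h h' β => by
        filter_upwards [h (δ * β), h' β] with k e1 e2
        rw [map_mul, Equiv.Perm.mul_apply, e2, e1, mul_assoc]
      one_mem' := fun β => by simp
      inv_mem' := fun {γ} h β => by
        filter_upwards [h (γ⁻¹ * β)] with k e1
        rw [map_inv, Equiv.Perm.inv_eq_iff_eq, e1, mul_inv_cancel_left] }
    (fun a x β => (eventually_all.2 fun y => h1 (tt A (1, a) y * β)).mono fun k => p2 k a x β)
    (fun a β => ((h1 β).and (h1 _)).mono fun k h => p3 k a β h.1 h.2) γ 1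

end Pool.Agent.MP_56ff7a_an.H29
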