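import Pool.Agent.MP_56ff7a_an.H29.Grp

/-!
The twisted representation of the auxiliary group and its square summable coefficients.
-/

namespace Pool.Agent.MP_56ff7a_an.H29

open Finset Filter Topology H20 SemidirectProduct
open scoped InnerProductSpace

variable (G ι A L : Type) [Group G] [AddCommGroup A] [NormedAddCommGroup L]
  [InnerProductSpace ℂ L] [CompleteSpace L]

/-- The fibre. -/
abbrev MM : Type := El (P0 ι A) L

/-- The space of the twisted representation. -/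
abbrev H1 : Type := El G (MM ι A L)

variable {ι A}

/-- Translation of edges on the fibre. -/
noncomputable def sh : FreeGroup ι →* Bd (MM ι A L) :=
  (pm L).comp ((MulAut.toPerm _).comp (act ι A))

/-- Right translation by an edge group. -/
noncomputable def rt (ε : FreeGroup ι × ι) : Multiplicative A →* Bd (MM ι A L) :=
  (RR _ L).comp ((eg A ε).comp invMonoidHom)

variable {L}

theorem sh_apply (w : FreeGroup ι) (v : MM ι A L) (q : P0 ι A) :
    sh L w v q = v (shf A w⁻¹ q) := rfl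

theorem rt_apply (ε : FreeGroup ι × ι) (x : Multiplicative A) (v : MM ι A L) (q : P0 ι A) :
    rt L ε x v q = v (q * eg A ε x⁻¹) := rfl

theorem star_rt (ε : FreeGroup ι × ι) (x : Multiplicative A) :
    star (rt L ε x) = rt L ε x⁻¹ := by
  change star (RR _ L (eg A ε x⁻¹)) = RR _ L (eg A ε x⁻¹⁻¹)
  rw [star_RR, map_inv (eg A ε) x⁻¹]

theorem sh_rt (w : FreeGroup ι) (ε : FreeGroup ι × ι) (x : Multiplicative A) :
    sh L w * rt L ε x = rt L (w * ε.1, ε.2) x * sh L w := by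
  ext v q
  simp [sh_apply, rt_apply]

theorem sh_LL (w : FreeGroup ι) (p : P0 ι A) : sh L w * LL _ L p = LL _ L (shf A w p) * sh L w := by
  ext v q
  simp [sh_apply, shf_shf, shf_one]

theorem sh_amp (w : FreeGroup ι) (a : Bd L) : Commute (sh (A := A) L w) (ampS _ L a) := by
  ext1 ξ
  exact lp.ext (funext fun _ => rfl)

/-- Vectors supported on elements whose coordinates vanish outside a set of edges. -/
def Sm (E : Set (FreeGroup ι × ι)) : Submodule ℂ (MM ι A L) where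
  carrier := {v | ∀ q, ∀ ε ∉ E, ab A ε q ≠ 1 → v q = 0}
  add_mem' h1 h2 q ε e1 e2 := by simp [h1 q ε e1 e2, h2 q ε e1 e2]
  zero_mem' _ _ _ _ := rfl
  smul_mem' c _ h q ε e1 e2 := by simp [h q ε e1 e2]

theorem inner_rt {E : Set (FreeGroup ι × ι)} {ε : FreeGroup ι × ι} (hε : ε ∉ E) {v : MM ι A L}
    (hv : v ∈ Sm E) (x : Multiplicative A) (hx : x ≠ 1) : ⟪v, rt L ε x v⟫_ℂ = 0 := by
  rw [lp.inner_eq_tsum]
  refine (tsum_congr fun q => ?_).trans tsum_zero
  by_cases h : ab A ε q = 1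
  · rw [rt_apply, hv (q * eg A ε x⁻¹) ε hε (by simp [h, ab_eg, hx]), inner_zero_right]
  · rw [hv q ε hε h, inner_zero_left]

variable [Fintype A]

theorem pv_mem {E : Set (FreeGroup ι × ι)} {ε : FreeGroup ι × ι} (hε : ε ∈ E) {v : MM ι A L}
    (hv : v ∈ Sm E) (χ : AddChar A ℂ) : pv (rt L ε) χ v ∈ Sm E := by
  rw [pv, smul_apply, _root_.sum_apply]
  refine Submodule.smul_mem _ _ (sum_mem fun x _ => Submodule.smul_mem _ (χ x) fun q δ h1 h2 => ?_)
  refine hv (q * eg A ε (.ofAdd x)⁻¹) δ h1 ?_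
  rwa [map_mul, ab_eg, if_neg (by rintro rfl; exact h1 hε), mul_one]

variable {G} (L)

/-- The labelling unitaries. -/
noncomputable def XX (ε : FreeGroup ι × ι) (k : AddChar A ℂ → G) : Bd (H1 G ι A L) :=
  ∑ χ, RR G _ (k χ) * ampS G (MM ι A L) (pv (rt L ε) χ)

variable {L}

theorem XX_apply (ε : FreeGroup ι × ι) (k : AddChar A ℂ → G) (ξ : H1 G ι A L) (h : G) :
    XX L ε k ξ h = ∑ χ, pv (rt L ε) χ (ξ (h * k χ)) := by
  rw [XX, _root_.sum_apply, lp.coeFn_sum, Finset.sum_apply]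
  rfl

theorem XX_mul (ε : FreeGroup ι × ι) (k k' : AddChar A ℂ → G) :
    XX L ε k * XX L ε k' = XX L ε (k * k') := by
  classical
  ext1 ξ
  refine lp.ext (funext fun h => ?_)
  simp only [mul_apply_eq_comp, XX_apply, map_sum, ← mul_apply_eq_comp (pv _ _), pv_mul]
  refine sum_congr rfl fun χ _ => ?_
  rw [sum_eq_single χ (fun ψ _ e => by rw [if_neg e.symm, zero_apply]) (by simp), if_pos rfl,
    mul_assoc, Pi.mul_apply]

theorem XX_one (ε : FreeGroup ι × ι) : XX L ε (1 : AddChar A ℂ → G) = 1 := by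
  simp [XX, ← map_sum, pv_sum]

theorem norm_XX (ε : FreeGroup ι × ι) (k : AddChar A ℂ → G) : ‖XX L ε k‖ ≤ 1 :=
  norm_unit_le (G := AddChar A ℂ → G) ⟨⟨XX L ε, XX_one ε⟩, fun k k' => (XX_mul ε k k').symm⟩
    (fun k => by
      simp only [MonoidHom.coe_mk, OneHom.coe_mk, XX, star_sum, star_mul, ← map_star, star_RR,
        star_pv (star_rt ε), (RR_amp _ _).eq, Pi.inv_apply]) k

theorem sh_XX (w : FreeGroup ι) (ε : FreeGroup ι × ι) (k : AddChar A ℂ → G) :
    ampS G (MM ι A L) (sh L w) * XX L ε k = XX L (w * ε.1, ε.2) k * ampS G (MM ι A L) (sh L w) := by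
  simp only [XX, mul_sum, sum_mul]
  refine sum_congr rfl fun χ _ => ?_
  rw [← mul_assoc, ← (RR_amp _ _).eq, mul_assoc, mul_assoc, ← map_mul, ← map_mul]
  simp only [pv, mul_smul_comm, smul_mul_assoc, mul_sum, sum_mul, sh_rt]

theorem comm_XX {T : Bd (H1 G ι A L)} (h1 : ∀ h, Commute T (RR G _ h))
    (h2 : ∀ q, Commute T (ampS G (MM ι A L) (RR _ L q))) (ε : FreeGroup ι × ι)
    (k : AddChar A ℂ → G) : Commute T (XX L ε k) := by
  refine Commute.sum_right _ _ _ fun χ _ => (h1 _).mul_right ?_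
  rw [pv, map_smul, map_sum]
  exact (Commute.sum_right _ _ _ fun x _ => by
    rw [map_smul]; exact (h2 _).smul_right _).smul_right _

/-- The edge of a letter. -/
def ed : ι × Bool → FreeGroup ι × ι
  | (a, true) => (1, a)
  | (a, false) => ((FreeGroup.of a)⁻¹, a)

variable (L) (g : AddChar A ℂ → G)

/-- The twisted representation of the free group. -/
noncomputable def kF : FreeGroup ι →* Bd (H1 G ι A L) :=
  (Units.coeHom _).comp (FreeGroup.lift fun a =>
    ⟨XX L (1, a) g * ampS G (MM ι A L) (sh L (.of a)),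
      XX L ((FreeGroup.of a)⁻¹, a) g⁻¹ * ampS G (MM ι A L) (sh L (FreeGroup.of a)⁻¹), by
        rw [mul_assoc, ← mul_assoc (ampS G (MM ι A L) _), sh_XX, mul_assoc, ← map_mul, ← map_mul]
        simp [XX_mul, XX_one], by
        rw [mul_assoc, ← mul_assoc (ampS G (MM ι A L) _), sh_XX, mul_assoc, ← map_mul, ← map_mul]
        simp [XX_mul, XX_one]⟩)

variable {L} [DecidableEq ι] [Nonempty ι]

theorem kF_lt (x : ι × Bool) : kF L g (PS.lt x) =
    XX L (ed x) (if x.2 then g else g⁻¹) * ampS G (MM ι A L) (sh L (PS.lt x)) := by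
  obtain ⟨i, _ | _⟩ := x
  · change kF L g (FreeGroup.of i)⁻¹ = _
    rw [kF, MonoidHom.comp_apply, map_inv, FreeGroup.lift_apply_of]
    rfl
  · change kF L g (FreeGroup.of i) = _
    rw [kF, MonoidHom.comp_apply, FreeGroup.lift_apply_of]
    rfl

theorem norm_kF (w : FreeGroup ι) : ‖kF L g w‖ ≤ 1 := by
  induction w using PS.F_ind with
  | h1 => rw [map_one]; exact norm_one_le'
  | hs x w _ ih =>
    rw [map_mul, kF_lt]
    exact (norm_mul_le _ _).trans (mul_le_one₀ ((norm_mul_le _ _).trans (mul_le_one₀ (norm_XX _ _)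
      (norm_nonneg _) ((norm_amp _).trans (norm_pm _)))) (norm_nonneg _) ih)

theorem comm_kF {T : Bd (H1 G ι A L)} (h1 : ∀ h, Commute T (RR G _ h))
    (h2 : ∀ q, Commute T (ampS G (MM ι A L) (RR _ L q)))
    (h3 : ∀ w, Commute T (ampS G (MM ι A L) (sh L w))) (w : FreeGroup ι) :
    Commute T (kF L g w) := by
  induction w using PS.F_ind with
  | h1 => rw [map_one]; exact .one_right _
  | hs x w _ ih =>
    rw [map_mul, kF_lt]
    exact ((comm_XX h1 h2 _ _).mul_right (h3 _)).mul_right ih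

theorem kF_LL (w : FreeGroup ι) (p : P0 ι A) : kF L g w * ampS G (MM ι A L) (LL _ L p) =
    ampS G (MM ι A L) (LL _ L (shf A w p)) * kF L g w := by
  induction w using PS.F_ind with
  | h1 => simp [shf_one]
  | hs x w _ ih =>
    rw [map_mul, mul_assoc, ih, kF_lt, ← mul_assoc, mul_assoc (XX _ _ _), ← map_mul, sh_LL, map_mul,
      shf_shf, ← mul_assoc, ← (comm_XX (fun h => (RR_amp h _).symm)
        (fun q => (LL_RR _ q).map _) _ _).eq, mul_assoc, mul_assoc, mul_assoc]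

variable (L) in
/-- The twisted representation. -/
noncomputable def kap : Lam ι A →* Bd (H1 G ι A L) where
  toFun γ := ampS G (MM ι A L) (LL _ L γ.left) * kF L g γ.right
  map_one' := by simp
  map_mul' γ δ := by
    rw [mul_left, mul_right, map_mul, map_mul, map_mul, mul_assoc, mul_assoc,
      ← mul_assoc (kF L g γ.right) (ampS G (MM ι A L) _), kF_LL, mul_assoc]
    rfl

theorem kap_eq (γ : Lam ι A) :
    kap L g γ = ampS G (MM ι A L) (LL _ L γ.left) * kF L g γ.right := rfl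

theorem kap_apply (γ : Lam ι A) (ξ : H1 G ι A L) (h : G) (q : P0 ι A) :
    kap L g γ ξ h q = kF L g γ.right ξ h (γ.left⁻¹ * q) := rfl

theorem norm_kap (γ : Lam ι A) : ‖kap L g γ‖ ≤ 1 := (norm_mul_le _ _).trans
  (mul_le_one₀ ((norm_amp _).trans (norm_LL _)) (norm_nonneg _) (norm_kF g _))

theorem star_kap (γ : Lam ι A) : star (kap L g γ) = kap L g γ⁻¹ := star_rep (kap L g) (norm_kap g) γ

theorem LL_kap (h : G) (γ : Lam ι A) : Commute (LL G _ h) (kap L g γ) :=
  (LL_amp _ _).mul_right (comm_kF g (LL_RR h) (fun _ => LL_amp _ _) (fun _ => LL_amp _ _) _)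

theorem amp_kap (a : Bd L) (γ : Lam ι A) :
    Commute (ampS G (MM ι A L) (ampS _ L a)) (kap L g γ) :=
  ((LL_amp _ a).symm.map _).mul_right (comm_kF g (fun _ => (RR_amp _ _).symm)
    (fun _ => (RR_amp _ a).symm.map _) (fun _ => (sh_amp _ a).symm.map _) _)

/-- The edges on the geodesic. -/
def geo (w : FreeGroup ι) : Set (FreeGroup ι × ι) :=
  {ε | ∀ y, y = ε.1 ∨ y = ε.1 * .of ε.2 → y.norm + (y⁻¹ * w).norm ≤ w.norm}

theorem ed_iff (x : ι × Bool) (y : FreeGroup ι) :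
    y = (ed x).1 ∨ y = (ed x).1 * .of (ed x).2 ↔ y = 1 ∨ y = PS.lt x := by
  obtain ⟨a, _ | _⟩ := x
  · rw [or_comm, ed, inv_mul_cancel]; rfl
  · rw [ed, one_mul]; rfl

theorem ret {ρ : ℝ} (hρ : ‖∑ χ, lam G (g χ)‖ ≤ ρ * Fintype.card A) (k : G) (v : L)
    (w : FreeGroup ι) : (∀ h, kF L g w (sng k (sng 1 v)) h ∈ Sm (geo w)) ∧ ∃ n : L2 G,
      (∀ h, n h = (‖kF L g w (sng k (sng (1 : P0 ι A) v)) h⁻¹‖ ^ 2 : ℝ)) ∧
      ‖n‖ ≤ ρ ^ w.norm * ‖v‖ ^ 2 := by
  classical
  induction w using PS.F_ind with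
  | h1 =>
    rw [map_one, one_apply_eq_self]
    refine ⟨fun h q ε _ e => ?_, sng k⁻¹ (‖v‖ ^ 2 : ℝ), fun h => ?_, by simp⟩
    · have : q ≠ 1 := by rintro rfl; simp at e
      rw [sng_apply]
      split_ifs
      · exact sng_ne this _
      · rfl
    · simp only [sng_apply, inv_eq_iff_eq_inv]
      split_ifs <;> simp
  | hs x w e ih =>
    obtain ⟨h1, n, h2, h3⟩ := ih
    rw [map_mul, kF_lt, mul_apply_eq_comp, mul_apply_eq_comp]
    generalize kF L g w _ = η at *
    have h4 : ∀ h, sh L (PS.lt x) (η h) ∈ Sm {ε | ((PS.lt x)⁻¹ * ε.1, ε.2) ∈ geo w} :=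
      fun h q ε e1 e2 => h1 h (shf A (PS.lt x)⁻¹ q) _ e1 (by simpa [ab_shf] using e2)
    have h5 : ed x ∉ {ε | ((PS.lt x)⁻¹ * ε.1, ε.2) ∈ geo w} := fun h => by
      have := h (PS.lt x)⁻¹ (by simpa [mul_assoc, eq_comm] using (ed_iff x 1).2 (.inl rfl))
      rw [inv_inv] at this
      omega
    have h6 : ed x ∈ geo (PS.lt x * w) := fun y hy => by
      rcases (ed_iff x y).1 hy with rfl | rfl
      · simp
      · rw [inv_mul_cancel_left, PS.norm_lt]; omega
    refine ⟨fun h => ?_, ((Fintype.card A : ℝ)⁻¹ : ℂ) •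
      (∑ χ, lam G ((if x.2 then g else g⁻¹) χ)) n, fun h => ?_, ?_⟩
    · rw [XX_apply]
      refine sum_mem fun χ _ => pv_mem h6 (fun q ε e1 => h4 _ q ε fun e2 => e1 fun y hy => ?_) χ
      have h7 := e2 ((PS.lt x)⁻¹ * y) (by simpa [mul_assoc] using hy)
      have h8 := FreeGroup.norm_mul_le (PS.lt x) ((PS.lt x)⁻¹ * y)
      rw [mul_inv_cancel_left, PS.norm_lt] at h8
      rw [mul_inv_rev, inv_inv, mul_assoc] at h7
      omega
    · rw [XX_apply, pyth (star_pv (star_rt _)) (isPV (star_rt _)).orth]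
      simp only [ampS_apply, norm_pv (star_rt _) (inner_rt h5 (h4 _)), lp.coeFn_smul, Pi.smul_apply,
        _root_.sum_apply, lp.coeFn_sum, Finset.sum_apply, lam_apply, h2, mul_inv_rev, inv_inv,
        norm_rep (sh L) fun _ => norm_pm _]
      push_cast
      rw [smul_eq_mul, mul_sum]
    · have h7 : ‖∑ χ, lam G ((if x.2 then g else g⁻¹) χ)‖ ≤ ρ * Fintype.card A := by
        split_ifs
        · exact hρ
        · rw [← norm_star, star_sum]
          simpa [star_lam] using hρ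
      have h8 : 0 ≤ ρ := nonneg_of_mul_nonneg_left ((norm_nonneg _).trans hρ) card_pos'
      rw [norm_smul, norm_inv, Complex.norm_real, Real.norm_natCast, inv_mul_le_iff₀ card_pos', e]
      refine (ContinuousLinearMap.le_of_opNorm_le _ h7 _).trans
        ((mul_le_mul_of_nonneg_left h3 (by positivity)).trans_eq (by ring))

theorem summable_norm [Fintype ι] {ρ : ℝ} (h0 : 0 ≤ ρ) (h : 2 * Fintype.card ι * ρ < 1) :
    Summable fun w : FreeGroup ι => ρ ^ w.norm := by
  have h1 : Summable fun l : List (ι × Bool) => ρ ^ l.length := by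
    rw [← (Equiv.sigmaFiberEquiv List.length).summable_iff]
    let _ : ∀ n, Fintype {l : List (ι × Bool) // l.length = n} := fun n =>
      inferInstanceAs (Fintype (List.Vector _ n))
    refine (summable_sigma_of_nonneg fun _ => pow_nonneg h0 _).2 ⟨fun n => .of_finite, ?_⟩
    refine (summable_geometric_of_lt_one (by positivity) h).congr fun n => ?_
    have h2 : Fintype.card {l : List (ι × Bool) // l.length = n} = (Fintype.card ι * 2) ^ n := by
      rw [← Fintype.card_bool, ← Fintype.card_prod]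
      exact card_vector n
    rw [tsum_fintype, sum_congr rfl (g := fun _ => ρ ^ n) fun l _ => congrArg (ρ ^ ·) l.2,
      sum_const, card_univ, h2, nsmul_eq_mul]
    push_cast
    ring
  exact h1.comp_injective FreeGroup.toWord_injective

theorem exists_ev (G P L : Type) [Countable G] [Group P] [NormedAddCommGroup L]
    [InnerProductSpace ℂ L] : ∃ (Ev : El G (El P L) →L[ℂ] El G L) (C : ℝ), 0 ≤ C ∧
      (∀ ξ k, Ev ξ k = 0 → ξ k 1 = 0) ∧
      (∀ (a : Bd L) ξ, Ev (amp G (amp P a) ξ) = amp G a (Ev ξ)) ∧ ∀ (η : El G (El P L)) (B : ℝ),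
        (∀ h, ‖η h‖ ^ 2 ≤ B) → (Summable fun p => ‖Ev (amp G (LL P L p) η)‖ ^ 2) ∧
          ∑' p, ‖Ev (amp G (LL P L p) η)‖ ^ 2 ≤ C * B := by
  obtain ⟨c, c0, C, hc, c1⟩ := NNReal.exists_pos_sum_of_countable one_ne_zero G
  have c2 : ∀ k, (c k : ℝ) ≤ 1 := fun k => (le_hasSum hc k fun _ _ => zero_le).trans c1.le
  have c3 : Summable fun k => (c k : ℝ) ^ 2 := .of_nonneg_of_le (fun _ => sq_nonneg _)
    (fun k => by nlinarith [c2 k, (c k).2]) (NNReal.summable_coe.2 hc.summable)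
  obtain ⟨Ev, hEv⟩ : ∃ Ev : El G (El P L) →L[ℂ] El G L, ∀ ξ k, Ev ξ k = ((c k : ℝ) : ℂ) • ξ k 1 :=
    ⟨wop Function.injective_id (fun k => ((c k : ℝ) : ℂ) • evl 1) zero_le_one fun k =>
      ContinuousLinearMap.opNorm_le_bound _ zero_le_one fun v => by
        rw [smul_apply, norm_smul]
        exact mul_le_mul (by simpa using c2 k) (norm_ev_le v 1) (norm_nonneg _) zero_le_one,
      fun _ _ => rfl⟩
  refine ⟨Ev, ∑' h, (c h : ℝ) ^ 2, tsum_nonneg fun _ => sq_nonneg _, fun ξ k h => by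
    simpa [hEv, (c0 k).ne'] using h, fun a ξ => lp.ext (funext fun k => by simp [hEv]),
    fun η B hB => ?_⟩
  have h4 : ∀ h, HasSum (fun p : P => (c h : ℝ) ^ 2 * ‖η h p⁻¹‖ ^ 2)
      ((c h : ℝ) ^ 2 * ‖η h‖ ^ 2) := fun h =>
    ((Equiv.inv _).hasSum_iff.2 (hasSum_sq (η h))).mul_left _
  have h3 : ∀ h, (c h : ℝ) ^ 2 * ‖η h‖ ^ 2 ≤ (c h : ℝ) ^ 2 * B := fun h =>
    mul_le_mul_of_nonneg_left (hB h) (sq_nonneg _)
  have h6 := Summable.of_nonneg_of_le (fun _ => by positivity) h3 (c3.mul_right _)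
  have h5 : Summable fun x : G × P => (c x.1 : ℝ) ^ 2 * ‖η x.1 x.2⁻¹‖ ^ 2 :=
    (summable_prod_of_nonneg fun _ => by positivity).2 ⟨fun h => (h4 h).summable, by
      simpa only [fun h => (h4 h).tsum_eq] using h6⟩
  have h7 := ((Equiv.prodComm _ _).hasSum_iff.2 h5.hasSum).prod_fiberwise
    (g := fun p => ‖Ev (amp G (LL P L p) η)‖ ^ 2) fun p => by
      convert hasSum_sq (Ev (amp G (LL P L p) η)) using 2
      simp [hEv, norm_smul, mul_pow]
  refine ⟨h7.summable, ?_⟩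
  rw [h7.tsum_eq, ← (h5.hasSum.prod_fiberwise h4).tsum_eq, ← tsum_mul_right]
  exact Summable.tsum_le_tsum h3 h6 (c3.mul_right _)

theorem kap_inl (q : P0 ι A) : kap L g (inl q) = ampS G (MM ι A L) (LL _ L q) := by
  rw [kap_eq, right_inl, map_one, mul_one, left_inl]

theorem exists_xi [Fintype ι] [Countable G] {ρ : ℝ} (hρ : ‖∑ χ, lam G (g χ)‖ ≤ ρ * Fintype.card A)
    (h : 2 * Fintype.card ι * ρ < 1) : ∃ Ξ : H1 G ι A L →L[ℂ] El (Lam ι A) (El G L),
      (∀ ξ, ‖Ξ ξ‖ = ‖ξ‖) ∧ (∀ γ, Ξ ∘L kap L g γ = LL _ _ γ ∘L Ξ) ∧ ∀ a : Bd L,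
        Ξ ∘L ampS G (MM ι A L) (ampS _ L a) = ampS _ (El G L) (ampS G L a) ∘L Ξ := by
  obtain ⟨Ev, C, e0, e1, e2, e3⟩ := exists_ev G (P0 ι A) L
  have h0 : 0 ≤ ρ := nonneg_of_mul_nonneg_left ((norm_nonneg _).trans hρ) card_pos'
  have h1 : ∀ k v, Summable fun γ => ‖Ev (kap L g γ⁻¹ (sng k (sng 1 v)))‖ ^ 2 := fun k v => by
    have h2 := fun w => e3 (kF L g w (sng k (sng 1 v))) (ρ ^ w.norm * ‖v‖ ^ 2) fun h => by
      obtain ⟨-, n, n1, n2⟩ := ret g hρ k v w
      exact le_trans (by simp [n1]) ((norm_ev_le n h⁻¹).trans n2)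
    have h3 : Summable fun x : FreeGroup ι × P0 ι A =>
        ‖Ev (amp G (LL _ L x.2) (kF L g x.1 (sng k (sng 1 v))))‖ ^ 2 :=
      (summable_prod_of_nonneg fun _ => sq_nonneg _).2 ⟨fun w => (h2 w).1, .of_nonneg_of_le
        (fun w => tsum_nonneg fun _ => sq_nonneg _) (fun w => (h2 w).2)
          (((summable_norm h0 h).mul_right (‖v‖ ^ 2)).mul_left C)⟩
    exact h3.comp_injective (i := fun γ : Lam ι A => (γ⁻¹.right, γ⁻¹.left)) fun γ δ e =>
      inv_injective (SemidirectProduct.ext (congrArg Prod.snd e) (congrArg Prod.fst e))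
  let R : Submodule ℂ (H1 G ι A L × El (Lam ι A) (El G L)) :=
    { carrier := {x | ∀ γ, x.2 γ = Ev (kap L g γ⁻¹ x.1)}
      add_mem' := fun h1 h2 γ => by simp [h1 γ, h2 γ]
      zero_mem' := fun γ => by simp
      smul_mem' := fun c _ h γ => by simp [h γ] }
  have hR : ∀ x, x ∈ R ↔ ∀ γ, x.2 γ = Ev (kap L g γ⁻¹ x.1) := fun _ => Iff.rfl
  have hc : IsClosed (R : Set (H1 G ι A L × El (Lam ι A) (El G L))) := by
    have : (R : Set (H1 G ι A L × El (Lam ι A) (El G L))) = ⋂ γ, {x | evl γ x.2 = Ev (kap L g γ⁻¹ x.1)} :=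
      Set.ext fun x => by rw [Set.mem_iInter]; exact hR x
    rw [this]
    exact isClosed_iInter fun γ => isClosed_eq ((evl γ).continuous.comp continuous_snd)
      (Ev.continuous.comp ((kap L g γ⁻¹).continuous.comp continuous_fst))
  clear_value R
  have h2 : ∀ γ, ∀ x ∈ R, (kap L g γ x.1, LL _ _ γ x.2) ∈ R := fun γ x hx =>
    (hR _).2 fun β => by
      rw [LL_apply, (hR _).1 hx, ← mul_apply_eq_comp, ← map_mul, mul_inv_rev, inv_inv]
  have h3 : ∀ a : Bd L, ∀ x ∈ R, (ampS G (MM ι A L) (ampS _ L a) x.1,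
      ampS _ (El G L) (ampS G L a) x.2) ∈ R := fun a x hx => (hR _).2 fun β => by
    rw [ampS_apply, (hR _).1 hx, ← mul_apply_eq_comp, ← (amp_kap g a _).eq, mul_apply_eq_comp]
    exact (e2 a _).symm
  obtain ⟨Ξ, x1, x2⟩ := graph_trick R hc
    (fun ξ hξ => lp.ext (funext fun k => lp.ext (funext fun q => by
      have := (hR _).1 hξ (inl q)
      rw [← map_inv, kap_inl] at this
      simpa using e1 _ k (congrArg (fun η : El G L => η k) this.symm))))
    (fun ξ hξ => lp.ext (funext fun k => lp.ext (funext fun q => ext_inner_right ℂ fun v => by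
      have := hξ _ (h2 (inl q) (sng k (sng 1 v), ⟨_, mem_of_sq (h1 k v)⟩) ((hR _).2 fun _ => rfl))
      have h4 : kap L g (inl q) (sng k (sng 1 v)) = sng k (sng q v) := by
        rw [kap_inl]
        exact (amp_sng _ _ _).trans (by rw [LL_sng, mul_one])
      simpa [h4, inner_sng_right] using this)))
  exact ⟨Ξ, x1, fun γ => x2 _ _ (h2 γ) (by rw [star_kap, star_LL]; exact h2 _), fun a =>
    x2 _ _ (h3 a) (by simp only [← map_star]; exact h3 _)⟩

end Pool.Agent.MP_56ff7a_an.H29
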