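import Pool.Agent.MP_56ff7a_an.H29.Fin

/-!
Kesten's theorem, projection valued measures from finite abelian groups, ping-pong.
-/

namespace Pool.Agent.MP_56ff7a_an.H29

open Finset Filter Topology H20
open scoped InnerProductSpace

section Prj

variable {Z : Type} (K : Type) [NormedAddCommGroup K] [InnerProductSpace ℂ K]

open Classical in
/-- Coordinate projections. -/
noncomputable def prj (A : Set Z) : Bd (El Z K) :=
  wop Function.injective_id (fun z => if z ∈ A then 1 else 0) zero_le_one fun z => by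
    split_ifs
    · exact ContinuousLinearMap.norm_id_le
    · simp

variable {K}

open Classical in
theorem prj_apply (A : Set Z) (ξ : El Z K) (z : Z) :
    prj K A ξ z = if z ∈ A then ξ z else 0 := by
  rw [prj, wop_apply]
  split_ifs <;> rfl

theorem norm_prj (A : Set Z) : ‖prj K A‖ ≤ 1 := norm_wop _ _ _ _

theorem prj_union {A B : Set Z} (h : Disjoint A B) (ξ : El Z K) :
    ‖prj K (A ∪ B) ξ‖ ^ 2 = ‖prj K A ξ‖ ^ 2 + ‖prj K B ξ‖ ^ 2 := by
  refine (hasSum_sq _).unique ?_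
  convert (hasSum_sq (prj K A ξ)).add (hasSum_sq (prj K B ξ)) using 2 with z
  have : z ∈ A → z ∉ B := fun h' => Set.disjoint_left.1 h h'
  by_cases h1 : z ∈ A <;> by_cases h2 : z ∈ B <;> simp_all [prj_apply]

theorem star_prj [CompleteSpace K] (A : Set Z) : star (prj K A) = prj K A := by
  refine ((ContinuousLinearMap.eq_adjoint_iff _ _).2 fun ξ η => ?_).symm
  simp only [lp.inner_eq_tsum, prj_apply]
  exact tsum_congr fun z => by split_ifs <;> simp

end Prj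

variable {G : Type} [Group G]

theorem exists_inv (S : Finset G) (h : (S.card + 1 : ℝ) ≤ ‖1 + ∑ s ∈ S, lam G s‖) {ε : ℝ}
    (hε : 0 < ε) (hε' : ε ≤ 1) : ∃ ξ : L2 G, ‖ξ‖ = 1 ∧ ∀ s ∈ S, ‖lam G s ξ - ξ‖ ≤ 4 * ε := by
  classical
  obtain ⟨ξ, h1, h2⟩ := (1 + ∑ s ∈ S, lam G s).exists_lt_apply_of_lt_opNorm
    (r := S.card + 1 - ε ^ 2 / 2) (by linarith [sq_pos_of_pos hε])
  have h3 : ∀ T : Finset G, ‖(∑ s ∈ T, lam G s) ξ‖ ≤ T.card := fun T => by
    rw [_root_.sum_apply, ← mul_one (T.card : ℝ), ← nsmul_eq_mul]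
    exact (norm_sum_le _ _).trans (sum_le_card_nsmul _ _ _ fun s _ => (norm_lam s ξ).trans_le h1.le)
  have h4 : 1 / 2 ≤ ‖ξ‖ := by
    have := norm_add_le ξ ((∑ s ∈ S, lam G s) ξ)
    rw [add_apply, one_apply_eq_self] at h2
    nlinarith [h3 S]
  refine ⟨((‖ξ‖⁻¹ : ℝ) : ℂ) • ξ, by
    rw [norm_smul, Complex.norm_real, Real.norm_of_nonneg (by positivity),
      inv_mul_cancel₀ (by linarith)], fun s hs => ?_⟩
  rw [map_smul, ← smul_sub, norm_smul, Complex.norm_real, Real.norm_of_nonneg (by positivity),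
    inv_mul_le_iff₀ (by linarith)]
  refine le_trans (le_of_sq_le (b := 2 * ε) (by positivity) ?_) (by nlinarith)
  have h5 := parallelogram_law_with_norm ℂ (lam G s ξ) ξ
  have h6 := h3 (S.erase s)
  have h7 := norm_add_le (lam G s ξ + ξ) ((∑ s ∈ S.erase s, lam G s) ξ)
  rw [← add_sum_erase _ (fun s => lam G s) hs, ← add_assoc, add_comm 1, add_apply, add_apply,
    one_apply_eq_self, ← card_erase_add_one hs, Nat.cast_succ] at h2
  rw [norm_lam] at h5
  have h8 : 2 - ε ^ 2 / 2 ≤ ‖lam G s ξ + ξ‖ := by linarith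
  have h9 := mul_self_le_mul_self (by nlinarith) h8
  nlinarith [norm_nonneg ξ, sq_nonneg (ε ^ 2)]

theorem kesten [Countable G] (h : ¬IsAmenable G) :
    ∃ S : Finset G, ‖1 + ∑ s ∈ S, lam G s‖ < S.card + 1 := by
  by_contra hn
  push Not at hn
  obtain ⟨E, hE⟩ := exists_seq_tendsto (atTop : Filter (Finset G))
  choose ξ h1 h2 using fun n : ℕ => exists_inv (E n) (hn _) (Nat.one_div_pos_of_nat (n := n))
    (by rw [div_le_one (by positivity)]; simp)
  let U : Ultrafilter ℕ := Ultrafilter.of atTop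
  have h3 : ∀ A : Set G, ∃ r, Tendsto (fun n => ‖prj ℂ A (ξ n)‖) U (𝓝 r) := fun A => by
    obtain ⟨r, -, hr⟩ := (isCompact_Icc (a := (0 : ℝ)) (b := 1)).ultrafilter_le_nhds'
      (U.map fun n => ‖prj ℂ A (ξ n)‖) (mem_map.2 (univ_mem' fun n => ⟨norm_nonneg _, by
        simpa [h1] using (prj ℂ A).le_of_opNorm_le (norm_prj A) (ξ n)⟩))
    exact ⟨r, hr⟩
  choose r hr using h3
  refine h ⟨fun A => ENNReal.ofReal (r A ^ 2), ?_, fun A B hAB => ?_, fun g A => ?_⟩
  · have h4 : ∀ n, ‖prj ℂ Set.univ (ξ n)‖ = 1 := fun n =>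
      (norm_eq_of (Equiv.refl G) _ _ fun z => by simp [prj_apply]).trans (h1 n)
    have := hr Set.univ
    simp only [h4] at this
    simp [tendsto_nhds_unique this tendsto_const_nhds]
  · rw [← ENNReal.ofReal_add (sq_nonneg _) (sq_nonneg _)]
    refine congrArg ENNReal.ofReal ?_
    exact tendsto_nhds_unique ((hr _).pow 2) ((((hr A).pow 2).add ((hr B).pow 2)).congr
      fun n => (prj_union hAB _).symm)
  · refine congrArg (fun x : ℝ => ENNReal.ofReal (x ^ 2)) ?_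
    refine sub_eq_zero.1 (tendsto_nhds_unique ((hr _).sub (hr A)) (squeeze_zero_norm' ?_
      ((by simpa using tendsto_one_div_add_atTop_nhds_zero_nat.const_mul (4 : ℝ) : Tendsto
        (fun n : ℕ => 4 * (1 / ((n : ℝ) + 1))) atTop (𝓝 0)).mono_left (Ultrafilter.of_le _))))
    filter_upwards [Ultrafilter.of_le _ (hE.eventually (eventually_ge_atTop {g}))] with n hn
    have h4 : ‖prj ℂ ((fun x => g * x) '' A) (lam G g (ξ n))‖ = ‖prj ℂ A (ξ n)‖ :=
      norm_eq_of (Equiv.mulLeft g⁻¹) _ _ fun z => by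
        classical
        simp [prj_apply, lam_apply]
    rw [← h4]
    refine (abs_norm_sub_norm_le _ _).trans ?_
    rw [← map_sub]
    refine ((prj ℂ _).le_of_opNorm_le (norm_prj _) _).trans ?_
    rw [one_mul, norm_sub_rev]
    exact h2 n g (singleton_subset_iff.1 hn)

theorem exists_small [Countable G] (h : ¬IsAmenable G) {ε : ℝ} (hε : 0 < ε) :
    ∃ (I : Type) (_ : Fintype I) (_ : Nonempty I) (g : I → G),
      ‖∑ i, lam G (g i)‖ ≤ ε * Fintype.card I := by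
  obtain ⟨S, hS⟩ := kesten h
  have h0 : (0 : ℝ) < S.card + 1 := by positivity
  have h1 : ∀ n : ℕ, ∃ (I : Type) (_ : Fintype I) (_ : Nonempty I) (g : I → G),
      ‖∑ i, lam G (g i)‖ ≤ (‖1 + ∑ s ∈ S, lam G s‖ / (S.card + 1)) ^ n * Fintype.card I := by
    intro n
    induction n with
    | zero => exact ⟨Unit, inferInstance, inferInstance, fun _ => 1, by simp⟩
    | succ n ih =>
      obtain ⟨I, _, _, g, hg⟩ := ih
      refine ⟨I × Option S, inferInstance, inferInstance, fun p => g p.1 * p.2.elim 1 (↑), ?_⟩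
      simp only [map_mul, Fintype.sum_prod_type, ← mul_sum, ← sum_mul, Fintype.sum_option,
        Option.elim, map_one, Fintype.card_prod, Fintype.card_option, Fintype.card_coe,
        sum_coe_sort S (lam G)]
      refine (norm_mul_le _ _).trans ((mul_le_mul_of_nonneg_right hg (norm_nonneg _)).trans_eq ?_)
      push_cast
      rw [pow_succ, mul_mul_mul_comm, div_mul_cancel₀ _ h0.ne']
  obtain ⟨n, hn⟩ := exists_pow_lt_of_lt_one hε ((div_lt_one h0).2 hS)
  obtain ⟨I, _, _, g, hg⟩ := h1 n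
  exact ⟨I, inferInstance, inferInstance, g,
    hg.trans (mul_le_mul_of_nonneg_right hn.le (Nat.cast_nonneg _))⟩

section PV

variable {A R R' : Type} [AddCommGroup A] [Fintype A] [Ring R] [Algebra ℂ R] [Ring R']
  [Algebra ℂ R']

/-- The spectral projections of a representation of a finite abelian group. -/
noncomputable def pv (τ : Multiplicative A →* R) (χ : AddChar A ℂ) : R :=
  (Fintype.card A : ℂ)⁻¹ • ∑ x : A, χ x • τ (.ofAdd x)

theorem card_ne : (Fintype.card A : ℂ) ≠ 0 := Nat.cast_ne_zero.2 Fintype.card_ne_zero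

theorem map_pv {F : Type} [FunLike F R R'] [LinearMapClass F ℂ R R'] (f : F)
    {τ : Multiplicative A →* R} {τ' : Multiplicative A →* R'} (h : ∀ x, f (τ x) = τ' x)
    (χ : AddChar A ℂ) : f (pv τ χ) = pv τ' χ := by
  simp only [pv, map_smul, map_sum, h]

open Classical in
theorem pv_mul (τ : Multiplicative A →* R) (χ ψ : AddChar A ℂ) :
    pv τ χ * pv τ ψ = if χ = ψ then pv τ χ else 0 := by
  have h1 : ∀ x : A, χ x • τ (.ofAdd x) * ∑ y : A, ψ y • τ (.ofAdd y) =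
      (χ - ψ) x • ∑ y : A, ψ y • τ (.ofAdd y) := fun x => by
    rw [mul_sum, ← Equiv.sum_comp (Equiv.addLeft (-x)), smul_sum]
    refine sum_congr rfl fun y _ => ?_
    rw [smul_mul_smul_comm, ← map_mul, ← ofAdd_add, smul_smul, Equiv.coe_addLeft,
      add_neg_cancel_left, AddChar.map_add_eq_mul, AddChar.sub_apply, mul_assoc]
  rw [pv, pv, smul_mul_smul_comm, sum_mul]
  simp only [h1, ← sum_smul, AddChar.sum_eq_ite, sub_eq_zero]
  split_ifs with h
  · rw [smul_smul, inv_mul_cancel_right₀ card_ne, h]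
  · simp

theorem sum_pv (τ : Multiplicative A →* R) (f : AddChar A ℂ → ℂ) : ∑ χ, f χ • pv τ χ =
    ∑ x : A, ((Fintype.card A : ℂ)⁻¹ * ∑ χ, f χ * χ x) • τ (.ofAdd x) := by
  simp only [pv, smul_sum, smul_smul, mul_sum, sum_smul]
  rw [sum_comm]
  exact sum_congr rfl fun x _ => sum_congr rfl fun χ _ => by rw [mul_left_comm]

theorem pv_sum (τ : Multiplicative A →* R) : ∑ χ, pv τ χ = 1 := by
  classical
  simpa [AddChar.sum_apply_eq_ite, card_ne] using sum_pv τ fun _ => 1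

variable {M I : Type} [NormedAddCommGroup M] [InnerProductSpace ℂ M] [CompleteSpace M]
  [Fintype I]

theorem star_pv {τ : Multiplicative A →* Bd M} (h : ∀ x, star (τ x) = τ x⁻¹) (χ : AddChar A ℂ) :
    star (pv τ χ) = pv τ χ := by
  rw [pv, star_smul, star_sum, ← Equiv.sum_comp (Equiv.neg A)]
  simp [h, ← AddChar.map_neg_eq_conj]

theorem inner_sa {E : Bd M} (h : star E = E) (v w : M) : ⟪E v, w⟫_ℂ = ⟪v, E w⟫_ℂ := by
  rw [← ContinuousLinearMap.adjoint_inner_right, ← ContinuousLinearMap.star_eq_adjoint, h]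

theorem re_self (v : M) : (⟪v, v⟫_ℂ).re = ‖v‖ ^ 2 := inner_self_eq_norm_sq (𝕜 := ℂ) v

theorem re_le (v w : M) : (⟪v, w⟫_ℂ).re ≤ ‖v‖ * ‖w‖ := re_inner_le_norm (𝕜 := ℂ) v w

theorem pyth {E : I → Bd M} (hs : ∀ j, star (E j) = E j) (ho : ∀ j k, j ≠ k → E j * E k = 0)
    (v : I → M) : ‖∑ j, E j (v j)‖ ^ 2 = ∑ j, ‖E j (v j)‖ ^ 2 := by
  rw [← re_self, sum_inner, Complex.re_sum]
  refine sum_congr rfl fun j _ => ?_
  rw [inner_sum, sum_eq_single j (fun k _ hk => ?_) (by simp), re_self]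
  rw [inner_sa (hs j), ← mul_apply_eq_comp, ho j k hk.symm, zero_apply, inner_zero_right]

/-- Projection valued measures. -/
structure IsPV (E : I → Bd M) : Prop where
  sa : ∀ j, star (E j) = E j
  orth : ∀ j k, j ≠ k → E j * E k = 0
  idem : ∀ j, E j * E j = E j
  sum : ∑ j, E j = 1

theorem isPV {τ : Multiplicative A →* Bd M} (h : ∀ x, star (τ x) = τ x⁻¹) : IsPV (pv τ) :=
  ⟨star_pv h, fun j k h => by rw [pv_mul, if_neg h], fun j => by rw [pv_mul, if_pos rfl], pv_sum τ⟩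

theorem IsPV.norm_sq {E : I → Bd M} (h : IsPV E) (v : M) : ∑ j, ‖E j v‖ ^ 2 = ‖v‖ ^ 2 := by
  rw [← pyth h.sa h.orth, ← _root_.sum_apply, h.sum, one_apply_eq_self]

theorem IsPV.re {E : I → Bd M} (h : IsPV E) (j : I) (v : M) :
    (⟪v, E j v⟫_ℂ).re = ‖E j v‖ ^ 2 := by
  rw [← re_self, inner_sa (h.sa j), ← mul_apply_eq_comp, h.idem]

theorem IsPV.norm_le {E : I → Bd M} (h : IsPV E) {f : I → ℂ} {C : ℝ} (hC : 0 ≤ C)
    (hf : ∀ j, ‖f j‖ ≤ C) : ‖∑ j, f j • E j‖ ≤ C := by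
  refine ContinuousLinearMap.opNorm_le_bound _ hC fun v => le_of_sq_le (by positivity) ?_
  simp only [_root_.sum_apply, smul_apply, ← map_smul]
  rw [pyth h.sa h.orth, mul_pow, ← h.norm_sq, mul_sum]
  refine sum_le_sum fun j _ => ?_
  rw [map_smul, norm_smul, mul_pow]
  gcongr
  exact hf j

theorem IsPV.amp {E : I → Bd M} (h : IsPV E) (Z : Type) : IsPV fun j => ampS Z M (E j) :=
  ⟨fun j => by rw [← map_star, h.sa], fun j k e => by rw [← map_mul, h.orth j k e, map_zero],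
    fun j => by rw [← map_mul, h.idem], by rw [← map_sum, h.sum, map_one]⟩

theorem norm_pv {τ : Multiplicative A →* Bd M} (h : ∀ x, star (τ x) = τ x⁻¹) {v : M}
    (hv : ∀ x ≠ 1, ⟪v, τ x v⟫_ℂ = 0) (χ : AddChar A ℂ) :
    ‖pv τ χ v‖ ^ 2 = (Fintype.card A : ℝ)⁻¹ * ‖v‖ ^ 2 := by
  rw [← (isPV h).re, pv, smul_apply, _root_.sum_apply, inner_smul_right, inner_sum,
    sum_eq_single 0 (fun x _ hx => by rw [smul_apply, inner_smul_right, hv (.ofAdd x) hx, mul_zero])
      (by simp), ← re_self]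
  simp [← Complex.ofReal_natCast, ← Complex.ofReal_inv]

theorem pow_ineq {Y : Bd M} (hY : star Y = Y) (v : M) (N : ℕ) :
    0 ≤ (⟪v, (Y ^ 2 ^ (N + 1)) v⟫_ℂ).re ∧
      (⟪v, Y v⟫_ℂ).re ≤ ‖v‖ ^ 2 + (⟪v, (Y ^ 2 ^ (N + 1)) v⟫_ℂ).re := by
  have h1 : ∀ k, (⟪v, (Y ^ 2 ^ (k + 1)) v⟫_ℂ).re = ‖(Y ^ 2 ^ k) v‖ ^ 2 := fun k => by
    rw [← re_self, inner_sa (by rw [star_pow, hY]), ← mul_apply_eq_comp, ← pow_add, pow_succ,
      mul_two]
  have h2 : ∀ k, (⟪v, Y v⟫_ℂ).re ≤ ‖v‖ ^ 2 ∨ (⟪v, Y v⟫_ℂ).re ≤ (⟪v, (Y ^ 2 ^ k) v⟫_ℂ).re := by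
    intro k
    induction k with
    | zero => simp
    | succ k ih =>
      rw [h1]
      have := re_le v ((Y ^ 2 ^ k) v)
      rcases le_total (⟪v, Y v⟫_ℂ).re (‖v‖ ^ 2) with h | h
      · exact .inl h
      · rcases ih with ih | ih
        · exact .inl ih
        · exact .inr (by nlinarith [sq_nonneg (‖v‖ - ‖(Y ^ 2 ^ k) v‖)])
  have h3 := h2 (N + 1)
  rw [h1] at h3 ⊢
  exact ⟨sq_nonneg _, by rcases h3 with h | h <;> nlinarith [sq_nonneg ‖v‖]⟩

theorem norm_orth {P y : I → Bd M} (hs : ∀ j, star (P j) = P j) (hP : ∀ j, ‖P j‖ ≤ 1)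
    (ho : ∀ j k, j ≠ k → P j * P k = 0) {C : ℝ} (hC : 0 ≤ C) (hy : ∀ j, ‖y j‖ ≤ C) :
    ‖∑ j, P j * y j‖ ≤ √(Fintype.card I) * C := by
  refine ContinuousLinearMap.opNorm_le_bound _ (by positivity) fun v =>
    le_of_sq_le (by positivity) ?_
  simp only [_root_.sum_apply, mul_apply_eq_comp]
  rw [pyth hs ho, mul_assoc, mul_pow, Real.sq_sqrt (Nat.cast_nonneg _), ← card_univ,
    ← nsmul_eq_mul]
  refine sum_le_card_nsmul _ _ _ fun j _ => pow_le_pow_left₀ (norm_nonneg _) ?_ 2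
  exact (((P j).le_of_opNorm_le (hP j) _).trans_eq (one_mul _)).trans
    ((y j).le_of_opNorm_le (hy j) v)

theorem ping_pong {P Q x : I → Bd M} (hs : ∀ j, star (P j) = P j) (hP : ∀ j, ‖P j‖ ≤ 1)
    (ho : ∀ j k, j ≠ k → P j * P k = 0) (hQ : ∀ j, ‖Q j‖ ≤ 1) (h1 : ∀ j, P j + Q j = 1)
    (hx : ∀ j, Q j * x j * Q j = 0) {C : ℝ} (hC : 0 ≤ C) (hy : ∀ j, ‖x j‖ ≤ C) :
    ‖∑ j, x j‖ ≤ 2 * √(Fintype.card I) * C := by
  have h2 : ∑ j, x j = ∑ j, P j * x j + star (∑ j, P j * star (Q j * x j)) := by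
    rw [star_sum, ← sum_add_distrib]
    refine sum_congr rfl fun j _ => ?_
    rw [star_mul, star_star, hs, ← add_zero (Q j * x j * P j), ← hx j, ← mul_add, h1, mul_one,
      ← add_mul, h1, one_mul]
  have h3 := norm_orth hs hP ho hC (y := fun j => star (Q j * x j)) fun j => by
    rw [norm_star]
    exact (norm_mul_le _ _).trans ((mul_le_of_le_one_left (norm_nonneg _) (hQ j)).trans (hy j))
  rw [h2]
  refine (norm_add_le _ _).trans ?_
  rw [norm_star]
  linarith [norm_orth hs hP ho hC hy]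

end PV

end Pool.Agent.MP_56ff7a_an.H29
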