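import Pool.Agent.MP_56ff7a_an.H29.Kes

/-!
The uncertainty relation and the key inequality.
-/

namespace Pool.Agent.MP_56ff7a_an.H29

open Finset Filter Topology H20
open scoped InnerProductSpace

variable {A Λ ι : Type} [AddCommGroup A] [Fintype A] [Group Λ] [Fintype ι]

/-- The spectral projections in the group algebra. -/
noncomputable def ee (t : Multiplicative A →* Λ) (χ : AddChar A ℂ) : MonoidAlgebra ℂ Λ :=
  pv ((MonoidAlgebra.of ℂ Λ).comp t) χ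

theorem ev_ee {R : Type} [Ring R] [Algebra ℂ R] (π : Λ →* R) (t : Multiplicative A →* Λ)
    (χ : AddChar A ℂ) : ev π (ee t χ) = pv (π.comp t) χ :=
  map_pv (ev π) (fun _ => MonoidAlgebra.lift_of π _) χ

/-- Signs. -/
def sn (b : Bool) : ℝ := if b then 1 else -1

/-- Centred signs. -/
noncomputable def cs (σ : AddChar A ℂ → Bool) (χ : AddChar A ℂ) : ℝ :=
  sn (σ χ) - (Fintype.card A : ℝ)⁻¹ * ∑ ψ, sn (σ ψ)

theorem card_pos' : (0 : ℝ) < Fintype.card A := Nat.cast_pos.2 Fintype.card_pos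

theorem sum_cs (σ : AddChar A ℂ → Bool) : ∑ χ, cs σ χ = 0 := by
  simp [cs, sum_sub_distrib, (card_pos' (A := A)).ne']

theorem abs_cs (σ : AddChar A ℂ → Bool) (χ : AddChar A ℂ) : |cs σ χ| ≤ 2 := by
  have h1 : ∀ b, |sn b| ≤ 1 := fun b => by cases b <;> simp [sn]
  have h2 := (abs_sum_le_sum_abs _ _).trans (sum_le_card_nsmul univ _ 1 fun ψ _ => h1 (σ ψ))
  rw [card_univ, AddChar.card_eq, nsmul_eq_mul, ← inv_mul_le_iff₀ card_pos'] at h2
  refine (abs_sub _ _).trans ?_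
  rw [abs_mul, abs_of_pos (inv_pos.2 card_pos')]
  linarith [h1 (σ χ)]

/-- Sums of centred elements. -/
noncomputable def Zs (t : ι → Multiplicative A →* Λ) (σ : ι → AddChar A ℂ → Bool) :
    MonoidAlgebra ℂ Λ := ∑ a, ∑ χ, (cs (σ a) χ : ℂ) • ee (t a) χ

open Classical in
/-- The penalty term. -/
noncomputable def Dd (t : ι → Multiplicative A →* Λ) (c : ℝ) (N : ℕ) : MonoidAlgebra ℂ Λ :=
  ∑ σ, (((c⁻¹ : ℝ) : ℂ) • Zs t σ) ^ 2 ^ (N + 1)

variable {M : Type} [NormedAddCommGroup M] [InnerProductSpace ℂ M] [CompleteSpace M]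
  {π : Λ →* Bd M} (hπ : ∀ γ, star (π γ) = π γ⁻¹)
include hπ

theorem isPV_ee (t : Multiplicative A →* Λ) : IsPV fun χ => ev π (ee t χ) := by
  simp only [ev_ee]
  exact isPV fun x => by simp [hπ]

theorem unc (t : ι → Multiplicative A →* Λ) {c : ℝ} (hc : 0 < c) (N : ℕ) (v : M) :
    ∑ a, ∑ χ, (‖ev π (ee (t a) χ) v‖ - √(Fintype.card A : ℝ)⁻¹ * ‖v‖) ^ 2 ≤
      c * ‖v‖ ^ 2 + c * (⟪v, ev π (Dd t c N) v⟫_ℂ).re := by
  classical
  have h1 : ∀ σ, star (ev π (((c⁻¹ : ℝ) : ℂ) • Zs t σ)) = ev π (((c⁻¹ : ℝ) : ℂ) • Zs t σ) := by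
    intro σ
    simp only [Zs, map_smul, map_sum, star_smul, star_sum, (isPV_ee hπ _).sa, Complex.star_def,
      Complex.conj_ofReal]
  let σ : ι → AddChar A ℂ → Bool := fun a χ =>
    decide ((Fintype.card A : ℝ)⁻¹ * ‖v‖ ^ 2 ≤ ‖ev π (ee (t a) χ) v‖ ^ 2)
  have h2 := (pow_ineq (h1 σ) v N).2.trans (add_le_add_right (single_le_sum
    (fun σ _ => (pow_ineq (h1 σ) v N).1) (mem_univ σ)) _)
  rw [← Complex.re_sum, ← inner_sum, ← _root_.sum_apply] at h2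
  simp only [← map_pow, ← map_sum] at h2
  rw [← mul_add, ← inv_mul_le_iff₀ hc]
  refine le_trans ?_ h2
  simp only [Zs, map_smul, map_sum, smul_apply, _root_.sum_apply, inner_smul_right, inner_sum,
    Complex.re_ofReal_mul, Complex.re_sum, (isPV_ee hπ _).re]
  refine mul_le_mul_of_nonneg_left (sum_le_sum fun a _ => ?_) (inv_pos.2 hc).le
  simp only [cs, sub_mul, sum_sub_distrib, ← mul_sum, (isPV_ee hπ _).norm_sq]
  rw [mul_comm _ (∑ ψ, _), mul_assoc, sum_mul, ← sum_sub_distrib]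
  refine sum_le_sum fun χ _ => ?_
  have h3 : (Fintype.card A : ℝ)⁻¹ * ‖v‖ ^ 2 = (√(Fintype.card A : ℝ)⁻¹ * ‖v‖) ^ 2 := by
    rw [mul_pow, Real.sq_sqrt (by positivity)]
  have h4 : 0 ≤ √(Fintype.card A : ℝ)⁻¹ * ‖v‖ := by positivity
  have h5 := norm_nonneg (ev π (ee (t a) χ) v)
  simp only [σ, h3, sn, decide_eq_true_eq]
  generalize √(Fintype.card A : ℝ)⁻¹ * ‖v‖ = y at *
  generalize ‖ev π (ee (t a) χ) v‖ = x at *
  split_ifs with h
  · nlinarith [abs_le_of_sq_le_sq' h h5]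
  · nlinarith [abs_le_of_sq_le_sq' (not_le.1 h).le h4]

variable {G : Type} [Group G]

omit hπ

/-- The family of norms. -/
noncomputable def nrm (ξ : El G M) : L2 G :=
  ⟨fun h => (‖ξ h‖ : ℂ), mem_of_sq (by simpa using (hasSum_sq ξ).summable)⟩

theorem nrm_apply (ξ : El G M) (h : G) : nrm ξ h = (‖ξ h‖ : ℂ) := rfl

theorem norm_nrm (ξ : El G M) : ‖nrm ξ‖ = ‖ξ‖ :=
  norm_eq_of (Equiv.refl G) _ _ fun h => by simp [nrm_apply]

theorem hasSum_re {K : Type} [NormedAddCommGroup K] [InnerProductSpace ℂ K] (ξ η : El G K) :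
    HasSum (fun h => (⟪ξ h, η h⟫_ℂ).re) (⟪ξ, η⟫_ℂ).re := Complex.hasSum_re (lp.hasSum_inner ξ η)

theorem inner_le_nrm (ξ η : El G M) (g : G) :
    (⟪ξ, LL G M g η⟫_ℂ).re ≤ (⟪nrm ξ, lam G g (nrm η)⟫_ℂ).re :=
  hasSum_le (fun h => (re_le _ _).trans_eq (by simp [nrm_apply, lam_apply, mul_comm]))
    (hasSum_re _ _) (hasSum_re _ _)

theorem term_le (x x' n : L2 G) (s : ℝ) (g : G) : (⟪x, lam G g x'⟫_ℂ).re ≤
    ‖x‖ ^ 2 / 4 + ‖x' - (s : ℂ) • n‖ ^ 2 + s ^ 2 * ‖n‖ ^ 2 / 4 + ‖x - (s : ℂ) • n‖ ^ 2 +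
      s ^ 2 * (⟪n, lam G g n⟫_ℂ).re := by
  have h1 := re_le x (lam G g (x' - (s : ℂ) • n))
  have h2 := re_le (x - (s : ℂ) • n) (lam G g ((s : ℂ) • n))
  rw [norm_lam] at h1 h2
  rw [norm_smul, Complex.norm_real, Real.norm_eq_abs, inner_sub_left, Complex.sub_re,
    inner_smul_left, map_smul (lam G g) _ n, inner_smul_right n, Complex.conj_ofReal,
    Complex.re_ofReal_mul, Complex.re_ofReal_mul] at h2
  rw [map_sub, inner_sub_right, Complex.sub_re, map_smul] at h1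
  have h3 := sq_nonneg (|s| * ‖n‖ / 2 - ‖x - (s : ℂ) • n‖)
  rw [sub_sq, div_pow, mul_pow, sq_abs] at h3
  nlinarith [sq_nonneg (‖x‖ / 2 - ‖x' - (s : ℂ) • n‖)]

include hπ in
theorem unc_sum (t : ι → Multiplicative A →* Λ) {c : ℝ} (hc : 0 < c) (N : ℕ) (ξ : El G M) :
    ∑ a, ∑ χ, ‖nrm (ampS G M (ev π (ee (t a) χ)) ξ) - (√(Fintype.card A : ℝ)⁻¹ : ℂ) • nrm ξ‖ ^ 2 ≤
      c * ‖ξ‖ ^ 2 + c * (⟪ξ, ampS G M (ev π (Dd t c N)) ξ⟫_ℂ).re := by
  have h1 := hasSum_sum fun a (_ : a ∈ univ) => hasSum_sum fun χ (_ : χ ∈ univ) => hasSum_sq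
    (nrm (ampS G M (ev π (ee (t a) χ)) ξ) - (√(Fintype.card A : ℝ)⁻¹ : ℂ) • nrm ξ)
  refine hasSum_le (fun h => le_trans (le_of_eq ?_) (unc hπ t hc N (ξ h))) h1
    (((hasSum_sq ξ).mul_left c).add
      ((hasSum_re ξ (ampS G M (ev π (Dd t c N)) ξ)).mul_left c))
  refine sum_congr rfl fun a _ => sum_congr rfl fun χ _ => ?_
  rw [lp.coeFn_sub, Pi.sub_apply, lp.coeFn_smul, Pi.smul_apply, nrm_apply, nrm_apply, smul_eq_mul,
    ← Complex.ofReal_mul, ← Complex.ofReal_sub, Complex.norm_real, Real.norm_eq_abs, sq_abs]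
  rfl

theorem ki {g : AddChar A ℂ → G} {ρ : ℝ} (hρ : ‖∑ χ, lam G (g χ)‖ ≤ ρ * Fintype.card A)
    {t t' : ι → Multiplicative A →* Λ} {u : ι → Λ} (h : ∀ a x, t a x * u a = u a * t' a x)
    {c : ℝ} (hc : 0 < c) (N : ℕ) :
    Pos (fun o : Option (ι × AddChar A ℂ) => o.elim 1 fun p => g p.2) fun o => o.elim
      (((Fintype.card ι * (ρ + 1 / 2) + 2 * c : ℝ) : ℂ) • 1 + (c : ℂ) • (Dd t c N + Dd t' c N))
      fun p => -(ee (t p.1) p.2 * MonoidAlgebra.of ℂ Λ (u p.1)) := by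
  intro M _ _ _ π hπ ξ
  have h1 : ∀ a χ, (⟪ξ, (LL G M (g χ) * ampS G M (ev π (ee (t a) χ *
      MonoidAlgebra.of ℂ Λ (u a)))) ξ⟫_ℂ).re ≤ (⟪nrm (ampS G M (ev π (ee (t a) χ)) ξ),
        lam G (g χ) (nrm (ampS G M (ev π (ee (t' a) χ)) ξ))⟫_ℂ).re := fun a χ => by
    have h2 : ev π (ee (t a) χ) * π (u a) = π (u a) * ev π (ee (t' a) χ) := by
      simp only [ev_ee, pv, smul_mul_assoc, mul_smul_comm, sum_mul, mul_sum, MonoidHom.comp_apply,
        ← map_mul, h]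
    have h3 : nrm (ampS G M (ev π (ee (t' a) χ)) ξ) =
        nrm (ampS G M (π (u a) * ev π (ee (t' a) χ)) ξ) := lp.ext (funext fun k => by
      rw [nrm_apply, nrm_apply, ampS_apply, ampS_apply, mul_apply_eq_comp,
        norm_rep π (norm_unit_le π hπ)])
    rw [h3, ← h2, map_mul, MonoidAlgebra.lift_of]
    refine le_trans (le_of_eq ?_) (inner_le_nrm _ _ (g χ))
    rw [inner_sa (((isPV_ee hπ (t a)).amp G).sa χ), ← mul_apply_eq_comp (LL G M (g χ)),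
      ← mul_apply_eq_comp, ← mul_assoc, ← (LL_amp _ _).eq, mul_assoc, ← map_mul, ← mul_assoc,
      (isPV_ee hπ (t a)).idem χ]
  have h2 := sum_le_sum fun a (_ : a ∈ univ) => sum_le_sum fun χ (_ : χ ∈ univ) =>
    (h1 a χ).trans (term_le _ _ (nrm ξ) √(Fintype.card A : ℝ)⁻¹ _)
  have h3 : (Fintype.card A : ℝ)⁻¹ * ∑ χ, (⟪nrm ξ, lam G (g χ) (nrm ξ)⟫_ℂ).re ≤ ρ * ‖ξ‖ ^ 2 := by
    rw [← Complex.re_sum, ← inner_sum, ← _root_.sum_apply, inv_mul_le_iff₀ card_pos']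
    refine (re_le _ _).trans ((mul_le_mul_of_nonneg_left
      (ContinuousLinearMap.le_of_opNorm_le _ hρ _) (norm_nonneg _)).trans_eq ?_)
    rw [norm_nrm]; ring
  have h4 := mul_le_mul_of_nonneg_left h3 (Nat.cast_nonneg (α := ℝ) (Fintype.card ι))
  simp only [sum_add_distrib, norm_nrm, ← sum_div, ((isPV_ee hπ _).amp G).norm_sq, ← mul_sum,
    Real.sq_sqrt (inv_pos.2 (card_pos' (A := A))).le, sum_const, card_univ, AddChar.card_eq,
    nsmul_eq_mul, inv_mul_cancel_left₀ (card_pos' (A := A)).ne'] at h2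
  simp only [Fintype.sum_option, Option.elim, Fintype.sum_prod_type, map_one, one_mul, map_add,
    map_smul, map_neg, mul_neg, sum_neg_distrib, add_apply, neg_apply, smul_apply,
    one_apply_eq_self, _root_.sum_apply, inner_add_right, inner_neg_right, inner_smul_right,
    inner_sum, Complex.add_re, Complex.neg_re, Complex.re_ofReal_mul, Complex.re_sum, re_self]
  linarith [unc_sum hπ t hc N ξ, unc_sum hπ t' hc N ξ]

theorem norm_Dd (K : Type) [NormedAddCommGroup K] [InnerProductSpace ℂ K] [CompleteSpace K]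
    [Nonempty ι] (t : ι → Multiplicative A →* Λ) (S : ι → Set Λ)
    (hS : ∀ a b, a ≠ b → Disjoint (S a) (S b)) (ht : ∀ a, ∀ x ≠ 1, ∀ γ ∉ S a, t a x * γ ∈ S a)
    {ε : ℝ} (hε : 0 < ε) : ∃ N, ‖ev (LL Λ K) (Dd t (8 * √(Fintype.card ι)) N)‖ ≤ ε ∧
      ∀ N' ≥ N, ‖ev (LL Λ K) (Dd t (8 * √(Fintype.card ι)) N')‖ ≤ ε := by
  classical
  have h0 : 0 < √(Fintype.card ι : ℝ) := Real.sqrt_pos.2 (Nat.cast_pos.2 Fintype.card_pos)
  have h1 : ∀ σ, ‖ev (LL Λ K) ((((8 * √(Fintype.card ι))⁻¹ : ℝ) : ℂ) • Zs t σ)‖ ≤ 1 / 2 := by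
    intro σ
    rw [map_smul, norm_smul, Complex.norm_real, Real.norm_of_nonneg (by positivity),
      inv_mul_le_iff₀ (by positivity), Zs, map_sum]
    refine (ping_pong (P := fun a => prj K (S a)) (Q := fun a => prj K (S a)ᶜ)
      (fun _ => star_prj _) (fun _ => norm_prj _) (fun a b h => ?_) (fun _ => norm_prj _)
      (fun a => ?_) (fun a => ?_) zero_le_two fun a => ?_).trans_eq (by ring)
    · ext ξ γ
      have : γ ∈ S a → γ ∉ S b := fun h' => Set.disjoint_left.1 (hS a b h) h'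
      by_cases h2 : γ ∈ S a <;> simp_all [prj_apply]
    · ext ξ γ
      by_cases h2 : γ ∈ S a <;> simp [prj_apply, h2]
    · simp only [map_sum, map_smul, ev_ee]
      rw [sum_pv, mul_sum, sum_mul]
      refine sum_eq_zero fun x _ => ?_
      by_cases hx : x = 0
      · simp [hx, ← Complex.ofReal_sum, sum_cs]
      rw [mul_smul_comm, smul_mul_assoc]
      refine smul_eq_zero_of_right _ ?_
      ext ξ γ
      have := ht a (.ofAdd x)⁻¹ (inv_ne_one.2 hx) γ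
      by_cases h2 : γ ∈ S a <;> simp_all [prj_apply]
    · simp only [map_sum, map_smul]
      exact (isPV_ee star_LL _).norm_le zero_le_two fun χ => by simpa using abs_cs _ χ
  obtain ⟨n, hn⟩ := exists_pow_lt_of_lt_one (show 0 < ε / Fintype.card (ι → AddChar A ℂ → Bool) by
    positivity) (show (1 / 2 : ℝ) < 1 by norm_num)
  have h2 : ∀ N' ≥ n, ‖ev (LL Λ K) (Dd t (8 * √(Fintype.card ι)) N')‖ ≤ ε := fun N hN => by
    rw [Dd, map_sum]
    refine (norm_sum_le _ _).trans ((sum_le_card_nsmul _ _ ((1 / 2 : ℝ) ^ n) fun σ _ => ?_).trans ?_)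
    · rw [map_pow]
      exact (norm_pow_le' _ (by positivity)).trans ((pow_le_pow_left₀ (norm_nonneg _) (h1 σ) _).trans
        (pow_le_pow_of_le_one (by norm_num) (by norm_num)
          (hN.trans ((Nat.le_succ N).trans Nat.lt_two_pow_self.le))))
    · rw [lt_div_iff₀ (by positivity)] at hn
      rw [card_univ, nsmul_eq_mul, mul_comm]
      convert hn.le
  exact ⟨n, h2 n le_rfl, h2⟩

end Pool.Agent.MP_56ff7a_an.H29
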