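import Pool.Agent.MP_56ff7a_an.H29.Main

/-!
The path of isometries and the contradiction.
-/

namespace Pool.Agent.MP_56ff7a_an.H29

open Finset Filter Topology H20 SemidirectProduct
open scoped InnerProductSpace

variable {G ι A : Type} [Group G] [AddCommGroup A] [Fintype A] [DecidableEq ι] [Nonempty ι]
  (g : AddChar A ℂ → G)

/-- The angle of the deformation. -/
noncomputable def an1 (t : ℚ) : ℝ := Real.arcsin (9 / 10) * max (1 - 2 * (t : ℝ)) 0

/-- The angle of the rotation. -/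
noncomputable def an2 (t : ℚ) : ℝ := Real.pi / 2 * max (2 * (t : ℝ) - 1) 0

theorem sin_an1 {t : ℚ} (ht : t ∈ Set.Icc (0 : ℚ) 1) : |Real.sin (an1 t)| ≤ 9 / 10 := by
  have h0 : (0 : ℝ) ≤ t := by exact_mod_cast ht.1
  have h2 := Real.arcsin_nonneg.2 (show (0 : ℝ) ≤ 9 / 10 by norm_num)
  have h3 := Real.arcsin_le_pi_div_two (9 / 10)
  have h4 : 0 ≤ an1 t := mul_nonneg h2 (le_max_right _ _)
  have h5 : an1 t ≤ Real.arcsin (9 / 10) :=
    mul_le_of_le_one_right h2 (max_le (by linarith) zero_le_one)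
  rw [abs_of_nonneg (Real.sin_nonneg_of_nonneg_of_le_pi h4 (by linarith [Real.pi_pos]))]
  exact (Real.sin_le_sin_of_le_of_le_pi_div_two (by linarith [Real.pi_pos]) h3 h5).trans_eq
    (Real.sin_arcsin (by norm_num) (by norm_num))

theorem max_lip {c x y d : ℝ} (h0 : 0 ≤ c) (h : c ≤ 2) (hd : |x - y| = 2 * d) :
    |c * max x 0 - c * max y 0| ≤ 4 * d := by
  rw [← mul_sub, abs_mul, abs_of_nonneg h0]
  nlinarith [abs_max_sub_max_le_abs x y 0, abs_nonneg (max x 0 - max y 0)]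

theorem an1_lip (s t : ℚ) : |an1 s - an1 t| ≤ 4 * |(s : ℝ) - t| :=
  max_lip (Real.arcsin_nonneg.2 (by norm_num))
    (by linarith [Real.arcsin_le_pi_div_two (9 / 10), Real.pi_le_four]) (by
      rw [abs_sub_comm, ← abs_two, ← abs_mul, abs_two]; congr 1; ring)

theorem an2_lip (s t : ℚ) : |an2 s - an2 t| ≤ 4 * |(s : ℝ) - t| :=
  max_lip (by positivity) (by linarith [Real.pi_le_four]) (by
    rw [← abs_two, ← abs_mul, abs_two]; congr 1; ring)

theorem exists_path [Fintype ι] [Countable G] {ρ : ℝ}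
    (hρ : ‖∑ χ, lam G (g χ)‖ ≤ ρ * Fintype.card A) (h : 2 * Fintype.card ι * ρ < 1) :
    ∃ (w : ℚ → H1 G ι A (LF ι) →L[ℂ] El (Lam ι A) (Sum2 (El G (LF ι)) (L2 G)))
      (hw : ∀ t ξ, ‖w t ξ‖ = ‖ξ‖), (∀ t γ, w t ∘L kt g (an1 t) γ = LL _ _ γ ∘L w t) ∧
      (∀ s ∈ Set.Icc (0 : ℚ) 1, ∀ t ∈ Set.Icc (0 : ℚ) 1, ‖w s - w t‖ ≤ 812 * |(s : ℝ) - t|) ∧
      (∀ f : G →₀ ℂ, ‖f.sum fun k c => c • LL G (MM ι A (LF ι)) k‖ ≤
        ‖f.sum fun k c => c • lam G k‖) ∧ ∃ hi : ∀ x, ‖in2 (El G (LF ι)) (L2 G) x‖ = ‖x‖,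
        ∀ k, cj (hw 1) (LL G _ k) = ampS _ (Sum2 (El G (LF ι)) (L2 G)) (cj hi (lam G k)) := by
  obtain ⟨Ξ, x1, x2, x3⟩ := exists_xi (L := LF ι) (ι := ι) g hρ h
  obtain ⟨Θ, y1, y2, y3, y4⟩ := exists_theta (ι := ι) g
  obtain ⟨w, hw⟩ : ∃ w : ℚ → H1 G ι A (LF ι) →L[ℂ] El (Lam ι A) (Sum2 (El G (LF ι)) (L2 G)),
      ∀ t ξ, w t ξ = amp _ (in1 _ _) ((Real.cos (an2 t) : ℂ) • VV G A (an1 t) (Ξ ξ)) +
        amp _ (in2 _ _) ((Real.sin (an2 t) : ℂ) • Θ ξ) :=
    ⟨fun t => amp _ (in1 _ _) ∘L ((Real.cos (an2 t) : ℂ) • VV G A (an1 t) ∘L Ξ) +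
      amp _ (in2 _ _) ∘L ((Real.sin (an2 t) : ℂ) • Θ), fun _ _ => rfl⟩
  have h1 : ∀ {K K' : Type} [NormedAddCommGroup K] [InnerProductSpace ℂ K] [NormedAddCommGroup K']
      [InnerProductSpace ℂ K'] (T : K →L[ℂ] K') (γ : Lam ι A) (η : El (Lam ι A) K),
      LL _ _ γ (amp _ T η) = amp _ T (LL _ _ γ η) := fun _ _ _ => rfl
  have hi : ∀ x, ‖in2 (El G (LF ι)) (L2 G) x‖ = ‖x‖ := fun x => by
    simpa using norm_in (0 : El G (LF ι)) x
  refine ⟨w, fun t ξ => ?_, fun t γ => ?_, fun s hs t ht => ?_, fun f => ?_, hi, fun k => ?_⟩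
  · rw [← sq_eq_sq₀ (norm_nonneg _) (norm_nonneg _), hw, norm_amp_in, norm_smul, norm_smul,
      norm_VV, x1, y1, Complex.norm_real, Complex.norm_real, mul_pow, mul_pow, Real.norm_eq_abs,
      Real.norm_eq_abs, sq_abs, sq_abs, ← add_mul, Real.cos_sq_add_sin_sq, one_mul]
  · ext1 ξ
    have h2 : VV G A (an1 t) (Ξ (kt g (an1 t) γ ξ)) = LL _ _ γ (VV G A (an1 t) (Ξ ξ)) := by
      rw [← VV_LL]
      exact congrArg _ ((DFunLike.congr_fun (x3 _) _).trans
        (congrArg (ampS (Lam ι A) (El G (LF ι)) (ampS G (LF ι) (PS.sg (an1 t) γ.right)))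
          (DFunLike.congr_fun (x2 γ) ξ)))
    have h3 : (Real.sin (an2 t) : ℂ) • Θ (kt g (an1 t) γ ξ) =
        (Real.sin (an2 t) : ℂ) • LL _ _ γ (Θ ξ) := by
      rcases le_total (2 * (t : ℝ) - 1) 0 with e | e
      · simp [an2, e]
      · rw [an1, max_eq_right (by linarith), mul_zero]
        exact congrArg _ (DFunLike.congr_fun (y3 γ) ξ)
    rw [ContinuousLinearMap.comp_apply, ContinuousLinearMap.comp_apply, hw, hw, map_add, h1, h1,
      h2, h3, map_smul (LL _ _ γ), map_smul (LL _ _ γ)]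
  · refine ContinuousLinearMap.opNorm_le_bound _ (by positivity) fun ξ => ?_
    have h2 := VV_lip (sin_an1 hs) (sin_an1 ht) (Ξ ξ)
    have h3 : ‖(Real.cos (an2 s) : ℂ) • VV G A (an1 s) (Ξ ξ) -
        (Real.cos (an2 t) : ℂ) • VV G A (an1 t) (Ξ ξ)‖ ≤ 808 * |(s : ℝ) - t| * ‖ξ‖ := by
      refine (norm_sub_le_norm_sub_add_norm_sub _
        ((Real.cos (an2 s) : ℂ) • VV G A (an1 t) (Ξ ξ)) _).trans ?_
      rw [← smul_sub, ← sub_smul, norm_smul, norm_smul, norm_VV, ← Complex.ofReal_sub,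
        Complex.norm_real, Complex.norm_real, Real.norm_eq_abs, Real.norm_eq_abs]
      rw [x1] at h2 ⊢
      have h4 := mul_le_mul (Real.abs_cos_le_one (an2 s)) h2 (norm_nonneg _) zero_le_one
      have h5 := mul_le_mul_of_nonneg_right ((Real.abs_cos_sub_cos_le _ _).trans (an2_lip s t))
        (norm_nonneg ξ)
      have h6 := mul_le_mul_of_nonneg_right (an1_lip s t) (norm_nonneg ξ)
      linarith
    have h4 : ‖(Real.sin (an2 s) : ℂ) • Θ ξ - (Real.sin (an2 t) : ℂ) • Θ ξ‖ ≤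
        4 * |(s : ℝ) - t| * ‖ξ‖ := by
      rw [← sub_smul, norm_smul, y1, ← Complex.ofReal_sub, Complex.norm_real, Real.norm_eq_abs]
      exact mul_le_mul_of_nonneg_right ((Real.abs_sin_sub_sin_le _ _).trans (an2_lip s t))
        (norm_nonneg ξ)
    refine le_of_sq_le (by positivity) ?_
    rw [sub_apply, hw, hw, add_sub_add_comm, ← map_sub, ← map_sub, norm_amp_in]
    have h5 := pow_le_pow_left₀ (norm_nonneg _) h3 2
    have h6 := pow_le_pow_left₀ (norm_nonneg _) h4 2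
    nlinarith [sq_nonneg (|(s : ℝ) - t| * ‖ξ‖)]
  · refine ContinuousLinearMap.opNorm_le_bound _ (norm_nonneg _) fun ξ => ?_
    have h2 : Θ ((f.sum fun k c => c • LL G (MM ι A (LF ι)) k) ξ) =
        ampS _ (L2 G) (f.sum fun k c => c • lam G k) (Θ ξ) := by
      simp only [Finsupp.sum, _root_.sum_apply, smul_apply, map_sum, map_smul]
      exact sum_congr rfl fun k _ => congrArg _ (DFunLike.congr_fun (y4 k) ξ)
    rw [← y1, h2, ← y1 ξ]
    exact ContinuousLinearMap.le_of_opNorm_le _ (norm_amp _) _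
  · have h2 : w 1 = amp _ (in2 _ _) ∘L Θ := by
      ext1 ξ
      rw [hw]
      norm_num [an2]
    ext1 η
    rw [cj_apply, h2, ContinuousLinearMap.adjoint_comp, adj_amp]
    exact congrArg (amp (Lam ι A) (in2 (El G (LF ι)) (L2 G))) ((DFunLike.congr_fun (y4 k) _).trans
      (congrArg (amp (Lam ι A) (lam G k)) (y2 (amp _ (in2 (El G (LF ι)) (L2 G)).adjoint η))))

theorem not_lifts [Countable G] (hG : ¬IsAmenable G) : ¬LiftsCor (Cr G) := fun hL => by
  obtain ⟨ι, _, _, _, hι⟩ : ∃ (ι : Type) (_ : Fintype ι) (_ : DecidableEq ι) (_ : Nonempty ι),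
      Fintype.card ι = 2500 := ⟨Fin 2500, inferInstance, inferInstance, inferInstance, by simp⟩
  obtain ⟨A, _, _, g, hρ⟩ : ∃ (A : Type) (_ : AddCommGroup A) (_ : Fintype A)
      (g : AddChar A ℂ → G), ‖∑ χ, lam G (g χ)‖ ≤ 1 / 10000 * Fintype.card A := by
    obtain ⟨I, _, _, g, hg⟩ := exists_small hG (show (0 : ℝ) < 1 / 10000 by norm_num)
    have : NeZero (Fintype.card I) := ⟨Fintype.card_ne_zero⟩
    obtain ⟨e⟩ : Nonempty (AddChar (ZMod (Fintype.card I)) ℂ ≃ I) :=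
      ⟨Fintype.equivOfCardEq (by simp)⟩
    refine ⟨ZMod (Fintype.card I), inferInstance, inferInstance, fun χ => g (e χ), ?_⟩
    rwa [ZMod.card, Equiv.sum_comp e fun i => lam G (g i)]
  obtain ⟨w, hw, w1, w2, w3, hi, w4⟩ := exists_path (ι := ι) g hρ (by rw [hι]; norm_num)
  obtain ⟨D⟩ := exists_FM (ι := ι) (A := A)
  obtain ⟨S, s1, s2⟩ := exists_pp (ι := ι) (A := A)
  have : Nontrivial (Sum2 (El G (LF ι)) (L2 G)) := ⟨in2 _ _ (sng 1 1), 0, fun h => by
    simpa [hi] using congrArg norm h⟩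
  have : TopologicalSpace.SeparableSpace (Sum2 (El G (LF ι)) (L2 G)) :=
    (WithLp.prodContinuousLinearEquiv 2 ℂ _ _).symm.surjective.denseRange.separableSpace
      (WithLp.prodContinuousLinearEquiv 2 ℂ _ _).symm.continuous
  have hd : ∀ ε : ι → FreeGroup ι × ι, (∀ a, (ε a).2 = a) → ∃ N, ∀ N' ≥ N,
      ‖ev (LL _ (Sum2 (El G (LF ι)) (L2 G))) (Dd (fun a => tt A (ε a)) 400 N')‖ ≤ 1 / 10 :=
    fun ε h => by
      obtain ⟨N, -, hN⟩ := norm_Dd (Sum2 (El G (LF ι)) (L2 G)) (fun a => tt A (ε a))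
        (fun a => S (ε a)) (fun a b e => s1 _ _ fun e' => e (by rw [← h a, e', h]))
        (fun a => s2 _) (show (0 : ℝ) < 1 / 10 by norm_num)
      have : 8 * √(Fintype.card ι : ℝ) = 400 := by
        rw [hι, show ((2500 : ℕ) : ℝ) = 50 ^ 2 by norm_num, Real.sqrt_sq (by norm_num)]; norm_num
      exact ⟨N, this ▸ hN⟩
  obtain ⟨N, hN⟩ := hd (fun a => (1, a)) fun _ => rfl
  obtain ⟨N', hN'⟩ := hd (fun a => ((FreeGroup.of a)⁻¹, a)) fun _ => rfl
  have hc : ∀ {H : Type} [NormedAddCommGroup H] [InnerProductSpace ℂ H] [CompleteSpace H]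
      {H' : Type} [NormedAddCommGroup H'] [InnerProductSpace ℂ H'] [CompleteSpace H']
      (Φ : Bd H →⋆ₙₐ[ℂ] Bd H') (U : G → Bd H) (f : G →₀ ℂ),
      ‖f.sum fun k c => c • Φ (U k)‖ ≤ ‖f.sum fun k c => c • U k‖ := fun Φ U f => by
    simpa only [map_finsuppSum, map_smul] using
      NonUnitalStarAlgHom.norm_apply_le Φ (f.sum fun k c => c • U k)
  have h1 := aml hL D (fun t k => cj (hw t) (LL G _ k)) (fun t k l => by simp only [map_mul])
    (fun t k => by rw [← map_star, star_LL]) (fun t k γ => cj_comm _ (w1 t γ)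
      (by rw [star_kt, star_LL]; exact w1 t _) (LL_kt g _ k γ)) (C := 2 * 812) (by norm_num)
    (fun s hs t ht k => (cj_lip _ _ (norm_LL k)).trans (by linarith [w2 s hs t ht]))
    (fun f t => (hc _ _ f).trans (w3 f)) (fun k => cj hi (lam G k)) w4
    (fun k l => by simp only [map_mul]) (fun k => by rw [← map_star, star_lam])
    (fun f => hc _ _ f) (ki hρ (t := fun a => tt A (1, a))
      (t' := fun a => tt A ((FreeGroup.of a)⁻¹, a)) (u := fun a => inr (.of a))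
      (fun a x => by rw [inr_tt, mul_inv_cancel]) (show (0 : ℝ) < 400 by norm_num) (max N N'))
    (w 0 (sng 1 (sng 1 (sng 1 1))))
  have h2 : ∀ y ξ, ev (LL _ _) y (w 0 ξ) = w 0 (ev (kt g (an1 0)) y ξ) := fun y ξ => by
    simp only [MonoidAlgebra.lift_apply, Finsupp.sum, _root_.sum_apply, smul_apply, map_sum,
      map_smul]
    exact sum_congr rfl fun γ _ => congrArg _ (DFunLike.congr_fun (w1 0 γ) ξ).symm
  have h3 : ∀ k y ξ, ⟪w 0 ξ, (cj (hw 0) (LL G _ k) * ev (LL _ _) y :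
      Bd (El (Lam ι A) (Sum2 (El G (LF ι)) (L2 G)))) (w 0 ξ)⟫_ℂ =
      ⟪ξ, LL G _ k (ev (kt g (an1 0)) y ξ)⟫_ℂ := fun k y ξ => by
    rw [mul_apply_eq_comp, h2, cj_apply, adj_iso (hw 0),
      ← ContinuousLinearMap.adjoint_inner_right, adj_iso (hw 0)]
  have h4 : Real.sin (an1 0) = 9 / 10 := by norm_num [an1, Real.sin_arcsin]
  rw [Fintype.sum_option, add_apply, inner_add_right, Complex.add_re, _root_.sum_apply, inner_sum,
    Complex.re_sum, Fintype.sum_prod_type] at h1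
  simp only [Option.elim, map_neg, mul_neg, neg_apply, inner_neg_right, Complex.neg_re,
    sum_neg_distrib, h3 (g _), fix, h4, sum_const, card_univ, hι] at h1
  have h5 : ‖w 0 (sng 1 (sng 1 (sng 1 1)))‖ = 1 := by simp [hw]
  have h6 := hN _ (le_max_left N N')
  have h7 := hN' _ (le_max_right N N')
  have h8 := (NonUnitalStarAlgHom.norm_apply_le (cj (hw 0)) _).trans (norm_LL (K := MM ι A (LF ι))
    (1 : G))
  generalize w 0 _ = ζ at *
  generalize cj (hw 0) _ = p at *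
  rw [map_add, map_smul, map_smul, map_add, map_one] at h1
  generalize ev (LL (Lam ι A) (Sum2 (El G (LF ι)) (L2 G)))
    (Dd (fun a : ι => tt A (1, a)) 400 (max N N')) = T at h1 h6
  generalize ev (LL (Lam ι A) (Sum2 (El G (LF ι)) (L2 G)))
    (Dd (fun a : ι => tt A ((FreeGroup.of a)⁻¹, a)) 400 (max N N')) = T' at h1 h7
  have h9 : ∀ c : ℝ, 0 ≤ c → (⟪ζ, (p * ((c : ℂ) • 1 + ((400 : ℝ) : ℂ) • (T + T'))) ζ⟫_ℂ).re ≤
      c + 80 := fun c hc => by
    refine (re_le _ _).trans ?_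
    rw [h5, one_mul]
    refine ((ContinuousLinearMap.le_opNorm _ _).trans_eq (by rw [h5, mul_one])).trans
      ((norm_mul_le _ _).trans ((mul_le_of_le_one_left (norm_nonneg _) h8).trans
        ((norm_add_le _ _).trans ?_)))
    rw [norm_smul, norm_smul, Complex.norm_real, Complex.norm_real, Real.norm_of_nonneg hc]
    have := mul_le_of_le_one_right hc (norm_one_le' (B := Bd (El (Lam ι A)
      (Sum2 (El G (LF ι)) (L2 G)))))
    norm_num
    linarith [norm_add_le T T']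
  have h10 := h9 (((2500 : ℕ) : ℝ) * (1 / 10000 + 1 / 2) + 2 * 400) (by norm_num)
  have h11 := h1.trans (add_le_add h10 le_rfl)
  norm_num at h11

end Pool.Agent.MP_56ff7a_an.H29
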