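import Pool.Agent.MP_56ff7a_an.H29.Ops

/-!
Homotopy lifting when only the images in the quotient are representations.
-/

namespace Pool.Agent.MP_56ff7a_an.H29

open Finset Filter Topology H20

theorem homotopy_lift' {B D G : Type} [CStarAlgebra B] [CStarAlgebra D] [Nontrivial B]
    [TopologicalSpace.SeparableSpace B] [Group G] (q : B →⋆ₐ[ℂ] D) (U : ℚ → G → B)
    (hm : ∀ t g h, q (U t (g * h)) = q (U t g) * q (U t h))
    (hs : ∀ t g, star (q (U t g)) = q (U t g⁻¹)) (hn : ∀ t g, ‖q (U t g)‖ ≤ 1)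
    (hm1 : ∀ g h, U 1 (g * h) = U 1 g * U 1 h) (hs1 : ∀ g, star (U 1 g) = U 1 g⁻¹) {K : ℝ}
    (hK : 0 ≤ K) (hU : ∀ s ∈ Set.Icc (0 : ℚ) 1, ∀ t ∈ Set.Icc (0 : ℚ) 1, ∀ g,
      ‖q (U s g) - q (U t g)‖ ≤ K * |(s : ℝ) - t|) :
    ∃ V : G → Cor B, (∀ g h, V (g * h) = V g * V h) ∧ (∀ g, star (V g) = V g⁻¹) ∧
      (∀ (f : G →₀ ℂ) (r : ℝ), ‖f.sum fun g c => c • U 1 g‖ ≤ r →
        (∀ t, ‖f.sum fun g c => c • q (U t g)‖ ≤ r) → ‖f.sum fun g c => c • V g‖ ≤ 2 * r) ∧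
      ∀ g (x : Sq B), mk B x = V g → Tendsto (fun n => ‖q (x n) - q (U 0 g)‖) atTop (𝓝 0) := by
  obtain ⟨E, e0, e1, e2, e3, e4⟩ := exists_central q
  set e := mk B E
  have hd : ∀ b : B, ‖(dg b : Cor B)‖ ≤ ‖b‖ := NonUnitalStarAlgHom.norm_apply_le dg
  have hc : ∀ (f : ℝ → ℝ) (b : B), Commute (cfc f e) (dg b) := fun f b => e1.commute_cfc (e3 b) f
  have kill : ∀ N j, j < N + 1 → ∀ b b' : B, q b = q b' →
      cfc (bn (N + 1) j) e * dg b = cfc (bn (N + 1) j) e * dg b' := fun N j hj b b' h => by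
    obtain ⟨y, h6⟩ := cfc_bn_lt e1 hj
    rw [← sub_eq_zero, ← mul_sub, ← map_sub, (hc _ _).eq, h6, ← mul_assoc,
      e4 _ (by rw [map_sub, h, sub_self]), zero_mul]
  have one : ∀ N : ℕ, ((N + 1 : ℕ) : ℚ) / (N + 1 : ℕ) = 1 := fun N => div_self (by positivity)
  have dbl : ∀ (N M : ℕ) (a : ℕ → ℕ → B), (∀ j ≤ N + 1, ∀ l ≤ M + 1,
      ‖q (a j l)‖ ≤ K * |(j : ℝ) / (N + 1 : ℕ) - l / (M + 1 : ℕ)|) → a (N + 1) (M + 1) = 0 →
      ‖∑ j ∈ range (N + 1 + 1), ∑ l ∈ range (M + 1 + 1),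
        cfc (bn (N + 1) j) e * cfc (bn (M + 1) l) e * dg (a j l)‖ ≤
      2 * ((K + 1) * ((√((N + 1 : ℕ) : ℝ))⁻¹ + (√((M + 1 : ℕ) : ℝ))⁻¹)) := fun N M a h1 h2 => by
    have h3 : ∀ j l, ∃ b : B, j ≤ N + 1 → l ≤ M + 1 →
        ‖b‖ ≤ (K + 1) * |(j : ℝ) / (N + 1 : ℕ) - l / (M + 1 : ℕ)| ∧
        cfc (bn (N + 1) j) e * cfc (bn (M + 1) l) e * dg (a j l) =
          cfc (bn (N + 1) j) e * cfc (bn (M + 1) l) e * dg b := fun j l => by
      by_cases h4 : j = N + 1 ∧ l = M + 1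
      · exact ⟨0, fun _ _ => ⟨by rw [norm_zero]; positivity, by rw [h4.1, h4.2, h2]⟩⟩
      have h5 : ∃ b : B, j ≤ N + 1 → l ≤ M + 1 →
          ‖b‖ ≤ (K + 1) * |(j : ℝ) / (N + 1 : ℕ) - l / (M + 1 : ℕ)| ∧ q (a j l) = q b := by
        rcases (abs_nonneg ((j : ℝ) / (N + 1 : ℕ) - l / (M + 1 : ℕ))).eq_or_lt with h | h
        · refine ⟨0, fun hj hl => ⟨by rw [norm_zero]; positivity, ?_⟩⟩
          have := h1 j hj l hl
          rwa [← h, mul_zero, norm_le_zero_iff, ← map_zero q] at this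
        · obtain ⟨i, i1, i2⟩ := exists_near q (a j l) h
          exact ⟨_, fun hj hl => ⟨i2.trans (by linarith [h1 j hj l hl]), by simp [i1]⟩⟩
      obtain ⟨b, hb⟩ := h5
      refine ⟨b, fun hj hl => ⟨(hb hj hl).1, ?_⟩⟩
      by_cases h6 : l < M + 1
      · rw [mul_assoc, mul_assoc, kill M l h6 _ _ (hb hj hl).2]
      · rw [(cfc_commute_cfc _ _ e).eq, mul_assoc, mul_assoc, kill N j (by omega) _ _ (hb hj hl).2]
    choose b hb using h3
    rw [sum_congr rfl fun j hj => sum_congr rfl fun l hl => (hb j l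
      (Nat.lt_succ_iff.1 (mem_range.1 hj)) (Nat.lt_succ_iff.1 (mem_range.1 hl))).2]
    exact norm_double e1 e2 N.succ_pos M.succ_pos (fun j l => dg (b j l)) (fun _ _ => e3 _)
      (by positivity) fun j hj l hl => (hd _).trans (hb j l hj hl).1
  let Φ : ℕ → G → Cor B := fun N g =>
    ∑ j ∈ range (N + 1 + 1), cfc (bn (N + 1) j) e * dg (U ((j : ℚ) / (N + 1 : ℕ)) g)
  have hL : ∀ (N M : ℕ) g, ∀ j ≤ N, ∀ l ≤ M, ‖q (U ((j : ℚ) / N) g) - q (U ((l : ℚ) / M) g)‖ ≤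
      K * |(j : ℝ) / N - l / M| := fun N M g j hj l hl => by
    simpa using hU _ (node_mem hj) _ (node_mem hl) g
  have h1 : ∀ g, CauchySeq fun N => Φ N g := fun g => by
    refine cauchySeq_of_le_tendsto_0' (fun N => 2 * ((K + 1) * ((√((N + 1 : ℕ) : ℝ))⁻¹ +
      (√((N + 1 : ℕ) : ℝ))⁻¹))) (fun N M h => ?_) (by
        simpa using ((tendsto_sqrt_inv.add tendsto_sqrt_inv).const_mul (K + 1)).const_mul 2)
    have h2 := dbl N M (fun j l => U ((j : ℚ) / (N + 1 : ℕ)) g - U ((l : ℚ) / (M + 1 : ℕ)) g)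
      (fun j hj l hl => by rw [map_sub]; exact hL _ _ g j hj l hl) (by rw [one, one, sub_self])
    have h3 : Φ N g - Φ M g = ∑ j ∈ range (N + 1 + 1), ∑ l ∈ range (M + 1 + 1),
        cfc (bn (N + 1) j) e * cfc (bn (M + 1) l) e *
          dg (U ((j : ℚ) / (N + 1 : ℕ)) g - U ((l : ℚ) / (M + 1 : ℕ)) g) := by
      simp only [map_sub, mul_sub, sum_sub_distrib]
      congr 1
      · refine sum_congr rfl fun j _ => ?_
        rw [← sum_mul, ← mul_sum, cfc_bn_sum e1, mul_one]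
      · rw [sum_comm]
        refine sum_congr rfl fun j _ => ?_
        rw [← sum_mul, ← sum_mul, cfc_bn_sum e1, one_mul]
    rw [dist_eq_norm, h3]
    refine h2.trans ?_
    gcongr
  choose V hV using fun g => cauchySeq_tendsto_of_complete (h1 g)
  refine ⟨V, fun g h => ?_, fun g => ?_, fun f r f1 f2 => ?_, fun g x hx => ?_⟩
  · refine (sub_eq_zero.1 (tendsto_nhds_unique (((hV g).mul (hV h)).sub (hV (g * h)))
      (squeeze_zero_norm (fun N => ?_) (by simpa using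
        ((tendsto_sqrt_inv.add tendsto_sqrt_inv).const_mul (K + 1)).const_mul 2)))).symm
    have h2 := dbl N N (fun j l => U ((j : ℚ) / (N + 1 : ℕ)) g * U ((l : ℚ) / (N + 1 : ℕ)) h -
        U ((j : ℚ) / (N + 1 : ℕ)) (g * h)) (fun j hj l hl => by
      rw [map_sub, map_mul, hm, ← mul_sub, abs_sub_comm]
      exact (norm_mul_le _ _).trans ((mul_le_of_le_one_left (norm_nonneg _) (hn _ g)).trans
        (hL _ _ h l hl j hj))) (by rw [one, hm1, sub_self])
    have h3 : Φ N g * Φ N h - Φ N (g * h) = ∑ j ∈ range (N + 1 + 1), ∑ l ∈ range (N + 1 + 1),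
        cfc (bn (N + 1) j) e * cfc (bn (N + 1) l) e * dg (U ((j : ℚ) / (N + 1 : ℕ)) g *
          U ((l : ℚ) / (N + 1 : ℕ)) h - U ((j : ℚ) / (N + 1 : ℕ)) (g * h)) := by
      simp only [map_sub, mul_sub, sum_sub_distrib, map_mul]
      congr 1
      · rw [sum_mul_sum]
        refine sum_congr rfl fun j _ => sum_congr rfl fun l _ => ?_
        rw [mul_assoc, mul_assoc, ← mul_assoc (dg _), ← (hc _ _).eq, mul_assoc]
      · refine sum_congr rfl fun j _ => ?_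
        rw [← sum_mul, ← mul_sum, cfc_bn_sum e1, mul_one]
    rw [h3]
    simpa using h2
  · refine tendsto_nhds_unique (hV g).star ((hV g⁻¹).congr fun N => ?_)
    simp only [Φ, star_sum, star_mul, ← map_star]
    refine sum_congr rfl fun j hj => ?_
    rw [(cfc_predicate (bn _ j) e).star_eq, ← (hc _ _).eq]
    by_cases h2 : j < N + 1
    · exact kill N j h2 _ _ (by rw [map_star, hs])
    · obtain rfl : j = N + 1 := by rw [mem_range] at hj; omega
      rw [one, hs1]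
  · have h4 : Tendsto (fun N => ‖f.sum fun g c => c • Φ N g‖) atTop
        (𝓝 ‖f.sum fun g c => c • V g‖) :=
      (tendsto_finsetSum _ fun g _ => (hV g).const_smul _).norm
    refine le_of_tendsto' h4 fun N => le_of_forall_pos_le_add fun ε hε => ?_
    have h5 : ∀ j, ∃ b : B, j ∈ range (N + 1 + 1) → ‖b‖ ≤ r + ε / 2 ∧ cfc (bn (N + 1) j) e *
        dg (f.sum fun g c => c • U ((j : ℚ) / (N + 1 : ℕ)) g) = cfc (bn (N + 1) j) e * dg b := by
      intro j
      by_cases hj : j < N + 1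
      · obtain ⟨i, i1, i2⟩ := exists_near q
          (f.sum fun g c => c • U ((j : ℚ) / (N + 1 : ℕ)) g) (half_pos hε)
        refine ⟨_, fun _ => ⟨i2.trans ?_, kill N j hj _ _ (by simp [i1])⟩⟩
        simpa [Finsupp.sum] using f2 ((j : ℚ) / (N + 1 : ℕ))
      · refine ⟨_, fun h => ⟨?_, rfl⟩⟩
        obtain rfl : j = N + 1 := by rw [mem_range] at h; omega
        rw [one]
        linarith
    choose b hb using h5
    have h6 : (f.sum fun g c => c • Φ N g) =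
        ∑ j ∈ range (N + 1 + 1), cfc (bn (N + 1) j) e * dg (b j) := by
      rw [← sum_congr rfl fun j hj => (hb j hj).2]
      simp only [Finsupp.sum, Φ, smul_sum, map_sum, map_smul, mul_sum, mul_smul_comm]
      exact sum_comm
    have h7 : 0 ≤ r + ε / 2 := (norm_nonneg _).trans (hb 0 (by simp)).1
    rw [h6]
    refine (norm_sum_cfc _ e1 _ (bn_cont _) (fun j t ht => bn_nonneg _ _ (spec_mem e2 ht)) _
      (fun j => e3 _) (fun _ => r + ε / 2) (fun j hj => (hd _).trans (hb j hj).1) h7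
      fun t _ => ?_).trans (by linarith)
    rw [← mul_sum, bn_sum, mul_one]
  · have h4 : ∀ N, ∃ y, Φ N g - dg (U 0 g) = e * y := fun N => by
      choose y hy using cfc_bn_succ e1 (N + 1)
      refine ⟨∑ j ∈ range (N + 1), y j * dg (U (((j + 1 : ℕ) : ℚ) / (N + 1 : ℕ)) g - U 0 g), ?_⟩
      rw [← one_mul (dg (U 0 g)), ← cfc_bn_sum e1 (N + 1), sum_mul, ← sum_sub_distrib,
        sum_range_succ', mul_sum]
      simp only [Nat.cast_zero, zero_div, sub_self, add_zero, ← mul_sub, ← map_sub]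
      exact sum_congr rfl fun j _ => by rw [hy, mul_assoc]
    refine Metric.tendsto_nhds.2 fun ε hε => ?_
    obtain ⟨N, hN⟩ := (Metric.tendsto_nhds.1 (hV g) ε hε).exists
    obtain ⟨y, hy⟩ := h4 N
    obtain ⟨y, rfl⟩ := mk_surj y
    have h5 : ‖mk B (x - cst (U 0 g) - E * y)‖ < ε := by
      rw [map_sub, map_sub, map_mul, ← hy, hx]
      rw [dist_comm, dist_eq_norm, ← sub_sub_sub_cancel_right _ _ (dg (U 0 g))] at hN
      exact hN
    filter_upwards [ev_le _ h5] with n hn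
    have h6 := NonUnitalStarAlgHom.norm_apply_le q (x n - U 0 g - E n * y n)
    rw [map_sub, map_sub, map_mul, e0, zero_mul, sub_zero] at h6
    simpa using h6.trans_lt hn

theorem exists_ext' {G A Q : Type} [Group G] [CStarAlgebra A] [CStarAlgebra Q] (l : G →* A)
    (V : G → Q) (hl : ∀ g, star (l g) = l g⁻¹) (hm : ∀ g h, V (g * h) = V g * V h)
    (hV : ∀ g, star (V g) = V g⁻¹) {K : ℝ}
    (h : ∀ f : G →₀ ℂ, ‖f.sum fun g c => c • V g‖ ≤ K * ‖f.sum fun g c => c • l g‖) :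
    ∃ φ : generatedCStar (Set.range l) →⋆ₙₐ[ℂ] Q,
      ∀ g (x : generatedCStar (Set.range l)), x.1 = l g → φ x = V g := by
  let S : Set (A × Q) := Set.range fun g => (l g, V g)
  let Γ0 : NonUnitalStarSubalgebra ℂ (A × Q) :=
    { Submodule.span ℂ S with
      mul_mem' := fun {x y} hx hy => by
        have := Submodule.mul_mem_mul hx hy
        rw [Submodule.span_mul_span] at this
        exact Submodule.span_mono (by
          rintro _ ⟨_, ⟨a, rfl⟩, _, ⟨b, rfl⟩, rfl⟩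
          exact ⟨a * b, Prod.ext (map_mul l a b) (hm a b)⟩) this
      star_mem' := fun {x} hx => by
        refine Submodule.span_induction (p := fun y _ => star y ∈ Submodule.span ℂ S)
          (fun y hy => Submodule.subset_span ?_) (by simp) (fun a b _ _ ha hb => ?_)
          (fun c a _ ha => ?_) hx
        · obtain ⟨a, rfl⟩ := hy
          exact ⟨a⁻¹, Prod.ext (hl a).symm (hV a).symm⟩
        · rw [star_add]; exact add_mem ha hb
        · rw [star_smul]; exact Submodule.smul_mem _ _ ha }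
  let Γ := Γ0.topologicalClosure
  have hc : IsClosed (Γ : Set (A × Q)) := isClosed_closure
  have h1 : ∀ x ∈ Γ, ‖x.2‖ ≤ K * ‖x.1‖ := fun x hx => by
    refine closure_minimal (t := {x : A × Q | ‖x.2‖ ≤ K * ‖x.1‖}) (fun y hy => ?_)
      (isClosed_le (by fun_prop) (by fun_prop)) hx
    obtain ⟨f, rfl⟩ := Finsupp.mem_span_range_iff_exists_finsupp.1 hy
    simpa [Finsupp.sum, Prod.fst_sum, Prod.snd_sum] using h f
  let p : Γ →⋆ₙₐ[ℂ] A := (NonUnitalStarAlgHom.fst ℂ A Q).comp (NonUnitalStarSubalgebraClass.subtype Γ)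
  have h2 : Function.Injective p := (injective_iff_map_eq_zero p).2 fun x hx => by
    have h3 := h1 x x.2
    have h4 : x.1.1 = 0 := hx
    rw [h4, norm_zero, mul_zero, norm_le_zero_iff] at h3
    exact Subtype.ext (Prod.ext h4 h3)
  have h3 : IsClosed (Set.range p) :=
    (NonUnitalStarAlgHom.isometry p h2).isClosedEmbedding.isClosed_range
  have h5 : ∀ g, (l g, V g) ∈ Γ := fun g => subset_closure (Submodule.subset_span ⟨g, rfl⟩)
  have h4 : ∀ x : generatedCStar (Set.range l), ∃ y, p y = x := fun x => by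
    refine closure_minimal (fun y hy => ?_) h3 x.2
    refine Submodule.span_le (p := LinearMap.range (p : Γ →ₗ[ℂ] A)).2 ?_ (adjoin_le_span
      (s := Set.range l) ⟨1, map_one _⟩
      (by rintro _ ⟨a, rfl⟩ _ ⟨b, rfl⟩; exact ⟨a * b, map_mul _ _ _⟩)
      (by rintro _ ⟨a, rfl⟩; exact ⟨a⁻¹, (hl a).symm⟩) hy)
    rintro _ ⟨g, rfl⟩
    exact ⟨⟨_, h5 g⟩, rfl⟩
  choose s hs using h4
  let r : Γ →⋆ₙₐ[ℂ] Q := (NonUnitalStarAlgHom.snd ℂ A Q).comp (NonUnitalStarSubalgebraClass.subtype Γ)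
  refine ⟨r.comp
    { toFun := s
      map_smul' := fun c x => h2 (by simp [hs])
      map_zero' := h2 (by simp [hs])
      map_add' := fun x y => h2 (by simp [hs])
      map_mul' := fun x y => h2 (by simp [hs])
      map_star' := fun x => h2 (by simp [hs, map_star]) }, fun g x hx => ?_⟩
  exact congrArg r (h2 ((hs x).trans hx) : s x = ⟨_, h5 g⟩)

/-- Star homomorphisms to sequences modulo null sequences lift. -/
def LiftsCor {C : Type} [CStarAlgebra C] (A : StarSubalgebra ℂ C) : Prop :=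
  ∀ (B : Type) [CStarAlgebra B] [Nontrivial B] [TopologicalSpace.SeparableSpace B]
    (φ : A →⋆ₙₐ[ℂ] Cor B), ∃ ψ : A →⋆ₙₐ[ℂ] Sq B, ∀ x, mk B (ψ x) = φ x

theorem abs_hom' {B D G : Type} [CStarAlgebra B] [CStarAlgebra D] [Nontrivial B]
    [TopologicalSpace.SeparableSpace B] [Group G] (h : LiftsCor (Cr G)) (q : B →⋆ₐ[ℂ] D)
    (U : ℚ → G → B) (hm : ∀ t g h, q (U t (g * h)) = q (U t g) * q (U t h))
    (hs : ∀ t g, star (q (U t g)) = q (U t g⁻¹))
    (hm1 : ∀ g h, U 1 (g * h) = U 1 g * U 1 h) (hs1 : ∀ g, star (U 1 g) = U 1 g⁻¹) {K : ℝ}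
    (hK : 0 ≤ K) (hU : ∀ s ∈ Set.Icc (0 : ℚ) 1, ∀ t ∈ Set.Icc (0 : ℚ) 1, ∀ g,
      ‖q (U s g) - q (U t g)‖ ≤ K * |(s : ℝ) - t|)
    (e1 : ∀ f : G →₀ ℂ, ‖f.sum fun g c => c • U 1 g‖ ≤ ‖f.sum fun g c => c • lam G g‖)
    (e2 : ∀ (f : G →₀ ℂ) t, ‖f.sum fun g c => c • q (U t g)‖ ≤ ‖f.sum fun g c => c • lam G g‖) :
    ∃ ψ : ℕ → Cr G →⋆ₙₐ[ℂ] B, ∀ g, Tendsto (fun n => q (ψ n (lamr G g))) atTop (𝓝 (q (U 0 g))) := by
  obtain ⟨V, h0, h1, h2, h3⟩ := homotopy_lift' q U hm hs (fun t g => by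
    simpa using (by simpa using e2 (Finsupp.single g 1) t : ‖q (U t g)‖ ≤ ‖lam G g‖).trans
      (norm_unit_le _ star_lam g)) hm1 hs1 hK hU
  obtain ⟨φ, hφ⟩ := exists_ext' (lam G) V star_lam h0 h1 (K := 2) fun f => h2 f _ (e1 f) (e2 f)
  obtain ⟨ψ, hψ⟩ := h B φ
  exact ⟨fun n => (evn n).comp ψ, fun g => tendsto_iff_norm_sub_tendsto_zero.2
    (h3 g _ ((hψ _).trans (hφ _ (lamr G g) rfl)))⟩

end Pool.Agent.MP_56ff7a_an.H29
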