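import Pool.Agent.MP_56ff7a_an.H29.Kap

/-!
The homotopy and the contradiction.
-/

namespace Pool.Agent.MP_56ff7a_an.H29

open Finset Filter Topology H20 SemidirectProduct
open scoped InnerProductSpace

section Comp

variable {G H H' : Type} [Group G] [NormedAddCommGroup H] [InnerProductSpace ℂ H] [CompleteSpace H]
  [NormedAddCommGroup H'] [InnerProductSpace ℂ H'] [CompleteSpace H']

/-- Conjugation by an isometry. -/
noncomputable def cj {w : H →L[ℂ] H'} (h : ∀ ξ, ‖w ξ‖ = ‖ξ‖) : Bd H →⋆ₙₐ[ℂ] Bd H' where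
  toFun T := w ∘L T ∘L w.adjoint
  map_smul' c T := by ext; simp
  map_zero' := by ext; simp
  map_add' S T := by ext; simp
  map_mul' S T := by ext; simp [adj_iso h]
  map_star' T := by
    simp only [ContinuousLinearMap.star_eq_adjoint, ContinuousLinearMap.adjoint_comp,
      ContinuousLinearMap.adjoint_adjoint, ContinuousLinearMap.comp_assoc]

theorem cj_apply {w : H →L[ℂ] H'} (h : ∀ ξ, ‖w ξ‖ = ‖ξ‖) (T : Bd H) (η : H') :
    cj h T η = w (T (w.adjoint η)) := rfl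

theorem cj_lip {w w' : H →L[ℂ] H'} (h : ∀ ξ, ‖w ξ‖ = ‖ξ‖) (h' : ∀ ξ, ‖w' ξ‖ = ‖ξ‖) {T : Bd H}
    (hT : ‖T‖ ≤ 1) : ‖cj h T - cj h' T‖ ≤ 2 * ‖w - w'‖ := by
  refine ContinuousLinearMap.opNorm_le_bound _ (by positivity) fun η => ?_
  have h0 : ∀ ξ, ‖T ξ‖ ≤ ‖ξ‖ := fun ξ => (T.le_of_opNorm_le hT ξ).trans_eq (one_mul _)
  have h1 := (w - w').le_opNorm (T (w.adjoint η))
  have h2 := (w - w').adjoint.le_opNorm η
  have h3 := w.adjoint.le_of_opNorm_le
    ((ContinuousLinearMap.adjoint.norm_map w).trans_le (norm_iso h)) η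
  have h4 := mul_le_mul_of_nonneg_left ((h0 _).trans h3) (norm_nonneg (w - w'))
  have h5 := h0 ((w - w').adjoint η)
  rw [← h'] at h5
  have h6 : (cj h T - cj h' T) η = (w - w') (T (w.adjoint η)) + w' (T ((w - w').adjoint η)) := by
    simp [cj_apply]
  rw [ContinuousLinearMap.adjoint.norm_map] at h2
  rw [h6]
  linarith [norm_add_le ((w - w') (T (w.adjoint η))) (w' (T ((w - w').adjoint η)))]

theorem cj_comm {w : H →L[ℂ] H'} (h : ∀ ξ, ‖w ξ‖ = ‖ξ‖) {T S : Bd H} {S' : Bd H'}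
    (h1 : w ∘L S = S' ∘L w) (h2 : w ∘L star S = star S' ∘L w) (h3 : Commute T S) :
    Commute (cj h T) S' := by
  have h4 := congrArg ContinuousLinearMap.adjoint h2
  simp only [ContinuousLinearMap.adjoint_comp, ContinuousLinearMap.star_eq_adjoint,
    ContinuousLinearMap.adjoint_adjoint] at h4
  change w ∘L T ∘L w.adjoint ∘L S' = (S' ∘L w) ∘L T ∘L w.adjoint
  rw [← h4, ← h1]
  exact congrArg (fun X : Bd H => w ∘L X ∘L w.adjoint) h3.eq

theorem sng_eq' {Z : Type} [DecidableEq Z] (z : Z) (v : H) : sng z v = lp.single 2 z v := by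
  rw [sng_eq]
  congr
  exact Subsingleton.elim _ _

theorem norm_amp_in {Z : Type} (ξ : El Z H) (η : El Z H') :
    ‖amp Z (in1 H H') ξ + amp Z (in2 H H') η‖ ^ 2 = ‖ξ‖ ^ 2 + ‖η‖ ^ 2 :=
  (hasSum_sq _).unique (by
    convert (hasSum_sq ξ).add (hasSum_sq η) using 2 with z
    exact norm_in (ξ z) (η z))

end Comp

/-- Square summable functions on the free group. -/
abbrev LF (ι : Type) : Type := L2 (FreeGroup ι)

variable {G ι A : Type} [Group G] [AddCommGroup A] [Fintype A] [DecidableEq ι] [Nonempty ι]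
  (g : AddChar A ℂ → G)

variable (G A) in
/-- Pointwise operators. -/
noncomputable def pw : Bd (LF ι) →⋆ₐ[ℂ] Bd (H1 G ι A (LF ι)) :=
  (ampS G _).comp (ampS _ _)

theorem pw_apply (a : Bd (LF ι)) (ξ : H1 G ι A (LF ι)) (h : G)
    (q : P0 ι A) : pw G A a ξ h q = a (ξ h q) := rfl

theorem pw_kap (a : Bd (LF ι)) (γ : Lam ι A) : Commute (pw G A a) (kap _ g γ) :=
  amp_kap g a γ

/-- The deformed twisted representations. -/
noncomputable def kt (θ : ℝ) : Lam ι A →* Bd (H1 G ι A (LF ι)) where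
  toFun γ := pw G A (PS.sg θ γ.right) * kap _ g γ
  map_one' := by simp
  map_mul' γ δ := by
    rw [mul_right, map_mul, map_mul, map_mul]
    exact (pw_kap g _ _).mul_mul_mul_comm _ _

theorem kt_eq (θ : ℝ) (γ : Lam ι A) : kt g θ γ = pw G A (PS.sg θ γ.right) * kap _ g γ := rfl

theorem norm_kt (θ : ℝ) (γ : Lam ι A) : ‖kt g θ γ‖ ≤ 1 := (norm_mul_le _ _).trans (mul_le_one₀
  ((NonUnitalStarAlgHom.norm_apply_le (pw G A) _).trans (PS.norm_sg θ _)) (norm_nonneg _)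
    (norm_kap g γ))

theorem star_kt (θ : ℝ) (γ : Lam ι A) : star (kt g θ γ) = kt g θ γ⁻¹ :=
  star_rep (kt g θ) (norm_kt g θ) γ

theorem LL_kt (θ : ℝ) (h : G) (γ : Lam ι A) : Commute (LL G _ h) (kt g θ γ) :=
  (LL_amp _ _).mul_right (LL_kap g h γ)

theorem kt_inl (θ : ℝ) (q : P0 ι A) : kt g θ (inl q) = ampS G (MM ι A (LF ι)) (LL _ _ q) := by
  rw [kt_eq, right_inl, map_one, map_one, one_mul, kap_inl]

theorem kt_zero (γ : Lam ι A) (ξ : H1 G ι A (LF ι)) (h : G) (q : P0 ι A)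
    (y : FreeGroup ι) : kt g 0 γ ξ h q y = kap _ g γ ξ h q (γ.right⁻¹ * y) := by
  rw [kt_eq, PS.sg_zero]
  rfl

theorem exists_theta : ∃ Θ : H1 G ι A (LF ι) →L[ℂ] El (Lam ι A) (L2 G),
    (∀ ξ, ‖Θ ξ‖ = ‖ξ‖) ∧ (∀ η, Θ (Θ.adjoint η) = η) ∧ (∀ γ, Θ ∘L kt g 0 γ = LL _ _ γ ∘L Θ) ∧
      ∀ h, Θ ∘L LL G _ h = amp _ (lam G h) ∘L Θ := by
  classical
  obtain ⟨i0, hi⟩ : ∃ i0 : L2 G →L[ℂ] H1 G ι A (LF ι), i0 = amp G (sng 1 ∘L sng 1) :=
    ⟨_, rfl⟩
  have i1 : ∀ x h, i0 x h = sng 1 (sng 1 (x h)) := fun x h => by rw [hi]; rfl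
  have i2 : ∀ ξ h, i0.adjoint ξ h = ξ h 1 1 := fun ξ h => by
    rw [hi, adj_amp, ContinuousLinearMap.adjoint_comp, adj_sng, adj_sng]; rfl
  have i3 : ∀ x, ‖i0 x‖ = ‖x‖ := fun x => norm_eq_of (Equiv.refl G) _ _ fun h => by simp [i1]
  have i4 : ∀ x, pw G A (prj ℂ {1}) (i0 x) = i0 x := fun x => by
    ext h q y
    rw [pw_apply, prj_apply, i1, sng_apply]
    split_ifs with e1 e2
    exacts [rfl, rfl, (sng_ne e1 _).symm, rfl]
  obtain ⟨V, hV⟩ : ∃ V : Lam ι A → L2 G →ₗᵢ[ℂ] H1 G ι A (LF ι),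
      ∀ γ x, V γ x = kt g 0 γ (i0 x) :=
    ⟨fun γ => ⟨(kt g 0 γ ∘L i0 :), fun x => (norm_rep _ (norm_kt g 0) γ _).trans (i3 x)⟩,
      fun _ _ => rfl⟩
  have h1 : ∀ γ x ξ, ⟪V γ x, ξ⟫_ℂ = ⟪x, i0.adjoint (kt g 0 γ⁻¹ ξ)⟫_ℂ := fun γ x ξ => by
    rw [hV, ContinuousLinearMap.adjoint_inner_right, ← star_kt,
      ContinuousLinearMap.star_eq_adjoint, ContinuousLinearMap.adjoint_inner_right]
  have h2 : IsHilbertSum ℂ (fun _ => L2 G) V := IsHilbertSum.mk (fun γ δ e x y => by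
    rw [h1, hV, ← mul_apply_eq_comp, ← map_mul]
    have e' : γ⁻¹ * δ ≠ 1 := fun h => e (inv_mul_eq_one.1 h)
    generalize γ⁻¹ * δ = β at *
    refine (congrArg _ (lp.ext (funext fun h => ?_))).trans (inner_zero_right x)
    rw [i2, kt_zero]
    by_cases e1 : β.right = 1
    · rw [← inl_left_mul_inr_right β, e1, map_one, mul_one] at e' ⊢
      rw [kap_inl, ampS_apply, LL_apply, i1, sng_ne fun e2 => e' (by
        rw [mul_one, inv_eq_one] at e2; rw [e2, map_one])]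
      rfl
    · rw [← i4, ← mul_apply_eq_comp, ← (pw_kap g _ _).eq, mul_apply_eq_comp, pw_apply, prj_apply,
        if_neg (by simpa using e1)]
      rfl) (by
    refine (Submodule.topologicalClosure_eq_top_iff.2
      ((Submodule.eq_bot_iff _).2 fun ξ hξ => ?_)).ge
    have h2 : ∀ γ h, kt g 0 γ ξ h 1 1 = 0 := fun γ h => by
      have := ext_inner_left ℂ (y := 0) fun x => ((h1 γ⁻¹ x ξ).symm.trans
        (hξ _ (Submodule.mem_iSup_of_mem γ⁻¹ ⟨x, rfl⟩))).trans (inner_zero_right x).symm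
      rw [← i2, ← inv_inv γ, this]
      rfl
    ext h q w
    have h3 : kap _ g (inr w⁻¹) (pw G A (prj ℂ {1}) (pw G A (lam _ w⁻¹) ξ)) = 0 := by
      ext h q y
      have h4 := h2 (inl q⁻¹ * inr w⁻¹) h
      rw [map_mul, kt_inl, mul_apply_eq_comp, ampS_apply, LL_apply, kt_eq, PS.sg_zero, inv_inv,
        mul_one, (pw_kap g _ _).eq, mul_apply_eq_comp] at h4
      rw [← mul_apply_eq_comp, ← (pw_kap g _ _).eq, mul_apply_eq_comp, pw_apply, prj_apply]
      split_ifs with e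
      · rw [e]; exact h4
      · rfl
    rw [← norm_eq_zero, norm_rep _ (norm_kap g), norm_eq_zero] at h3
    simpa [pw_apply, prj_apply, lam_apply] using
      congrArg (fun η : H1 G ι A (LF ι) => η h q 1) h3)
  let E := h2.linearIsometryEquiv
  have h3 : ∀ γ x, E.symm (sng γ x) = kt g 0 γ (i0 x) := fun γ x => by
    rw [← hV, ← h2.linearIsometryEquiv_symm_apply_single x, sng_eq']
  have h4 : ∀ (S : Bd (H1 G ι A (LF ι))) (S' : Bd (El (Lam ι A) (L2 G))),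
      (∀ γ x, S (E.symm (sng γ x)) = E.symm (S' (sng γ x))) →
      (E : _ →L[ℂ] _) ∘L S = S' ∘L (E : _ →L[ℂ] _) := fun S S' h => by
    have h5 : S ∘L (E.symm : _ →L[ℂ] _) = (E.symm : _ →L[ℂ] _) ∘L S' := El_ext h
    ext1 ξ
    simpa using congrArg (fun T : _ →L[ℂ] _ => E (T (E ξ))) h5
  refine ⟨E, E.norm_map, fun η => by rw [E.adjoint_eq_symm]; simp, fun β => h4 _ _ fun γ x => ?_,
    fun h => h4 _ _ fun γ x => ?_⟩
  · rw [LL_sng, h3, h3, map_mul, mul_apply_eq_comp]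
  · rw [amp_sng, h3, h3, ← mul_apply_eq_comp, (LL_kt g 0 h γ).eq, mul_apply_eq_comp]
    congr 1
    exact lp.ext (funext fun k => by rw [LL_apply, i1, i1, lam_apply])

variable (G A) in
/-- The absorbing unitaries. -/
noncomputable def VV (θ : ℝ) : Bd (El (Lam ι A) (El G (LF ι))) :=
  wop Function.injective_id (fun γ => amp G (PS.sg θ γ.right⁻¹)) zero_le_one fun _ =>
    (norm_amp _).trans (PS.norm_sg θ _)

theorem VV_apply (θ : ℝ) (η : El (Lam ι A) (El G (LF ι))) (γ : Lam ι A) (h : G) :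
    VV G A θ η γ h = PS.sg θ γ.right⁻¹ (η γ h) := rfl

theorem norm_VV (θ : ℝ) (η : El (Lam ι A) (El G (LF ι))) : ‖VV G A θ η‖ = ‖η‖ :=
  norm_eq_of (Equiv.refl _) _ _ fun _ => amp_iso (norm_rep _ (PS.norm_sg θ) _) _

theorem VV_lip {θ φ : ℝ} (hθ : |Real.sin θ| ≤ 9 / 10) (hφ : |Real.sin φ| ≤ 9 / 10)
    (η : El (Lam ι A) (El G (LF ι))) :
    ‖VV G A θ η - VV G A φ η‖ ≤ 201 * |θ - φ| * ‖η‖ :=
  norm_le_of Function.injective_id (by positivity) _ _ fun γ =>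
    norm_le_of Function.injective_id (by positivity) _ _ fun h =>
      ContinuousLinearMap.le_of_opNorm_le _ (PS.sg_lip hθ hφ γ.right⁻¹) (η γ h)

theorem VV_LL (θ : ℝ) (β : Lam ι A) (η : El (Lam ι A) (El G (LF ι))) :
    VV G A θ (ampS _ (El G (LF ι)) (ampS G (LF ι) (PS.sg θ β.right)) (LL _ _ β η)) =
      LL _ _ β (VV G A θ η) := by
  refine lp.ext (funext fun γ => lp.ext (funext fun h => ?_))
  rw [LL_apply, VV_apply, VV_apply, ampS_apply, ampS_apply, LL_apply, ← mul_apply_eq_comp,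
    ← map_mul, mul_right, inv_right, mul_inv_rev, inv_inv]

theorem fix (θ : ℝ) (a : ι) : ∑ χ, (⟪sng 1 (sng 1 (sng 1 1)), LL G _ (g χ) (ev (kt g θ)
    (ee (tt A (1, a)) χ * MonoidAlgebra.of ℂ _ (inr (.of a))) (sng 1 (sng 1 (sng 1 1))))⟫_ℂ).re =
    Real.sin θ := by
  classical
  have h1 : ∀ χ, ev (kt g θ) (ee (tt A (1, a)) χ) =
      ampS G (MM ι A (LF ι)) (pv ((LL _ _).comp (eg A (1, a))) χ) := fun χ => by
    rw [ev_ee]
    exact (map_pv _ (fun x => (kt_inl g θ _).symm) χ).symm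
  have h2 : ∀ χ (u : LF ι), pv (rt _ (1, a)) χ (sng (1 : P0 ι A) u) =
      pv ((LL _ _).comp (eg A (1, a))) χ (sng 1 u) := fun χ u => by
    simp [pv, rt, RR_sng, LL_sng]
  have h3 : ∀ u : LF ι, kap _ g (inr (.of a)) (sng 1 (sng 1 u)) =
      ∑ χ, sng (g χ)⁻¹ (pv ((LL _ _).comp (eg A (1, a))) χ (sng 1 u)) := fun u => by
    rw [kap_eq, left_inr, map_one, map_one, one_mul, right_inr]
    refine (congrArg (fun T : Bd _ => T _) (kF_lt g (a, true))).trans ?_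
    have h4 : sh _ (PS.lt (a, true)) (sng (1 : P0 ι A) u) = sng 1 u :=
      (pm_sng _ _ _).trans (congrArg (sng · u) (map_one (shf A (PS.lt (a, true)))))
    rw [mul_apply_eq_comp, show ampS G (MM ι A (LF ι)) _ _ = _ from amp_sng _ _ _, h4, XX,
      _root_.sum_apply]
    refine sum_congr rfl fun χ _ => ?_
    rw [mul_apply_eq_comp, show ampS G (MM ι A (LF ι)) _ _ = _ from amp_sng _ _ _, RR_sng, one_mul, ← h2]
    rfl
  have h4 : pw G A (PS.sg θ (.of a)) (sng 1 (sng 1 (sng 1 1))) =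
      sng 1 (sng 1 (PS.sg θ (.of a) (sng 1 1))) :=
    (amp_sng _ _ _).trans (congrArg _ (amp_sng _ _ _))
  rw [← Complex.re_sum, ← inner_sum]
  simp only [map_mul, MonoidAlgebra.lift_of, h1, kt_eq, right_inr, (pw_kap g _ _).eq,
    mul_apply_eq_comp, h4, h3, map_sum]
  rw [sum_congr rfl fun χ _ => sum_eq_single χ (fun ψ _ e => ?_) (by simp)]
  · simp only [show ∀ T k v, ampS G (MM ι A (LF ι)) T (sng k v) = _ from amp_sng, LL_sng, mul_inv_cancel,
      ← mul_apply_eq_comp (pv _ _), pv_mul, if_true]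
    rw [← map_sum, ← _root_.sum_apply, pv_sum, one_apply_eq_self, inner_sng_left, sng_self,
      inner_sng_left, sng_self, inner_sng_left]
    have h5 := PS.sg_coef θ (a, true)
    rw [← sng_eq'] at h5
    rw [show FreeGroup.of a = PS.lt (a, true) from rfl, h5]
    simp [-Complex.ofReal_sin]
  · rw [show ampS G (MM ι A (LF ι)) _ _ = _ from amp_sng _ _ _, ← mul_apply_eq_comp, pv_mul,
      if_neg e.symm]
    simp

end Pool.Agent.MP_56ff7a_an.H29
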