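import Pool.Agent.MP_56ff7a_an.Mg.H20_Main

/-!
Operators on spaces of square summable families, polar decomposition, the graph trick.
-/

namespace Pool.Agent.MP_56ff7a_an.H29

open Finset Filter Topology H20
open scoped InnerProductSpace

/-- Square summable families of vectors. -/
abbrev El (Z K : Type) [NormedAddCommGroup K] : Type := lp (fun _ : Z => K) 2

section Ops

variable {Z Z' K K' K'' : Type} [NormedAddCommGroup K] [InnerProductSpace ℂ K]
  [NormedAddCommGroup K'] [InnerProductSpace ℂ K'] [NormedAddCommGroup K'']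
  [InnerProductSpace ℂ K'']

theorem le_of_sq_le {a b : ℝ} (hb : 0 ≤ b) (h : a ^ 2 ≤ b ^ 2) : a ≤ b :=
  (le_abs_self a).trans (abs_le_of_sq_le_sq' h hb |> abs_le.2)

omit [InnerProductSpace ℂ K] [InnerProductSpace ℂ K'] in
theorem norm_le_of {f : Z' → Z} (hf : Function.Injective f) {C : ℝ} (hC : 0 ≤ C) (ξ : El Z K)
    (η : El Z' K') (h : ∀ z, ‖η z‖ ≤ C * ‖ξ (f z)‖) : ‖η‖ ≤ C * ‖ξ‖ := by
  refine le_of_sq_le (by positivity) ?_
  have h1 := (hasSum_sq ξ).summable.comp_injective hf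
  have h2 := tsum_comp_le_tsum_of_inj (hasSum_sq ξ).summable (fun _ => sq_nonneg _) hf
  rw [(hasSum_sq ξ).tsum_eq] at h2
  refine (hasSum_le (fun z => ?_) (hasSum_sq η) (h1.hasSum.mul_left (C ^ 2))).trans ?_
  · rw [Function.comp, ← mul_pow]
    exact pow_le_pow_left₀ (norm_nonneg _) (h z) 2
  · rw [mul_pow]
    exact mul_le_mul_of_nonneg_left h2 (sq_nonneg _)

omit [InnerProductSpace ℂ K] [InnerProductSpace ℂ K'] in
theorem norm_eq_of (f : Z' ≃ Z) (ξ : El Z K) (η : El Z' K') (h : ∀ z, ‖η z‖ = ‖ξ (f z)‖) :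
    ‖η‖ = ‖ξ‖ := by
  refine le_antisymm ?_ ?_
  · simpa using norm_le_of f.injective zero_le_one ξ η fun z => by simp [h]
  · simpa using norm_le_of f.symm.injective zero_le_one η ξ fun z => by simp [h]

/-- Weighted composition operators. -/
noncomputable def wop {f : Z' → Z} (hf : Function.Injective f) (u : Z' → K →L[ℂ] K') {C : ℝ}
    (hC : 0 ≤ C) (hu : ∀ z, ‖u z‖ ≤ C) : El Z K →L[ℂ] El Z' K' :=
  LinearMap.mkContinuous
    { toFun := fun ξ => ⟨fun z => u z (ξ (f z)), mem_of_sq (Summable.of_nonneg_of_le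
        (fun _ => sq_nonneg _) (fun z => by
          rw [Function.comp, ← mul_pow]
          exact pow_le_pow_left₀ (norm_nonneg _) ((u z).le_of_opNorm_le (hu z) _) 2)
        (((hasSum_sq ξ).summable.comp_injective hf).mul_left (C ^ 2)))⟩
      map_add' := fun _ _ => lp.ext (funext fun z => map_add (u z) _ _)
      map_smul' := fun _ _ => lp.ext (funext fun z => map_smul (u z) _ _) } C
    fun ξ => norm_le_of hf hC ξ _ fun z => (u z).le_of_opNorm_le (hu z) _

theorem wop_apply {f : Z' → Z} (hf : Function.Injective f) (u : Z' → K →L[ℂ] K') {C : ℝ}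
    (hC : 0 ≤ C) (hu : ∀ z, ‖u z‖ ≤ C) (ξ : El Z K) (z : Z') :
    wop hf u hC hu ξ z = u z (ξ (f z)) := rfl

theorem norm_wop {f : Z' → Z} (hf : Function.Injective f) (u : Z' → K →L[ℂ] K') {C : ℝ}
    (hC : 0 ≤ C) (hu : ∀ z, ‖u z‖ ≤ C) : ‖wop hf u hC hu‖ ≤ C :=
  LinearMap.mkContinuous_norm_le _ hC _

variable (Z) in
/-- Amplification. -/
noncomputable def amp (a : K →L[ℂ] K') : El Z K →L[ℂ] El Z K' :=
  wop Function.injective_id (fun _ => a) (norm_nonneg a) fun _ => le_rfl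

@[simp] theorem amp_apply (a : K →L[ℂ] K') (ξ : El Z K) (z : Z) : amp Z a ξ z = a (ξ z) := rfl

theorem norm_amp (a : K →L[ℂ] K') : ‖amp Z a‖ ≤ ‖a‖ := norm_wop _ _ _ _

theorem amp_comp (a : K' →L[ℂ] K'') (b : K →L[ℂ] K') :
    amp Z (a ∘L b) = amp Z a ∘L amp Z b := rfl

theorem amp_iso {a : K →L[ℂ] K'} (h : ∀ v, ‖a v‖ = ‖v‖) (ξ : El Z K) : ‖amp Z a ξ‖ = ‖ξ‖ :=
  norm_eq_of (Equiv.refl Z) _ _ fun _ => h _

variable (K) in
/-- Permutation operators. -/
noncomputable def pm : Equiv.Perm Z →* (El Z K →L[ℂ] El Z K) where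
  toFun σ := wop σ.symm.injective (fun _ => 1) zero_le_one fun _ => ContinuousLinearMap.norm_id_le
  map_one' := rfl
  map_mul' _ _ := rfl

@[simp] theorem pm_apply (σ : Equiv.Perm Z) (ξ : El Z K) (z : Z) :
    pm K σ ξ z = ξ (σ.symm z) := rfl

theorem norm_pm (σ : Equiv.Perm Z) : ‖pm K σ‖ ≤ 1 :=
  norm_wop σ.symm.injective (fun _ => 1) zero_le_one fun _ => ContinuousLinearMap.norm_id_le

theorem pm_amp (σ : Equiv.Perm Z) (a : K →L[ℂ] K') :
    pm K' σ ∘L amp Z a = amp Z a ∘L pm K σ := rfl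

open Classical in
/-- Point masses. -/
noncomputable def sng (z : Z) : K →L[ℂ] El Z K :=
  lp.singleContinuousLinearMap ℂ (fun _ : Z => K) 2 z

open Classical in
theorem sng_eq (z : Z) (v : K) : sng z v = lp.single 2 z v := rfl

open Classical in
theorem sng_apply (z z' : Z) (v : K) : sng z v z' = if z' = z then v else 0 := by
  rw [sng_eq, lp.single_apply, Pi.single_apply]

@[simp] theorem sng_self (z : Z) (v : K) : sng z v z = v := by simp [sng_apply]

theorem sng_ne {z z' : Z} (h : z' ≠ z) (v : K) : sng z v z' = 0 := by simp [sng_apply, h]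

@[simp] theorem norm_sng (z : Z) (v : K) : ‖sng z v‖ = ‖v‖ := by
  classical
  rw [sng_eq, lp.norm_single (by norm_num)]

theorem inner_sng_left (z : Z) (v : K) (ξ : El Z K) : ⟪sng z v, ξ⟫_ℂ = ⟪v, ξ z⟫_ℂ := by
  classical
  rw [sng_eq, lp.inner_single_left]

theorem inner_sng_right (z : Z) (v : K) (ξ : El Z K) : ⟪ξ, sng z v⟫_ℂ = ⟪ξ z, v⟫_ℂ := by
  classical
  rw [sng_eq, lp.inner_single_right]

theorem pm_sng (σ : Equiv.Perm Z) (z : Z) (v : K) : pm K σ (sng z v) = sng (σ z) v := by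
  classical
  ext z'
  simp only [pm_apply, sng_apply, Equiv.symm_apply_eq]

theorem amp_sng (a : K →L[ℂ] K') (z : Z) (v : K) : amp Z a (sng z v) = sng z (a v) := by
  ext z'
  simp only [amp_apply, sng_apply]
  split_ifs <;> simp

/-- Evaluation. -/
noncomputable def evl (z : Z) : El Z K →L[ℂ] K := lp.evalCLM ℂ (fun _ : Z => K) 2 z

@[simp] theorem evl_apply (z : Z) (ξ : El Z K) : evl z ξ = ξ z := rfl

theorem norm_ev_le (ξ : El Z K) (z : Z) : ‖ξ z‖ ≤ ‖ξ‖ := lp.norm_apply_le_norm two_ne_zero ξ z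

theorem norm_evl (z : Z) : ‖(evl z : El Z K →L[ℂ] K)‖ ≤ 1 :=
  ContinuousLinearMap.opNorm_le_bound _ zero_le_one fun ξ => by simpa using norm_ev_le ξ z

theorem hasSum_sng (ξ : El Z K) : HasSum (fun z => sng z (ξ z)) ξ := by
  classical
  convert lp.hasSum_single (by norm_num) ξ using 2
  rw [sng_eq]

theorem El_ind (P : Submodule ℂ (El Z K)) (hc : IsClosed (P : Set (El Z K)))
    (h : ∀ z v, sng z v ∈ P) (ξ : El Z K) : ξ ∈ P :=
  hc.mem_of_tendsto (hasSum_sng ξ) (.of_forall fun _ => sum_mem fun _ _ => h _ _)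

theorem El_ext {E : Type} [NormedAddCommGroup E] [NormedSpace ℂ E] {A B : El Z K →L[ℂ] E}
    (h : ∀ z v, A (sng z v) = B (sng z v)) : A = B := by
  ext1 ξ
  exact El_ind (LinearMap.eqLocus (A : El Z K →ₗ[ℂ] E) B)
    (isClosed_eq A.continuous B.continuous) h ξ

instance [Countable Z] [TopologicalSpace.SeparableSpace K] :
    TopologicalSpace.SeparableSpace (El Z K) := by
  have h1 : TopologicalSpace.IsSeparable (⋃ z : Z, Set.range (sng z : K →L[ℂ] El Z K)) :=
    .iUnion fun z => TopologicalSpace.isSeparable_range (sng z).continuous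
  refine TopologicalSpace.isSeparable_univ_iff.1 ((h1.span (R := ℂ)).closure.mono fun ξ _ => ?_)
  exact El_ind (Submodule.span ℂ _).topologicalClosure (Submodule.isClosed_topologicalClosure _)
    (fun z v => Submodule.le_topologicalClosure _
      (Submodule.subset_span (Set.mem_iUnion.2 ⟨z, Set.mem_range_self v⟩))) ξ

instance [Nonempty Z] [Nontrivial K] : Nontrivial (El Z K) := by
  obtain ⟨v, hv⟩ := exists_ne (0 : K)
  refine ⟨sng (Classical.arbitrary Z) v, 0, fun h => hv ?_⟩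
  simpa using congrArg norm h

variable [CompleteSpace K] [CompleteSpace K']

theorem adj_amp (a : K →L[ℂ] K') : (amp Z a).adjoint = amp Z a.adjoint := by
  refine ((ContinuousLinearMap.eq_adjoint_iff _ _).2 fun ξ η => ?_).symm
  simp only [lp.inner_eq_tsum, amp_apply, ContinuousLinearMap.adjoint_inner_left]

theorem star_pm (σ : Equiv.Perm Z) : star (pm K σ) = pm K σ⁻¹ := star_rep (pm K) norm_pm σ

theorem adj_sng (z : Z) : (sng z : K →L[ℂ] El Z K).adjoint = evl z := by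
  refine ((ContinuousLinearMap.eq_adjoint_iff _ _).2 fun ξ v => ?_).symm
  rw [inner_sng_right, evl_apply]

variable (Z K) in
/-- Amplification as a star homomorphism. -/
noncomputable def ampS : (K →L[ℂ] K) →⋆ₐ[ℂ] (El Z K →L[ℂ] El Z K) where
  toFun := amp Z
  map_one' := by ext1 ξ; exact lp.ext (funext fun _ => rfl)
  map_mul' _ _ := by ext1 ξ; exact lp.ext (funext fun _ => rfl)
  map_zero' := by ext1 ξ; exact lp.ext (funext fun _ => rfl)
  map_add' _ _ := by ext1 ξ; exact lp.ext (funext fun _ => rfl)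
  commutes' _ := by ext1 ξ; exact lp.ext (funext fun _ => rfl)
  map_star' a := (adj_amp a).symm

@[simp] theorem ampS_apply (a : K →L[ℂ] K) (ξ : El Z K) (z : Z) : ampS Z K a ξ z = a (ξ z) := rfl

variable (K) in
/-- Push forward along an injection. -/
noncomputable def push {j : Z → Z'} (hj : Function.Injective j) : El Z K →L[ℂ] El Z' K :=
  (wop hj (fun _ => 1) zero_le_one fun _ => ContinuousLinearMap.norm_id_le).adjoint

theorem push_sng {j : Z → Z'} (hj : Function.Injective j) (z : Z) (v : K) :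
    push K hj (sng z v) = sng (j z) v :=
  ext_inner_left ℂ fun η => by
    rw [push, ContinuousLinearMap.adjoint_inner_right, inner_sng_right, inner_sng_right]; rfl

theorem inner_push {j : Z → Z'} (hj : Function.Injective j) (ξ η : El Z K) :
    ⟪push K hj ξ, push K hj η⟫_ℂ = ⟪ξ, η⟫_ℂ := by
  have h : (wop hj (fun _ => 1) zero_le_one fun _ => ContinuousLinearMap.norm_id_le) ∘L
      push K hj = 1 := El_ext fun z v => by
    classical
    ext z'
    rw [ContinuousLinearMap.comp_apply, push_sng, wop_apply]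
    simp [sng_apply, hj.eq_iff]
  rw [push, ContinuousLinearMap.adjoint_inner_left]
  exact congrArg (fun T : El Z K →L[ℂ] El Z K => ⟪ξ, T η⟫_ℂ) h

theorem norm_push {j : Z → Z'} (hj : Function.Injective j) (ξ : El Z K) :
    ‖push K hj ξ‖ = ‖ξ‖ := by
  rw [@norm_eq_sqrt_re_inner ℂ, inner_push, ← norm_eq_sqrt_re_inner]

end Ops

/-- The vectors killed in the limit. -/
def nulS {E E' : Type} [NormedAddCommGroup E] [NormedSpace ℂ E] [NormedAddCommGroup E']
    [NormedSpace ℂ E'] (A : ℕ → E →L[ℂ] E') : Submodule ℂ E where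
  carrier := {ξ | Tendsto (fun k => A k ξ) atTop (𝓝 0)}
  add_mem' h1 h2 := by simpa using Tendsto.add h1 h2
  zero_mem' := by simp
  smul_mem' c _ h := by simpa using Tendsto.const_smul h c

theorem nulS_closed {E E' : Type} [NormedAddCommGroup E] [NormedSpace ℂ E] [NormedAddCommGroup E']
    [NormedSpace ℂ E'] (A : ℕ → E →L[ℂ] E') {C : ℝ} (h : ∀ k, ‖A k‖ ≤ C) :
    IsClosed (nulS A : Set E) :=
  (LipschitzWith.uniformEquicontinuous (fun k ξ => A k ξ) C.toNNReal fun k =>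
    (A k).lipschitz.weaken (Real.le_toNNReal_iff_coe_le ((norm_nonneg _).trans (h k)) |>.2
      (h k))).equicontinuous.isClosed_setOfPred_tendsto continuous_const

section Polar

variable {H H' : Type} [NormedAddCommGroup H] [InnerProductSpace ℂ H] [CompleteSpace H]
  [NormedAddCommGroup H'] [InnerProductSpace ℂ H'] [CompleteSpace H']

theorem polar (A : H →L[ℂ] H') (hA : Function.Injective A) : ∃ v : H →L[ℂ] H',
    (∀ ξ, ‖v ξ‖ = ‖ξ‖) ∧ ∀ (S : H →L[ℂ] H) (S' : H' →L[ℂ] H'), A ∘L S = S' ∘L A →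
      A ∘L star S = star S' ∘L A → v ∘L S = S' ∘L v := by
  let a : H →L[ℂ] H := A.adjoint ∘L A
  have h0 : 0 ≤ a := (ContinuousLinearMap.nonneg_iff_isPositive _).2
    (ContinuousLinearMap.isPositive_adjoint_comp_self A)
  let b := CFC.sqrt a
  have h1 : IsSelfAdjoint b := IsSelfAdjoint.of_nonneg (CFC.sqrt_nonneg a)
  have h2 : ∀ ξ, ‖b ξ‖ = ‖A ξ‖ := fun ξ => by
    rw [@norm_eq_sqrt_re_inner ℂ, @norm_eq_sqrt_re_inner ℂ H',
      ← ContinuousLinearMap.adjoint_inner_right, ← ContinuousLinearMap.adjoint_inner_right,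
      ← ContinuousLinearMap.star_eq_adjoint, h1.star_eq, ← mul_apply_eq_comp,
      CFC.sqrt_mul_sqrt_self a h0]
    rfl
  have h3 : DenseRange (b : H →ₗ[ℂ] H) := by
    refine Submodule.dense_iff_topologicalClosure_eq_top (s := LinearMap.range (b : H →ₗ[ℂ] H)).2
      (Submodule.topologicalClosure_eq_top_iff.2 ((Submodule.eq_bot_iff _).2 fun ξ hξ => ?_))
    have h4 : ⟪b (b ξ), ξ⟫_ℂ = 0 := hξ (b (b ξ)) ⟨b ξ, rfl⟩
    rw [← ContinuousLinearMap.adjoint_inner_right, ← ContinuousLinearMap.star_eq_adjoint,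
      h1.star_eq, inner_self_eq_zero, ← norm_eq_zero, h2, norm_eq_zero] at h4
    exact hA (h4.trans (map_zero A).symm)
  let v := (A : H →ₗ[ℂ] H').extendOfNorm (b : H →ₗ[ℂ] H)
  have h4 : ∀ ξ, v (b ξ) = A ξ := LinearMap.extendOfNorm_eq h3 ⟨1, fun ξ => by simp [h2]⟩
  refine ⟨v, fun ξ => h3.induction_on (p := fun ξ => ‖v ξ‖ = ‖ξ‖) ξ (isClosed_eq (by fun_prop) (by fun_prop))
    fun ξ => ?_, fun S S' e1 e2 => ?_⟩
  · exact (congrArg norm (h4 ξ)).trans (h2 ξ).symm
  · have h5 : Commute a S := by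
      have h6 := congrArg ContinuousLinearMap.adjoint e2
      simp only [ContinuousLinearMap.adjoint_comp, ContinuousLinearMap.star_eq_adjoint,
        ContinuousLinearMap.adjoint_adjoint] at h6
      change (A.adjoint ∘L A) ∘L S = S ∘L A.adjoint ∘L A
      rw [ContinuousLinearMap.comp_assoc, e1, ← ContinuousLinearMap.comp_assoc, ← h6,
        ContinuousLinearMap.comp_assoc]
    have h6 : Commute b S := h5.cfcₙ_nnreal _
    ext1 ξ
    refine h3.induction_on (p := fun ξ => v (S ξ) = S' (v ξ)) ξ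
      (isClosed_eq (by fun_prop) (by fun_prop)) fun ξ => ?_
    change v ((S * b) ξ) = S' (v (b ξ))
    rw [← h6.eq, mul_apply_eq_comp, h4, h4]
    exact congrArg (fun T : H →L[ℂ] H' => T ξ) e1

theorem graph_trick (R : Submodule ℂ (H × H')) (hc : IsClosed (R : Set (H × H')))
    (h1 : ∀ ξ, (ξ, 0) ∈ R → ξ = 0) (h2 : ∀ ξ, (∀ x ∈ R, ⟪ξ, x.1⟫_ℂ = 0) → ξ = 0) :
    ∃ v : H →L[ℂ] H', (∀ ξ, ‖v ξ‖ = ‖ξ‖) ∧ ∀ (S : H →L[ℂ] H) (S' : H' →L[ℂ] H'),
      (∀ x ∈ R, (S x.1, S' x.2) ∈ R) → (∀ x ∈ R, (star S x.1, star S' x.2) ∈ R) →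
        v ∘L S = S' ∘L v := by
  let e := WithLp.prodContinuousLinearEquiv 2 ℂ H H'
  let Γ : Submodule ℂ (WithLp 2 (H × H')) := R.comap e.toLinearMap
  have : CompleteSpace Γ := (hc.preimage e.continuous).completeSpace_coe
  let A : H →L[ℂ] H' := WithLp.sndL 2 ℂ H H' ∘L Γ.starProjection ∘L
    (e.symm : H × H' →L[ℂ] WithLp 2 (H × H')) ∘L ContinuousLinearMap.inl ℂ H H'
  have hA : ∀ ξ, A ξ = (Γ.starProjection (WithLp.toLp 2 (ξ, 0))).snd := fun _ => rfl
  have h3 : ∀ (S : H →L[ℂ] H) (S' : H' →L[ℂ] H'), (∀ x ∈ R, (S x.1, S' x.2) ∈ R) →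
      (∀ x ∈ R, (star S x.1, star S' x.2) ∈ R) → A ∘L S = S' ∘L A := fun S S' e1 e2 => by
    ext1 ξ
    change A (S ξ) = S' (A ξ)
    rw [hA, hA]
    set y := Γ.starProjection (WithLp.toLp 2 (ξ, 0))
    rw [Submodule.eq_starProjection_of_mem_of_inner_eq_zero
      (v := WithLp.toLp 2 (S y.fst, S' y.snd)) (e1 _ (Γ.starProjection_apply_mem _)) fun w hw => ?_]
    · rfl
    have h4 := Γ.starProjection_inner_eq_zero (WithLp.toLp 2 (ξ, 0))
      (WithLp.toLp 2 (star S w.fst, star S' w.snd)) (e2 _ hw)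
    rw [← h4, WithLp.prod_inner_apply, WithLp.prod_inner_apply]
    simp only [ContinuousLinearMap.star_eq_adjoint, ContinuousLinearMap.adjoint_inner_right]
    simp [y]
  obtain ⟨v, v1, v2⟩ := polar A ((injective_iff_map_eq_zero A).2 fun ξ hξ => h2 ξ fun x hx => by
    have h4 := Γ.starProjection_inner_eq_zero (WithLp.toLp 2 (ξ, 0)) (WithLp.toLp 2 x) hx
    have h5 := Γ.starProjection_apply_mem (WithLp.toLp 2 (ξ, 0))
    rw [hA] at hξ
    set y := Γ.starProjection (WithLp.toLp 2 (ξ, 0))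
    have h6 := h1 y.fst (by rw [← hξ]; exact h5)
    rw [WithLp.prod_inner_apply] at h4
    simpa [hξ, h6] using h4)
  exact ⟨v, v1, fun S S' e1 e2 => v2 S S' (h3 S S' e1 e2) (h3 _ _ e2 (by simpa using e1))⟩

variable (H H') in
/-- The Hilbert sum of two spaces. -/
abbrev Sum2 : Type := WithLp 2 (H × H')

variable (H H') in
/-- The first inclusion. -/
noncomputable def in1 : H →L[ℂ] Sum2 H H' :=
  ((WithLp.prodContinuousLinearEquiv 2 ℂ H H').symm : H × H' →L[ℂ] Sum2 H H') ∘L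
    ContinuousLinearMap.inl ℂ H H'

variable (H H') in
/-- The second inclusion. -/
noncomputable def in2 : H' →L[ℂ] Sum2 H H' :=
  ((WithLp.prodContinuousLinearEquiv 2 ℂ H H').symm : H × H' →L[ℂ] Sum2 H H') ∘L
    ContinuousLinearMap.inr ℂ H H'

theorem norm_in (ξ : H) (η : H') : ‖in1 H H' ξ + in2 H H' η‖ ^ 2 = ‖ξ‖ ^ 2 + ‖η‖ ^ 2 := by
  rw [WithLp.prod_norm_sq_eq_of_L2]
  simp [in1, in2]

theorem adj_iso {w : H →L[ℂ] H'} (h : ∀ ξ, ‖w ξ‖ = ‖ξ‖) (ξ : H) : w.adjoint (w ξ) = ξ :=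
  congrArg (fun T : H →L[ℂ] H => T ξ) (w.norm_map_iff_adjoint_comp_self.1 h)

theorem norm_iso {w : H →L[ℂ] H'} (h : ∀ ξ, ‖w ξ‖ = ‖ξ‖) : ‖w‖ ≤ 1 :=
  w.opNorm_le_bound zero_le_one fun ξ => by simp [h]

end Polar

end Pool.Agent.MP_56ff7a_an.H29
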