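import Pool.Agent.MP_56ff7a_an.H29.Ki

/-!
The Pytlik-Szwarc family of unitary representations of a free group of any rank is uniformly
Lipschitz (the proof for rank two carries over word for word).
-/

namespace Pool.Agent.MP_56ff7a_an.H29.PS

open Finset Real
open H20 (norm_lam norm_add_two cs_sq pot norm_lin)

variable {ι : Type} [DecidableEq ι] [Nonempty ι]

/-- Letters. -/
def lt (x : ι × Bool) : (FreeGroup ι) := FreeGroup.mk [x]

theorem lt_inv (x : ι × Bool) : (lt x)⁻¹ = lt (x.1, !x.2) := rfl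

theorem norm_lt (x : ι × Bool) : (lt x).norm = 1 := rfl

theorem lt_ne (x : ι × Bool) : lt x ≠ 1 := fun h => by simpa [h] using norm_lt x

theorem toWord_lt (x : ι × Bool) (h : (FreeGroup ι)) :
    (lt x * h).toWord = FreeGroup.reduce (x :: h.toWord) := by
  conv_lhs => rw [← FreeGroup.mk_toWord (x := h), lt, FreeGroup.mul_mk, FreeGroup.toWord_mk]
  rfl

theorem norm_le_lt (x : ι × Bool) (h : (FreeGroup ι)) : h.norm ≤ (lt x * h).norm + 1 := by
  have := FreeGroup.norm_mul_le (lt x)⁻¹ (lt x * h)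
  rw [inv_mul_cancel_left, FreeGroup.norm_inv_eq, norm_lt] at this
  omega

theorem exists_bad (h : (FreeGroup ι)) : ∃ y : ι × Bool, (∀ x ≠ y, (lt x * h).norm = h.norm + 1) ∧
    (h ≠ 1 → (lt y * h).norm + 1 = h.norm) := by
  simp only [FreeGroup.norm, toWord_lt, FreeGroup.reduce.cons, FreeGroup.reduce_toWord,
    ne_eq, ← FreeGroup.toWord_eq_nil_iff]
  rcases h.toWord with _ | ⟨y, L⟩
  · simp
  · refine ⟨(y.1, !y.2), fun x hx => ?_, by simp⟩
    have : ¬(x.1 = y.1 ∧ x.2 = !y.2) := fun h => hx (Prod.ext h.1 h.2)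
    simp [this]

theorem F_ind {p : (FreeGroup ι) → Prop} (h1 : p 1)
    (hs : ∀ x h, (lt x * h).norm = h.norm + 1 → p h → p (lt x * h)) (h : (FreeGroup ι)) : p h := by
  induction hn : h.norm generalizing h with
  | zero => rwa [FreeGroup.norm_eq_zero.1 hn]
  | succ n ih =>
    obtain ⟨y, -, hy⟩ := exists_bad h
    have h2 := hy (fun h3 => by simp [h3] at hn)
    have h3 := hs (y.1, !y.2) (lt y * h)
    rw [← lt_inv, inv_mul_cancel_left] at h3
    exact h3 h2.symm (ih _ (by omega))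

/-- Evaluation. -/
noncomputable def evF (u : (FreeGroup ι)) : L2 (FreeGroup ι) →L[ℂ] ℂ := lp.evalCLM ℂ (fun _ : (FreeGroup ι) => ℂ) 2 u

/-- Translation followed by a rotation in the plane of two point masses. -/
noncomputable def rot (θ : ℝ) (s : (FreeGroup ι)) : BL2 (FreeGroup ι) :=
  lam (FreeGroup ι) s + (lp.singleContinuousLinearMap ℂ (fun _ : (FreeGroup ι) => ℂ) 2 1).comp
    (((cos θ : ℂ) - 1) • evF s⁻¹ + (sin θ : ℂ) • evF 1) +
    (lp.singleContinuousLinearMap ℂ (fun _ : (FreeGroup ι) => ℂ) 2 s).comp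
      (((cos θ : ℂ) - 1) • evF 1 - (sin θ : ℂ) • evF s⁻¹)

theorem rot_eq (θ : ℝ) (s : (FreeGroup ι)) (ξ : L2 (FreeGroup ι)) : rot θ s ξ = lam (FreeGroup ι) s ξ +
    lp.single 2 1 (((cos θ : ℂ) - 1) * ξ s⁻¹ + (sin θ : ℂ) * ξ 1) +
    lp.single 2 s (((cos θ : ℂ) - 1) * ξ 1 - (sin θ : ℂ) * ξ s⁻¹) := rfl

theorem rot_one (θ : ℝ) {s : (FreeGroup ι)} (hs : s ≠ 1) (ξ : L2 (FreeGroup ι)) :
    rot θ s ξ 1 = cos θ * ξ s⁻¹ + sin θ * ξ 1 := by
  simp only [rot_eq, lp.coeFn_add, Pi.add_apply, lam_apply, lp.single_apply_self,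
    lp.single_apply_ne _ _ _ hs.symm, mul_one]
  ring

theorem rot_self (θ : ℝ) {s : (FreeGroup ι)} (hs : s ≠ 1) (ξ : L2 (FreeGroup ι)) :
    rot θ s ξ s = cos θ * ξ 1 - sin θ * ξ s⁻¹ := by
  simp only [rot_eq, lp.coeFn_add, Pi.add_apply, lam_apply, lp.single_apply_self,
    lp.single_apply_ne _ _ _ hs, inv_mul_cancel]
  ring

theorem rot_ne (θ : ℝ) {s u : (FreeGroup ι)} (h1 : u ≠ 1) (h2 : u ≠ s) (ξ : L2 (FreeGroup ι)) :
    rot θ s ξ u = ξ (s⁻¹ * u) := by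
  simp only [rot_eq, lp.coeFn_add, Pi.add_apply, lam_apply, lp.single_apply_ne _ _ _ h1,
    lp.single_apply_ne _ _ _ h2, add_zero]

theorem rot_mul (θ : ℝ) {s : (FreeGroup ι)} (hs : s ≠ 1) : rot θ s * rot θ s⁻¹ = 1 := by
  have hs' := inv_ne_one.2 hs
  ext ξ u
  change rot θ s (rot θ s⁻¹ ξ) u = ξ u
  by_cases h1 : u = 1
  · rw [h1, rot_one θ hs, rot_one θ hs', rot_self θ hs']
    linear_combination ξ 1 * cs_sq θ
  by_cases h2 : u = s
  · rw [h2, rot_self θ hs, rot_one θ hs', rot_self θ hs', inv_inv]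
    linear_combination ξ s * cs_sq θ
  rw [rot_ne θ h1 h2, rot_ne θ (fun h => h2 (inv_mul_eq_one.1 h).symm) (by simpa using h1)]
  simp

theorem norm_rot (θ : ℝ) {s : (FreeGroup ι)} (hs : s ≠ 1) (ξ : L2 (FreeGroup ι)) : ‖rot θ s ξ‖ = ‖ξ‖ := by
  rw [← sq_eq_sq₀ (norm_nonneg _) (norm_nonneg _), rot_eq, norm_add_two _ hs, norm_lam]
  simp only [lam_apply, mul_one, inv_mul_cancel, Complex.sq_norm, Complex.normSq_apply,
    Complex.add_re, Complex.add_im, Complex.mul_re, Complex.mul_im, Complex.sub_re,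
    Complex.sub_im, Complex.ofReal_re, Complex.ofReal_im, Complex.one_re, Complex.one_im]
  linear_combination ((ξ 1).re ^ 2 + (ξ 1).im ^ 2 + (ξ s⁻¹).re ^ 2 + (ξ s⁻¹).im ^ 2) *
    cos_sq_add_sin_sq θ

/-- The deformed representation. -/
noncomputable def sg (θ : ℝ) : (FreeGroup ι) →* BL2 (FreeGroup ι) :=
  (Units.coeHom _).comp (FreeGroup.lift fun i => ⟨rot θ (lt (i, true)), rot θ (lt (i, true))⁻¹,
    rot_mul θ (lt_ne _), by simpa using rot_mul θ (inv_ne_one.2 (lt_ne (i, true)))⟩)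

theorem sg_lt (θ : ℝ) (x : ι × Bool) : sg θ (lt x) = rot θ (lt x) := by
  obtain ⟨i, _ | _⟩ := x
  · change sg θ (FreeGroup.of i)⁻¹ = _
    rw [sg, MonoidHom.comp_apply, map_inv, FreeGroup.lift_apply_of]
    rfl
  · change sg θ (FreeGroup.of i) = _
    rw [sg, MonoidHom.comp_apply, FreeGroup.lift_apply_of]
    rfl

theorem sg_mul (θ : ℝ) (x : ι × Bool) (h : (FreeGroup ι)) (ξ : L2 (FreeGroup ι)) :
    sg θ (lt x * h) ξ = rot θ (lt x) (sg θ h ξ) := by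
  rw [map_mul, sg_lt]; rfl

theorem norm_sg (θ : ℝ) (h : (FreeGroup ι)) : ‖sg θ h‖ ≤ 1 := by
  refine ContinuousLinearMap.opNorm_le_bound _ zero_le_one fun ξ => ?_
  induction h using F_ind with
  | h1 => simp
  | hs x h _ ih => rwa [sg_mul, norm_rot θ (lt_ne x)]

theorem sg_zero : sg (ι := ι) 0 = lam (FreeGroup ι) := by
  ext i : 1
  refine (sg_lt 0 (i, true)).trans ?_
  ext ξ : 1
  simp [rot_eq]
  rfl

theorem sg_far (θ : ℝ) (ξ : L2 (FreeGroup ι)) (h u : (FreeGroup ι)) (hu : h.norm < u.norm + (u⁻¹ * h).norm) :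
    sg θ h ξ u = ξ (h⁻¹ * u) := by
  induction h using F_ind generalizing u with
  | h1 => simp
  | hs x h e ih =>
    have h1 := norm_le_lt x ((lt x)⁻¹ * u)
    have h2 := FreeGroup.norm_mul_le (lt x) ((lt x)⁻¹ * u)
    rw [mul_inv_cancel_left, norm_lt] at h2
    rw [sg_mul, rot_ne, ih, mul_inv_rev, mul_assoc]
    · rw [mul_inv_rev, inv_inv, mul_assoc]; omega
    · rintro rfl; simp at hu
    · rintro rfl; rw [inv_mul_cancel_left, norm_lt] at hu; omega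

theorem sg_pot {θ φ : ℝ} (hθ : |sin θ| ≤ 9 / 10) (hφ : |sin φ| ≤ 9 / 10) (ξ : L2 (FreeGroup ι)) (h : (FreeGroup ι)) :
    ∃ A : Finset (FreeGroup ι), (∀ u ∈ A, u.norm ≤ h.norm) ∧
      ‖sg θ h ξ - sg φ h ξ‖ ^ 2 + 29 * ‖(sg θ h ξ - sg φ h ξ) 1‖ ^ 2 +
        4000 * (|θ - φ| * ‖sg φ h ξ 1‖) ^ 2 ≤ 40401 * ∑ u ∈ A, (|θ - φ| * ‖ξ u‖) ^ 2 := by
  induction h using F_ind with
  | h1 => exact ⟨{1}, by simp, by simp; gcongr; norm_num⟩
  | hs x h e ih =>
    obtain ⟨A, h1, h2⟩ := ih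
    have h3 : (lt x * h)⁻¹ ∉ A := fun h3 => by
      have := h1 _ h3
      rw [FreeGroup.norm_inv_eq] at this; omega
    refine ⟨insert (lt x * h)⁻¹ A, fun u hu => ?_, ?_⟩
    · rcases mem_insert.1 hu with rfl | hu
      · exact FreeGroup.norm_inv_eq.le
      · exact (h1 u hu).trans (by omega)
    have h4 : ∀ θ, sg θ h ξ (lt x)⁻¹ = ξ (lt x * h)⁻¹ := fun θ => by
      rw [sg_far, mul_inv_rev]
      rw [inv_inv]; omega
    rw [sum_insert h3, sg_mul, sg_mul]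
    set D := sg θ h ξ - sg φ h ξ with hD
    have h5 : D (lt x)⁻¹ = 0 := by simp [hD, h4]
    have h6 : rot θ (lt x) (sg θ h ξ) - rot φ (lt x) (sg φ h ξ) = rot θ (lt x) D +
        lp.single 2 1 ((cos θ - cos φ : ℝ) * ξ (lt x * h)⁻¹ + (sin θ - sin φ : ℝ) * sg φ h ξ 1) +
        lp.single 2 (lt x)
          ((sin φ - sin θ : ℝ) * ξ (lt x * h)⁻¹ + (cos θ - cos φ : ℝ) * sg φ h ξ 1) := by
      ext u
      simp only [hD, map_sub, lp.coeFn_add, lp.coeFn_sub, Pi.add_apply, Pi.sub_apply]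
      by_cases e1 : u = 1
      · simp only [e1, rot_one _ (lt_ne x), h4, lp.single_apply_self,
          lp.single_apply_ne _ _ _ (lt_ne x).symm, Complex.ofReal_sub]
        ring
      by_cases e2 : u = lt x
      · simp only [e2, rot_self _ (lt_ne x), h4, lp.single_apply_self,
          lp.single_apply_ne _ _ _ (lt_ne x), Complex.ofReal_sub]
        ring
      simp only [rot_ne _ e1 e2, lp.single_apply_ne _ _ _ e1, lp.single_apply_ne _ _ _ e2, add_zero]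
    have hc := abs_cos_sub_cos_le θ φ
    have hs := abs_sin_sub_sin_le θ φ
    have h7 : ‖(sin θ : ℂ) * D 1‖ ^ 2 + ‖(cos θ : ℂ) * D 1‖ ^ 2 = ‖D 1‖ ^ 2 := by
      simp only [norm_mul, Complex.norm_real, norm_eq_abs, mul_pow, sq_abs]
      linear_combination ‖D 1‖ ^ 2 * sin_sq_add_cos_sq θ
    have h8 : ∀ {a A : ℝ}, |a| ≤ A → ‖(a : ℂ) * D 1‖ ≤ A * ‖D 1‖ := fun ha => by
      simpa using norm_lin ha ha (D 1) 0
    have h9 := pot (norm_nonneg _) (norm_nonneg _) (by positivity)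
      ((norm_add_le _ _).trans (add_le_add (h8 hθ) (norm_lin hc hs (ξ (lt x * h)⁻¹) (sg φ h ξ 1))))
      ((norm_add_le _ _).trans (add_le_add ((h8 (abs_cos_le_one θ)).trans_eq (one_mul _))
        (norm_lin ((abs_sub_comm _ _).trans_le hs) hc (ξ (lt x * h)⁻¹) (sg φ h ξ 1))))
      ((mul_le_mul_of_nonneg_left (norm_lin (abs_cos_le_one φ) hφ (ξ (lt x * h)⁻¹) (sg φ h ξ 1))
        (abs_nonneg (θ - φ))).trans_eq (by ring))
    rw [h6, norm_add_two _ (lt_ne x), norm_rot _ (lt_ne x)]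
    simp only [lp.coeFn_add, Pi.add_apply, lp.single_apply_self, rot_one _ (lt_ne x), h5, h4,
      lp.single_apply_ne _ _ _ (lt_ne x).symm, rot_self _ (lt_ne x), mul_zero, add_zero, zero_add,
      sub_zero]
    linarith

theorem sg_lip {θ φ : ℝ} (hθ : |sin θ| ≤ 9 / 10) (hφ : |sin φ| ≤ 9 / 10) (h : (FreeGroup ι)) :
    ‖sg θ h - sg φ h‖ ≤ 201 * |θ - φ| := by
  refine ContinuousLinearMap.opNorm_le_bound _ (by positivity) fun ξ => ?_
  obtain ⟨A, -, h1⟩ := sg_pot hθ hφ ξ h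
  have h2 : ∑ u ∈ A, ‖ξ u‖ ^ 2 ≤ ‖ξ‖ ^ 2 := by
    simpa using lp.sum_rpow_le_norm_rpow (p := 2) (by norm_num) ξ A
  simp only [mul_pow, ← mul_sum] at h1
  refine (pow_le_pow_iff_left₀ (norm_nonneg _) (by positivity) two_ne_zero).1 ?_
  have h3 := mul_le_mul_of_nonneg_left h2 (sq_nonneg |θ - φ|)
  have h4 := mul_nonneg (sq_nonneg |θ - φ|) (sq_nonneg ‖sg φ h ξ 1‖)
  rw [sub_apply, mul_pow, mul_pow]
  nlinarith [sq_nonneg ‖(sg θ h ξ - sg φ h ξ) 1‖]

theorem sg_coef (θ : ℝ) (x : ι × Bool) : sg θ (lt x) (lp.single 2 1 1) 1 = sin θ := by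
  rw [sg_lt, rot_one θ (lt_ne x), lp.single_apply_self,
    lp.single_apply_ne _ _ _ (inv_ne_one.2 (lt_ne x))]
  ring

end Pool.Agent.MP_56ff7a_an.H29.PS
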