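import Pool.Agent.MP_56ff7a_an.H29.Last
import Pool.Agent.MP_56ff7a_an.H29.Defs

/-!
Semiprojectivity implies lifting from the sequence algebras.
-/

namespace Pool.Agent.MP_56ff7a_an.H29

open Finset Topology H20
open Filter hiding mk
open scoped ENNReal

variable {B : Type} [CStarAlgebra B] [Nontrivial B]

variable (B) in
/-- Truncation of sequences. -/
noncomputable def tr (k : ℕ) : Sq B →⋆ₙₐ[ℂ] Sq B where
  toFun x := ⟨fun n => if k ≤ n then x n else 0, memℓp_infty ⟨‖x‖, by
    rintro _ ⟨n, rfl⟩
    dsimp only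
    split_ifs
    exacts [Sq.le x n, by simp]⟩⟩
  map_smul' c x := lp.ext (funext fun n => by
    change ite _ (c • x n) _ = c • ite _ _ _
    split_ifs <;> simp)
  map_zero' := lp.ext (funext fun n => by
    change ite _ (0 : B) _ = (0 : B)
    split_ifs <;> simp)
  map_add' x y := lp.ext (funext fun n => by
    change ite _ (x n + y n) _ = ite _ _ _ + ite _ _ _
    split_ifs <;> simp)
  map_mul' x y := lp.ext (funext fun n => by
    change ite _ (x n * y n) _ = ite _ _ _ * ite _ _ _
    split_ifs <;> simp)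
  map_star' x := lp.ext (funext fun n => by
    change ite _ (star (x n)) _ = star (ite _ _ _)
    split_ifs <;> simp)

theorem tr_apply (k : ℕ) (x : Sq B) (n : ℕ) : tr B k x n = if k ≤ n then x n else 0 := rfl

theorem mk_tr (k : ℕ) (x : Sq B) : H20.mk B (tr B k x) = H20.mk B x :=
  mk_eq.2 (mem_nul.2 (tendsto_const_nhds.congr' (by
    filter_upwards [eventually_ge_atTop k] with n hn
    change 0 = ‖tr B k x n - x n‖
    simp [tr_apply, hn])))

theorem tr_tr {k l : ℕ} (h : k ≤ l) (x : Sq B) : tr B l (tr B k x) = tr B l x :=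
  lp.ext (funext fun n => by
    rw [tr_apply, tr_apply, tr_apply]
    split_ifs with h1 h2
    exacts [rfl, absurd (h.trans h1) h2, rfl])

theorem tr_lim {x : Sq B} (h : H20.mk B x = 0) : Tendsto (fun k => x - tr B k x) atTop (𝓝 x) := by
  refine Metric.tendsto_atTop.2 fun ε hε => ?_
  obtain ⟨N, hN⟩ := eventually_atTop.1
    ((mem_nul.1 (mk_eq_zero.1 h)).eventually (gt_mem_nhds (half_pos hε)))
  refine ⟨N, fun k hk => ?_⟩
  rw [dist_eq_norm, sub_sub_cancel_left, norm_neg]
  refine (lp.norm_le_of_forall_le (half_pos hε).le fun n => ?_).trans_lt (half_lt_self hε)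
  rw [tr_apply]
  split_ifs with e
  exacts [(hN n (hk.trans e)).le, by simpa using (half_pos hε).le]

theorem sub_tr (k : ℕ) (x : Sq B) : x - tr B k x = ∑ n ∈ range k, lp.single ∞ n (x n) :=
  lp.ext (funext fun n => by
    rw [lp.coeFn_sum, Finset.sum_apply]
    change x n - tr B k x n = _
    simp only [tr_apply, lp.single_apply, Finset.sum_pi_single, mem_range]
    split_ifs <;> first | omega | simp)

theorem cont {X Y : Type} [NonUnitalCStarAlgebra X] [NonUnitalCStarAlgebra Y]
    (f : X →⋆ₙₐ[ℂ] Y) : Continuous f :=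
  AddMonoidHomClass.continuous_of_bound f 1 fun x => by
    rw [one_mul]; exact NonUnitalStarAlgHom.norm_apply_le f x

theorem lifts_of_sp {C : Type} [CStarAlgebra C] {A : StarSubalgebra ℂ C} [IsClosed (A : Set C)]
    [TopologicalSpace.SeparableSpace A] (h : IsSemiprojective A) : LiftsCor A := by
  intro B _ _ _ φ
  let R := (NonUnitalStarAlgHom.range φ).topologicalClosure
  let B' := R.comap (mkS (B := B))
  have hm : Continuous (mkS (B := B)) := cont _
  have : IsClosed (B' : Set (Sq B)) :=
    (NonUnitalStarSubalgebra.isClosed_topologicalClosure _).preimage hm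
  have : TopologicalSpace.SeparableSpace B' := by
    have : Nonempty A := ⟨0⟩
    choose l hl using fun a => mk_surj (φ a)
    let T := Submodule.span ℂ ((⋃ n : ℕ, Set.range fun b : B => (lp.single ∞ n b : Sq B)) ∪
      Set.range fun i => l (TopologicalSpace.denseSeq A i))
    have h1 : TopologicalSpace.IsSeparable (T : Set (Sq B)) :=
      ((TopologicalSpace.isSeparable_iUnion.2 fun n => TopologicalSpace.isSeparable_range
        (lp.isometry_single (E := fun _ : ℕ => B) (p := ∞) n).continuous).union
          (Set.countable_range _).isSeparable).span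
    refine (h1.closure.closure.mono fun x hx => Metric.mem_closure_iff.2 fun ε hε => ?_).separableSpace
    have h2 : H20.mk B x ∈ closure (Set.range fun i => φ (TopologicalSpace.denseSeq A i)) := by
      refine closure_minimal ?_ isClosed_closure hx
      rintro _ ⟨a, rfl⟩
      rw [Set.range_comp' φ]
      exact image_closure_subset_closure_image (cont φ)
        ⟨a, TopologicalSpace.denseRange_denseSeq A a, rfl⟩
    obtain ⟨_, ⟨i, rfl⟩, h3⟩ := Metric.mem_closure_iff.1 h2 ε hε
    beta_reduce at h3
    rw [dist_eq_norm, ← hl, ← map_sub] at h3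
    obtain ⟨y, h4, h5⟩ := QuotientAddGroup.norm_lt_iff.1 h3
    have h6 : H20.mk B (x - l (TopologicalSpace.denseSeq A i) - y) = 0 := by
      rw [map_sub, sub_eq_zero]; exact h4.symm
    refine ⟨x - y, ?_, by simpa [dist_eq_norm] using h5⟩
    have h7 := T.topologicalClosure.add_mem (mem_closure_of_tendsto (tr_lim h6)
      (Eventually.of_forall fun k => by
        rw [sub_tr]
        exact T.sum_mem fun n _ => Submodule.subset_span (.inl (Set.mem_iUnion.2 ⟨n, _, rfl⟩))))
      (T.le_topologicalClosure (Submodule.subset_span (.inr ⟨i, rfl⟩)))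
    rwa [sub_right_comm, sub_add_cancel] at h7
  let t := fun k => (tr B k).comp (NonUnitalStarSubalgebraClass.subtype B')
  have h1 : ∀ x : B', H20.mk B x.1 = 0 → x ∈ closure (⋃ k, {x : B' | tr B k x.1 = 0}) :=
    fun x hx => mem_closure_of_tendsto (f := fun k => (⟨x.1 - tr B k x.1, show H20.mk B _ ∈ R by
      rw [map_sub, mk_tr, sub_self]; exact zero_mem R⟩ : B'))
      (tendsto_subtype_rng.2 (tr_lim hx)) (Eventually.of_forall fun k => Set.mem_iUnion.2
        ⟨k, show tr B k _ = 0 by rw [map_sub, tr_tr le_rfl, sub_self]⟩)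
  have h2 : ⋃ k, {x : B' | tr B k x.1 = 0} ⊆ {x : B' | H20.mk B x.1 = 0} :=
    Set.iUnion_subset fun k y (hy : tr B k y.1 = 0) => show H20.mk B y.1 = 0 by
      rw [← mk_tr k, hy, map_zero]
  obtain ⟨n, ψ, hψ⟩ := h B' (fun k => {x | tr B k x.1 = 0})
    (fun k => isClosed_eq (cont (t k)) continuous_const)
    (fun k l e x (hx : tr B k x.1 = 0) => show tr B l x.1 = 0 by rw [← tr_tr e, hx, map_zero])
    (fun k => NonUnitalStarAlgHom.range (t k)) (fun k => NonUnitalStarAlgHom.rangeRestrict (t k))
    (fun k => ⟨by rintro ⟨_, x, rfl⟩; exact ⟨x, rfl⟩, fun x => Subtype.ext_iff⟩) R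
    (NonUnitalStarAlgHom.codRestrict (mkS.comp (NonUnitalStarSubalgebraClass.subtype B')) R
      fun x => x.2)
    ⟨fun y => by
      obtain ⟨x, hx⟩ := mk_surj y.1
      exact ⟨⟨x, show H20.mk B x ∈ R from hx ▸ y.2⟩, Subtype.ext hx⟩,
    fun x => Subtype.ext_iff.trans ⟨h1 x, fun hx => closure_minimal h2
      (isClosed_eq (hm.comp continuous_subtype_val) continuous_const) hx⟩⟩
    (fun k => NonUnitalStarAlgHom.codRestrict (mkS.comp (NonUnitalStarSubalgebraClass.subtype _)) R
      (by rintro ⟨_, x, rfl⟩; exact show H20.mk B (tr B k x.1) ∈ R from (mk_tr k x.1).symm ▸ x.2))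
    (fun k x => Subtype.ext (mk_tr k x.1))
    (NonUnitalStarAlgHom.codRestrict φ R fun a =>
      NonUnitalStarSubalgebra.le_topologicalClosure _ ⟨a, rfl⟩)
  exact ⟨(NonUnitalStarSubalgebraClass.subtype _).comp ψ, fun a => congrArg Subtype.val (hψ a)⟩

theorem not_wsp {G : Type} [Group G] [Countable G] (hG : ¬IsAmenable G) :
    ¬IsWeaklySemiprojective (generatedCStar (leftTranslations G)) := by
  rw [range_lam]
  exact fun h => not_lifts hG fun B _ _ _ φ => lift_of_wsp h φ

theorem not_sp {G : Type} [Group G] [Countable G] (hG : ¬IsAmenable G) :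
    ¬IsSemiprojective (generatedCStar (leftTranslations G)) := by
  rw [range_lam]
  have : TopologicalSpace.SeparableSpace (Cr G) :=
    (((Set.countable_range _).isSeparable.span.closure).mono (gen_le (lam G) fun g =>
      ⟨g⁻¹, star_lam g⟩)).separableSpace
  exact fun h => not_lifts hG (lifts_of_sp h)

end Pool.Agent.MP_56ff7a_an.H29
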